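import Pool.Agent.Lib.MP_c11385_co.X.Defs

/-!
# Averages on finite types
-/

set_option autoImplicit false

namespace OTree

open Finset

variable {Ω Ω' : Type} [Fintype Ω] [Fintype Ω']

theorem av_add (f g : Ω → ℝ) : av (fun ω => f ω + g ω) = av f + av g := by
  unfold av; rw [Finset.sum_add_distrib, add_div]

theorem av_sub (f g : Ω → ℝ) : av (fun ω => f ω - g ω) = av f - av g := by
  unfold av; rw [Finset.sum_sub_distrib, sub_div]

theorem av_mul_left (c : ℝ) (f : Ω → ℝ) : av (fun ω => c * f ω) = c * av f := by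
  unfold av; rw [← Finset.mul_sum, mul_div_assoc]

theorem av_mul_right (c : ℝ) (f : Ω → ℝ) : av (fun ω => f ω * c) = av f * c := by
  unfold av; rw [← Finset.sum_mul, div_mul_eq_mul_div]

theorem av_sum {ι : Type} (s : Finset ι) (f : ι → Ω → ℝ) :
    av (fun ω => ∑ i ∈ s, f i ω) = ∑ i ∈ s, av (f i) := by
  unfold av; rw [Finset.sum_comm, Finset.sum_div]

theorem av_zero : av (fun _ : Ω => (0 : ℝ)) = 0 := by
  unfold av; simp

theorem av_mono {f g : Ω → ℝ} (h : ∀ ω, f ω ≤ g ω) : av f ≤ av g := by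
  unfold av
  exact div_le_div_of_nonneg_right (Finset.sum_le_sum (fun ω _ => h ω)) (by positivity)

theorem av_nonneg {f : Ω → ℝ} (h : ∀ ω, 0 ≤ f ω) : 0 ≤ av f := by
  unfold av
  exact div_nonneg (Finset.sum_nonneg (fun ω _ => h ω)) (by positivity)

theorem card_pos' [Nonempty Ω] : (0 : ℝ) < Fintype.card Ω := by
  exact_mod_cast Fintype.card_pos

theorem av_const [Nonempty Ω] (c : ℝ) : av (fun _ : Ω => c) = c := by
  unfold av
  have := card_pos' (Ω := Ω)
  rw [Finset.sum_const, Finset.card_univ, nsmul_eq_mul]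
  field_simp

theorem av_le_of_le [Nonempty Ω] {f : Ω → ℝ} {c : ℝ} (h : ∀ ω, f ω ≤ c) : av f ≤ c :=
  (av_mono h).trans (av_const c).le

theorem av_prod (f : Ω × Ω' → ℝ) : av f = av (fun a => av (fun b => f (a, b))) := by
  unfold av
  rw [Fintype.card_prod, ← Finset.sum_div, Fintype.sum_prod_type, div_div]
  push_cast
  rw [mul_comm]

theorem av_comm (f : Ω → Ω' → ℝ) : av (fun a => av (fun b => f a b)) = av (fun b => av (fun a => f a b)) := by
  unfold av
  rw [← Finset.sum_div, ← Finset.sum_div, Finset.sum_comm, div_right_comm]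

theorem av_equiv (e : Ω ≃ Ω') (f : Ω' → ℝ) : av (fun a => f (e a)) = av f := by
  unfold av
  rw [Fintype.card_congr e, Equiv.sum_comp e f]

theorem sum_eq_card_mul_av [Nonempty Ω] (f : Ω → ℝ) : ∑ ω, f ω = Fintype.card Ω * av f := by
  unfold av
  have := card_pos' (Ω := Ω)
  field_simp

theorem le_card_mul_av [Nonempty Ω] {f : Ω → ℝ} (h : ∀ ω, 0 ≤ f ω) (ω : Ω) :
    f ω ≤ Fintype.card Ω * av f := by
  rw [← sum_eq_card_mul_av]
  exact Finset.single_le_sum (fun i _ => h i) (Finset.mem_univ ω)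

/-- Jensen's inequality for a concave power -/
theorem av_rpow_le [Nonempty Ω] {f : Ω → ℝ} (h : ∀ ω, 0 ≤ f ω) {p : ℝ} (hp0 : 0 ≤ p) (hp1 : p ≤ 1) :
    av (fun ω => f ω ^ p) ≤ (av f) ^ p := by
  have hc := card_pos' (Ω := Ω)
  have := (Real.concaveOn_rpow hp0 hp1).le_map_sum (t := (Finset.univ : Finset Ω))
    (w := fun _ => (1 : ℝ) / Fintype.card Ω) (p := f) (fun _ _ => by positivity)
    (by rw [Finset.sum_const, Finset.card_univ, nsmul_eq_mul]; field_simp)
    (fun ω _ => h ω)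
  simp only [smul_eq_mul, ← Finset.mul_sum] at this
  unfold av
  rw [div_eq_mul_inv, div_eq_mul_inv, mul_comm, mul_comm (∑ ω, f ω)]
  simpa using this

/-- Jensen's inequality for a convex power -/
theorem rpow_av_le [Nonempty Ω] {f : Ω → ℝ} (h : ∀ ω, 0 ≤ f ω) {p : ℝ} (hp1 : 1 ≤ p) :
    (av f) ^ p ≤ av (fun ω => f ω ^ p) := by
  have hc := card_pos' (Ω := Ω)
  have := (convexOn_rpow hp1).map_sum_le (t := (Finset.univ : Finset Ω))
    (w := fun _ => (1 : ℝ) / Fintype.card Ω) (p := f) (fun _ _ => by positivity)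
    (by rw [Finset.sum_const, Finset.card_univ, nsmul_eq_mul]; field_simp)
    (fun ω _ => h ω)
  simp only [smul_eq_mul, ← Finset.mul_sum] at this
  unfold av
  rw [div_eq_mul_inv, div_eq_mul_inv, mul_comm, mul_comm (∑ ω, f ω ^ p)]
  simpa using this

end OTree
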