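import Pool.Agent.Lib.MP_c11385_co.X.Av

set_option autoImplicit false

namespace OTree

open Finset

private theorem av_pi_prod {N : ℕ} {Ξ : Type} [Fintype Ξ] (G : Fin N → Ξ → ℝ) :
    av (fun f : Fin N → Ξ => ∏ j, G j (f j)) = ∏ j, av (G j) := by
  classical
  unfold av
  rw [Finset.prod_div_distrib, Finset.prod_univ_sum, Fintype.piFinset_univ, Finset.prod_const,
    Finset.card_univ, Fintype.card_fun]
  push_cast
  rw [Fintype.card_fin]

theorem av_pi_single {N : ℕ} {Ξ : Type} [Fintype Ξ] [Nonempty Ξ] (i : Fin N) (g : Ξ → ℝ) :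
    av (fun f : Fin N → Ξ => g (f i)) = av g := by
  classical
  have h := av_pi_prod (N := N) (fun j ξ => if j = i then g ξ else (1 : ℝ))
  have h1 : ∀ f : Fin N → Ξ, ∏ j, (if j = i then g (f j) else (1 : ℝ)) = g (f i) := by
    intro f
    rw [Finset.prod_ite_eq' Finset.univ i (fun j => g (f j))]
    simp
  have h2 : ∀ j : Fin N, av (fun ξ : Ξ => if j = i then g ξ else (1 : ℝ)) =
      if j = i then av g else 1 := by
    intro j
    by_cases hj : j = i
    · simp [hj]
    · simp only [hj, if_false]
      exact av_const 1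
  simp only [h1] at h
  rw [h]
  simp only [h2]
  simp

theorem av_pi_pair {N : ℕ} {Ξ : Type} [Fintype Ξ] [Nonempty Ξ] {i i' : Fin N} (hi : i ≠ i')
    (g h : Ξ → ℝ) : av (fun f : Fin N → Ξ => g (f i) * h (f i')) = av g * av h := by
  classical
  have e := av_pi_prod (N := N)
    (fun j ξ => (if j = i then g ξ else (1 : ℝ)) * (if j = i' then h ξ else (1 : ℝ)))
  have h1 : ∀ f : Fin N → Ξ, ∏ j, ((if j = i then g (f j) else (1 : ℝ)) *
      (if j = i' then h (f j) else (1 : ℝ))) = g (f i) * h (f i') := by
    intro f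
    rw [Finset.prod_mul_distrib, Finset.prod_ite_eq' Finset.univ i (fun j => g (f j)),
      Finset.prod_ite_eq' Finset.univ i' (fun j => h (f j))]
    simp
  have h2 : ∀ j : Fin N, av (fun ξ : Ξ => (if j = i then g ξ else (1 : ℝ)) *
      (if j = i' then h ξ else (1 : ℝ))) =
      (if j = i then av g else 1) * (if j = i' then av h else 1) := by
    intro j
    by_cases hj : j = i
    · have hj' : j ≠ i' := fun e => hi (hj ▸ e)
      simp only [hj, if_true, hi, if_false, mul_one]
    · by_cases hj' : j = i'
      · simp only [hj, hj', if_true, if_false, one_mul, hi.symm]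
      · simp only [hj, hj', if_false, one_mul]
        exact av_const 1
  simp only [h1] at e
  rw [e]
  simp only [h2]
  rw [Finset.prod_mul_distrib]
  simp

end OTree
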