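import Pool.Agent.Lib.MP_c11385_co.X.Av

set_option autoImplicit false

namespace OTree

open Finset

theorem rpow_sum_le_sum_rpow {ι : Type} (s : Finset ι) (x : ι → ℝ) (hx : ∀ i ∈ s, 0 ≤ x i) {p : ℝ}
    (hp0 : 0 < p) (hp1 : p ≤ 1) : (∑ i ∈ s, x i) ^ p ≤ ∑ i ∈ s, x i ^ p := by
  classical
  induction s using Finset.induction_on with
  | empty => simp [Real.zero_rpow hp0.ne']
  | insert a s ha ih =>
      rw [Finset.sum_insert ha, Finset.sum_insert ha]
      have h1 : 0 ≤ x a := hx a (Finset.mem_insert_self a s)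
      have h2 : ∀ i ∈ s, 0 ≤ x i := fun i hi => hx i (Finset.mem_insert_of_mem hi)
      calc (x a + ∑ i ∈ s, x i) ^ p ≤ x a ^ p + (∑ i ∈ s, x i) ^ p :=
            Real.rpow_add_le_add_rpow h1 (Finset.sum_nonneg h2) hp0.le hp1
        _ ≤ x a ^ p + ∑ i ∈ s, x i ^ p := by
            have := ih h2
            linarith

theorem rpow_sum_le_card {N : ℕ} (x : Fin N → ℝ) (hx : ∀ i, 0 ≤ x i) :
    (∑ i, x i) ^ (1 + nu) ≤ (N : ℝ) ^ nu * ∑ i, x i ^ (1 + nu) := by
  have h := Real.rpow_sum_le_const_mul_sum_rpow_of_nonneg (s := (Finset.univ : Finset (Fin N)))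
    (f := x) (p := 1 + nu) (by unfold nu; norm_num) (fun i _ => hx i)
  rw [Finset.card_univ, Fintype.card_fin] at h
  have e : 1 + nu - 1 = nu := by ring
  rw [e] at h
  exact h

theorem sum_rpow_le {ι : Type} (s : Finset ι) (x : ι → ℝ) (hx : ∀ i ∈ s, 0 ≤ x i) {r : ℝ}
    (hr0 : 0 < r) (hr1 : r ≤ 1) :
    ∑ i ∈ s, x i ^ r ≤ (s.card : ℝ) ^ (1 - r) * (∑ i ∈ s, x i) ^ r := by
  classical
  rcases s.eq_empty_or_nonempty with rfl | hs
  · simp [Real.zero_rpow hr0.ne']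
  · have hc : (0 : ℝ) < (s.card : ℝ) := by exact_mod_cast hs.card_pos
    have hS : 0 ≤ ∑ i ∈ s, x i := Finset.sum_nonneg hx
    have := (Real.concaveOn_rpow hr0.le hr1).le_map_sum (t := s)
      (w := fun _ => (1 : ℝ) / s.card) (p := x) (fun _ _ => by positivity)
      (by rw [Finset.sum_const, nsmul_eq_mul]; field_simp)
      (fun i hi => hx i hi)
    simp only [smul_eq_mul, ← Finset.mul_sum] at this
    rw [Real.mul_rpow (by positivity) hS, Real.div_rpow (by positivity) hc.le, Real.one_rpow] at this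
    have h2 := mul_le_mul_of_nonneg_left this hc.le
    have e1 : (s.card : ℝ) * (1 / (s.card : ℝ) * ∑ i ∈ s, x i ^ r) = ∑ i ∈ s, x i ^ r := by
      field_simp
    have e2 : (s.card : ℝ) * (1 / (s.card : ℝ) ^ r * (∑ i ∈ s, x i) ^ r)
        = (s.card : ℝ) ^ (1 - r) * (∑ i ∈ s, x i) ^ r := by
      rw [Real.rpow_sub hc, Real.rpow_one]
      ring
    rw [e1, e2] at h2
    exact h2

end OTree
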