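import Pool.Agent.Lib.MP_c11385_co.X.Av
import Pool.Agent.Lib.MP_c11385_co.X.AvPi
import Pool.Agent.Lib.MP_c11385_co.X.PowSum

set_option autoImplicit false

namespace OTree

open Finset

/-- Second-moment argument: the children are independent. -/
theorem combine {N : ℕ} {Ξ ρ : Type} [Fintype Ξ] [Nonempty Ξ] [Fintype ρ]
    (rel : ρ → ρ → Prop) [∀ R R', Decidable (rel R R')]
    (x : Fin N → Ξ → ℝ) (hx : ∀ i ξ, 0 ≤ x i ξ) (y : Fin N → ρ → Ξ → ℝ) (hy : ∀ i R ξ, 0 ≤ y i R ξ)
    (F : (Fin N → Ξ) → ℝ) (hF : ∀ f, 0 ≤ F f)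
    (h : ∀ f, F f ^ 2 ≤ (∑ i, ∑ i', if i ≠ i' then ∑ R, ∑ R', if rel R R' then
      y i R (f i) * y i' R' (f i') else 0 else 0) + ∑ i, (x i (f i)) ^ 2) :
    av (fun f => F f ^ (1 + nu)) ≤ (∑ i, ∑ i', if i ≠ i' then ∑ R, ∑ R', if rel R R' then
      av (y i R) * av (y i' R') else 0 else 0) ^ ((1 + nu) / 2)
      + ∑ i, av (fun ξ => x i ξ ^ (1 + nu)) := by
  have hq0 : (0 : ℝ) < (1 + nu) / 2 := by unfold nu; norm_num
  have hq1 : (1 + nu) / 2 ≤ 1 := by unfold nu; norm_num
  set S : (Fin N → Ξ) → ℝ := fun f => ∑ i, ∑ i', if i ≠ i' then ∑ R, ∑ R', if rel R R' then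
      y i R (f i) * y i' R' (f i') else 0 else 0 with hS
  have hS0 : ∀ f, 0 ≤ S f := by
    intro f
    refine Finset.sum_nonneg fun i _ => Finset.sum_nonneg fun i' _ => ?_
    split_ifs
    · refine Finset.sum_nonneg fun R _ => Finset.sum_nonneg fun R' _ => ?_
      split_ifs
      · exact mul_nonneg (hy _ _ _) (hy _ _ _)
      · exact le_rfl
    · exact le_rfl
  have hT0 : ∀ f : Fin N → Ξ, 0 ≤ ∑ i, (x i (f i)) ^ 2 := fun f =>
    Finset.sum_nonneg fun i _ => sq_nonneg _
  have h1 : ∀ f, F f ^ (1 + nu) ≤ S f ^ ((1 + nu) / 2) + ∑ i, x i (f i) ^ (1 + nu) := by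
    intro f
    have e1 : F f ^ (1 + nu) = (F f ^ 2) ^ ((1 + nu) / 2) := by
      rw [← Real.rpow_natCast (F f) 2, ← Real.rpow_mul (hF f)]
      congr 1
      push_cast
      ring
    rw [e1]
    calc (F f ^ 2) ^ ((1 + nu) / 2) ≤ (S f + ∑ i, (x i (f i)) ^ 2) ^ ((1 + nu) / 2) :=
          Real.rpow_le_rpow (sq_nonneg _) (h f) hq0.le
      _ ≤ S f ^ ((1 + nu) / 2) + (∑ i, (x i (f i)) ^ 2) ^ ((1 + nu) / 2) := by
          have := rpow_sum_le_sum_rpow (Finset.univ : Finset (Fin 2))
            ![S f, ∑ i, (x i (f i)) ^ 2] (by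
              intro i _
              fin_cases i
              · exact hS0 f
              · exact hT0 f) hq0 hq1
          simpa [Fin.sum_univ_two] using this
      _ ≤ S f ^ ((1 + nu) / 2) + ∑ i, ((x i (f i)) ^ 2) ^ ((1 + nu) / 2) :=
          add_le_add le_rfl (rpow_sum_le_sum_rpow _ _ (fun i _ => sq_nonneg _) hq0 hq1)
      _ = S f ^ ((1 + nu) / 2) + ∑ i, x i (f i) ^ (1 + nu) := by
          congr 1
          refine Finset.sum_congr rfl fun i _ => ?_
          rw [← Real.rpow_natCast (x i (f i)) 2, ← Real.rpow_mul (hx i (f i))]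
          congr 1
          push_cast
          ring
  refine (av_mono h1).trans ?_
  rw [av_add]
  refine add_le_add ?_ ?_
  · refine (av_rpow_le hS0 hq0.le hq1).trans (le_of_eq ?_)
    congr 1
    simp only [hS]
    rw [av_sum]
    refine Finset.sum_congr rfl fun i _ => ?_
    rw [av_sum]
    refine Finset.sum_congr rfl fun i' _ => ?_
    by_cases hi : i = i'
    · simp only [hi, ne_eq, not_true_eq_false, if_false]
      exact av_zero
    · simp only [ne_eq, hi, not_false_eq_true, if_true]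
      rw [av_sum]
      refine Finset.sum_congr rfl fun R _ => ?_
      rw [av_sum]
      refine Finset.sum_congr rfl fun R' _ => ?_
      by_cases hr : rel R R'
      · simp only [hr, if_true]
        exact av_pi_pair hi (y i R) (y i' R')
      · simp only [hr, if_false]
        exact av_zero
  · rw [av_sum]
    refine le_of_eq (Finset.sum_congr rfl fun i _ => ?_)
    exact av_pi_single i (fun ξ => x i ξ ^ (1 + nu))

end OTree
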