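import Pool.Agent.Lib.MP_c11385_co.X.Av

set_option autoImplicit false

namespace OTree

open Finset

theorem gap_aux1 {p ρ : ℝ} (hp0 : 0 < p) (hp1 : p < 1) (hρ : 0 ≤ ρ) :
    0 ≤ 1 + p * (ρ - 1) - ρ ^ p := by
  have := rpow_one_add_le_one_add_mul_self (s := ρ - 1) (by linarith) hp0.le hp1.le
  rw [show 1 + (ρ - 1) = ρ by ring] at this
  linarith

theorem gap_aux2 {p ρ : ℝ} (hp0 : 0 < p) (hp1 : p < 1) (hρ : 1 < ρ) :
    0 < 1 + p * (ρ - 1) - ρ ^ p := by
  have := rpow_one_add_lt_one_add_mul_self (s := ρ - 1) (by linarith)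
    (by linarith : ρ - 1 > 0).ne' hp0 hp1
  rw [show 1 + (ρ - 1) = ρ by ring] at this
  linarith

theorem gap_aux3 {p ρ0 ρ : ℝ} (hp0 : 0 < p) (hp1 : p < 1) (hρ0 : 1 < ρ0) (hρ : ρ0 ≤ ρ) :
    1 + p * (ρ0 - 1) - ρ0 ^ p ≤ 1 + p * (ρ - 1) - ρ ^ p := by
  have h0 : 0 < ρ0 := by linarith
  set t := ρ / ρ0 with ht
  have ht1 : 1 ≤ t := by rw [ht, le_div_iff₀ h0]; linarith
  have hρt : ρ = ρ0 * t := by rw [ht]; field_simp
  have h1 := rpow_one_add_le_one_add_mul_self (s := t - 1) (by linarith) hp0.le hp1.le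
  rw [show 1 + (t - 1) = t by ring] at h1
  have h2 : ρ ^ p = ρ0 ^ p * t ^ p := by
    rw [hρt, Real.mul_rpow h0.le (by linarith)]
  have h3 : ρ0 ^ p ≤ ρ0 := by
    calc ρ0 ^ p ≤ ρ0 ^ (1 : ℝ) := Real.rpow_le_rpow_of_exponent_le hρ0.le hp1.le
      _ = ρ0 := Real.rpow_one _
  have h4 : 0 < ρ0 ^ p := Real.rpow_pos_of_pos h0 p
  have h5 : ρ0 ^ p * t ^ p ≤ ρ0 ^ p * (1 + p * (t - 1)) := mul_le_mul_of_nonneg_left h1 h4.le
  rw [h2, hρt]
  have h6 : 0 ≤ (ρ0 - ρ0 ^ p) * (p * (t - 1)) :=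
    mul_nonneg (by linarith) (mul_nonneg hp0.le (by linarith))
  nlinarith

theorem gap (N : ℕ) [NeZero N] (p η : ℝ) (hp0 : 0 < p) (hp1 : p < 1) (hη : 0 < η) :
    ∃ C : ℝ, 0 ≤ C ∧ ∀ a : Fin N → ℝ, (∀ i, 0 ≤ a i) → ∀ i,
      a i ^ p ≤ (1 + η) * (av a) ^ p + C * ((av a) ^ p - av (fun i => a i ^ p)) := by
  have hN : (0 : ℝ) < N := by exact_mod_cast Nat.pos_of_ne_zero (NeZero.ne N)
  have hN1 : (1 : ℝ) ≤ N := by exact_mod_cast Nat.one_le_iff_ne_zero.mpr (NeZero.ne N)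
  set ρ0 : ℝ := (1 + η) ^ (1 / p) with hρ0
  have hρ1 : 1 < ρ0 := Real.one_lt_rpow (by linarith) (by positivity)
  have hρp : ρ0 ^ p = 1 + η := by
    rw [hρ0, ← Real.rpow_mul (by linarith), one_div, inv_mul_cancel₀ hp0.ne', Real.rpow_one]
  set δ : ℝ := 1 + p * (ρ0 - 1) - ρ0 ^ p with hδ
  have hδ0 : 0 < δ := gap_aux2 hp0 hp1 hρ1
  refine ⟨(N : ℝ) ^ 2 / δ, by positivity, fun a ha i => ?_⟩
  have hav0 : 0 ≤ av a := av_nonneg ha
  rcases hav0.eq_or_lt with hz | hpos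
  · have hai : ∀ j, a j = 0 := by
      intro j
      have h1 := le_card_mul_av ha j
      rw [← hz, mul_zero] at h1
      exact le_antisymm h1 (ha j)
    have h2 : (fun i => a i ^ p) = fun _ => (0 : ℝ) := by
      funext j
      rw [hai j, Real.zero_rpow hp0.ne']
    rw [h2, av_zero, ← hz, hai i, Real.zero_rpow hp0.ne']
    simp
  · set m : ℝ := av a with hm
    set r : Fin N → ℝ := fun j => a j / m with hr
    have hr0 : ∀ j, 0 ≤ r j := fun j => div_nonneg (ha j) hpos.le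
    have hap : ∀ j, a j ^ p = m ^ p * r j ^ p := by
      intro j
      rw [← Real.mul_rpow hpos.le (hr0 j)]
      congr 1
      simp only [hr]
      field_simp
    have havr : av r = 1 := by
      have h1 : r = fun j => m⁻¹ * a j := by
        funext j
        simp only [hr]
        rw [div_eq_inv_mul]
      rw [h1, av_mul_left, ← hm, inv_mul_cancel₀ hpos.ne']
    have hrN : ∀ j, r j ≤ N := by
      intro j
      have h1 := le_card_mul_av hr0 j
      rw [havr, Fintype.card_fin, mul_one] at h1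
      exact h1
    -- the average of the Bernoulli defects
    have hf : av (fun j => 1 + p * (r j - 1) - r j ^ p) = 1 - av (fun j => r j ^ p) := by
      rw [av_sub, av_add, av_const, av_mul_left, av_sub, havr, av_const]
      ring
    have hf0 : ∀ j, 0 ≤ 1 + p * (r j - 1) - r j ^ p := fun j => gap_aux1 hp0 hp1 (hr0 j)
    have key : r i ^ p ≤ (1 + η) + (N : ℝ) ^ 2 / δ * (1 - av (fun j => r j ^ p)) := by
      rw [← hf]
      have h1 : 0 ≤ av (fun j => 1 + p * (r j - 1) - r j ^ p) := av_nonneg hf0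
      by_cases hi : r i ≤ ρ0
      · have h2 : r i ^ p ≤ ρ0 ^ p := Real.rpow_le_rpow (hr0 i) hi hp0.le
        rw [hρp] at h2
        have h3 : 0 ≤ (N : ℝ) ^ 2 / δ * av (fun j => 1 + p * (r j - 1) - r j ^ p) := by
          positivity
        linarith
      · push Not at hi
        have h2 := gap_aux3 hp0 hp1 hρ1 hi.le
        rw [← hδ] at h2
        have h3 := le_card_mul_av hf0 i
        rw [Fintype.card_fin] at h3
        have h4 : δ ≤ N * av (fun j => 1 + p * (r j - 1) - r j ^ p) := le_trans h2 h3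
        have h5 : (N : ℝ) ≤ (N : ℝ) ^ 2 / δ * av (fun j => 1 + p * (r j - 1) - r j ^ p) := by
          rw [div_mul_eq_mul_div, le_div_iff₀ hδ0]
          nlinarith
        have h6 : r i ^ p ≤ N := by
          calc r i ^ p ≤ (N : ℝ) ^ p := Real.rpow_le_rpow (hr0 i) (hrN i) hp0.le
            _ ≤ (N : ℝ) ^ (1 : ℝ) := Real.rpow_le_rpow_of_exponent_le hN1 hp1.le
            _ = N := Real.rpow_one _
        linarith
    have hmp : 0 < m ^ p := Real.rpow_pos_of_pos hpos p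
    have h7 : av (fun j => a j ^ p) = m ^ p * av (fun j => r j ^ p) := by
      rw [← av_mul_left]
      congr 1
      funext j
      exact hap j
    rw [h7, hap i]
    have h8 := mul_le_mul_of_nonneg_left key hmp.le
    calc m ^ p * r i ^ p ≤ _ := h8
      _ = _ := by ring

end OTree
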