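import Pool.Agent.Lib.MP_c11385_co.X.Av
import Pool.Agent.Lib.MP_c11385_co.X.Gap

set_option autoImplicit false

namespace OTree

open Finset

private theorem GapTp_pt (N : ℕ) [NeZero N] (p : ℝ) (hp0 : 0 < p) (hp1 : p < 1)
    (m : Fin N → ℕ → ℝ) (hm : ∀ i y, 0 ≤ m i y) (y : ℕ) :
    0 ≤ (am m y) ^ p - av (fun i => (m i y) ^ p) := by
  have := av_rpow_le (f := fun i => m i y) (fun i => hm i y) hp0.le hp1.le
  unfold am
  linarith

private theorem GapTp_sum (N : ℕ) (p : ℝ) (m : Fin N → ℕ → ℝ) (W : Finset ℕ) :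
    Tp p (am m) W - av (fun i => Tp p (m i) W) =
      ∑ y ∈ W, ((am m y) ^ p - av (fun i => (m i y) ^ p)) := by
  have h : av (fun i => Tp p (m i) W) = ∑ y ∈ W, av (fun i => (m i y) ^ p) :=
    av_sum W (fun y i => (m i y) ^ p)
  rw [h, Finset.sum_sub_distrib]
  rfl

theorem gap_Tp (N : ℕ) [NeZero N] (p η : ℝ) (hp0 : 0 < p) (hp1 : p < 1) (hη : 0 < η) :
    ∃ C : ℝ, 0 ≤ C ∧ ∀ m : Fin N → ℕ → ℝ, (∀ i y, 0 ≤ m i y) → ∀ (i : Fin N) (W W' : Finset ℕ),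
      W' ⊆ W → Tp p (m i) W' ≤ (1 + η) * Tp p (am m) W'
        + C * (Tp p (am m) W - av (fun i => Tp p (m i) W)) := by
  obtain ⟨C, hC, h⟩ := gap N p η hp0 hp1 hη
  refine ⟨C, hC, fun m hm i W W' hW => ?_⟩
  rw [GapTp_sum]
  have h1 : Tp p (m i) W' ≤ ∑ y ∈ W', ((1 + η) * (am m y) ^ p +
      C * ((am m y) ^ p - av (fun i => (m i y) ^ p))) := by
    unfold Tp
    exact Finset.sum_le_sum fun y _ => h (fun i => m i y) (fun i => hm i y) i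
  rw [Finset.sum_add_distrib, ← Finset.mul_sum, ← Finset.mul_sum] at h1
  have h2 : ∑ y ∈ W', ((am m y) ^ p - av (fun i => (m i y) ^ p)) ≤
      ∑ y ∈ W, ((am m y) ^ p - av (fun i => (m i y) ^ p)) :=
    Finset.sum_le_sum_of_subset_of_nonneg hW (fun y _ _ => GapTp_pt N p hp0 hp1 m hm y)
  have h3 := mul_le_mul_of_nonneg_left h2 hC
  have h4 : (1 + η) * ∑ y ∈ W', (am m y) ^ p = (1 + η) * Tp p (am m) W' := rfl
  linarith

theorem gap_nonneg (N : ℕ) [NeZero N] (p : ℝ) (hp0 : 0 < p) (hp1 : p < 1)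
    (m : Fin N → ℕ → ℝ) (hm : ∀ i y, 0 ≤ m i y) (W : Finset ℕ) :
    0 ≤ Tp p (am m) W - av (fun i => Tp p (m i) W) := by
  rw [GapTp_sum]
  exact Finset.sum_nonneg fun y _ => GapTp_pt N p hp0 hp1 m hm y

theorem Tp_le_mul (N : ℕ) [NeZero N] (p : ℝ) (hp0 : 0 < p) (hp1 : p < 1)
    (m : Fin N → ℕ → ℝ) (hm : ∀ i y, 0 ≤ m i y) (i : Fin N) (W : Finset ℕ) :
    Tp p (m i) W ≤ N * Tp p (am m) W := by
  unfold Tp
  rw [Finset.mul_sum]
  refine Finset.sum_le_sum fun y _ => ?_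
  have hN : (1 : ℝ) ≤ N := by exact_mod_cast Nat.one_le_iff_ne_zero.2 (NeZero.ne N)
  have h0 : 0 ≤ am m y := av_nonneg fun i => hm i y
  have h1 : m i y ≤ N * am m y := by
    have := le_card_mul_av (f := fun i => m i y) (fun i => hm i y) i
    rwa [Fintype.card_fin] at this
  calc (m i y) ^ p ≤ (N * am m y) ^ p := Real.rpow_le_rpow (hm i y) h1 hp0.le
    _ = (N : ℝ) ^ p * (am m y) ^ p := Real.mul_rpow (by positivity) h0
    _ ≤ N * (am m y) ^ p := by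
      apply mul_le_mul_of_nonneg_right _ (Real.rpow_nonneg h0 _)
      calc (N : ℝ) ^ p ≤ (N : ℝ) ^ (1 : ℝ) := Real.rpow_le_rpow_of_exponent_le hN hp1.le
        _ = N := Real.rpow_one _

theorem Tp_nonneg (p : ℝ) (m : ℕ → ℝ) (hm : ∀ y, 0 ≤ m y) (W : Finset ℕ) : 0 ≤ Tp p m W := by
  unfold Tp
  exact Finset.sum_nonneg fun y _ => Real.rpow_nonneg (hm y) _

theorem Tp_mono (p : ℝ) (m : ℕ → ℝ) (hm : ∀ y, 0 ≤ m y) {W W' : Finset ℕ} (h : W' ⊆ W) :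
    Tp p m W' ≤ Tp p m W := by
  unfold Tp
  exact Finset.sum_le_sum_of_subset_of_nonneg h (fun y _ _ => Real.rpow_nonneg (hm y) _)

end OTree
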