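import Pool.Agent.Lib.MP_c11385_co.X.Av

set_option autoImplicit false

namespace OTree

open Finset

theorem mem_chI {N : ℕ} {κ : Type} (I : Finset (Fin N × κ)) (i : Fin N) (x : κ) :
    x ∈ chI I i ↔ (i, x) ∈ I := by
  exact Finset.mem_preimage

theorem sum_card_chI {N : ℕ} {κ : Type} (I : Finset (Fin N × κ)) :
    ∑ i, (chI I i).card = I.card := by
  classical
  rw [Finset.card_eq_sum_card_fiberwise (f := Prod.fst) (t := Finset.univ)
    (fun _ _ => Finset.mem_coe.2 (Finset.mem_univ _))]
  refine Finset.sum_congr rfl fun i _ => ?_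
  refine Finset.card_bij (fun x _ => (i, x)) ?_ ?_ ?_
  · intro x hx
    rw [Finset.mem_filter]
    exact ⟨(mem_chI I i x).1 hx, rfl⟩
  · intro x _ y _ h
    exact (Prod.mk.inj h).2
  · rintro ⟨i', x⟩ hx
    rw [Finset.mem_filter] at hx
    obtain rfl : i' = i := hx.2
    exact ⟨x, (mem_chI I i' x).2 hx.1, rfl⟩

/-- the segments of all children -/
theorem sum_card_chI_seg {N q : ℕ} {κ : Type} (I : Finset (Fin N × κ)) (seg : Fin N × κ → Fin q)
    (j : Fin q) : ∑ i, ((chI I i).filter (fun x => seg (i, x) = j)).card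
      = (I.filter (fun p => seg p = j)).card := by
  rw [← sum_card_chI (I.filter (fun p => seg p = j))]
  refine Finset.sum_congr rfl fun i _ => ?_
  congr 1
  ext x
  rw [Finset.mem_filter, mem_chI, mem_chI, Finset.mem_filter]

theorem sum_sum_card_chI_seg {N q : ℕ} {κ : Type} (I : Finset (Fin N × κ))
    (seg : Fin N × κ → Fin q) :
    ∑ i, ∑ j, ((chI I i).filter (fun x => seg (i, x) = j)).card = I.card := by
  rw [← sum_card_chI I]
  refine Finset.sum_congr rfl fun i _ => ?_
  rw [Finset.card_eq_sum_card_fiberwise (s := chI I i) (f := fun x => seg (i, x))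
    (t := Finset.univ) (fun _ _ => Finset.mem_coe.2 (Finset.mem_univ _))]

end OTree
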