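import Pool.Agent.Lib.MP_c11385_co.X.Av

set_option autoImplicit false

namespace OTree

open Finset

theorem le_L {ι : Type} {A : ι → Finset ℕ} {ord : ι → ℕ} {I : Finset ι} {W Y : Finset ℕ}
    (h : Serves A ord I W Y) : Y.card ≤ L A ord I W := by
  classical
  unfold L
  exact Finset.le_sup (f := Finset.card) (Finset.mem_filter.2 ⟨Finset.mem_powerset.2 h.1, h⟩)

theorem L_le {ι : Type} {A : ι → Finset ℕ} {ord : ι → ℕ} {I : Finset ι} {W : Finset ℕ} {b : ℕ}
    (h : ∀ Y, Serves A ord I W Y → Y.card ≤ b) : L A ord I W ≤ b := by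
  classical
  unfold L
  refine Finset.sup_le fun Y hY => ?_
  exact h Y (Finset.mem_filter.1 hY).2

theorem exists_L {ι : Type} [Nonempty ι] (A : ι → Finset ℕ) (ord : ι → ℕ) (I : Finset ι)
    (W : Finset ℕ) : ∃ Y, Serves A ord I W Y ∧ Y.card = L A ord I W := by
  classical
  have hne : (W.powerset.filter (fun Y => Serves A ord I W Y)).Nonempty := by
    refine ⟨∅, Finset.mem_filter.2 ⟨Finset.empty_mem_powerset _, Finset.empty_subset _, ?_⟩⟩
    exact ⟨fun _ => Classical.arbitrary ι, by simp, by simp⟩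
  obtain ⟨Y, hY, h⟩ := Finset.exists_mem_eq_sup _ hne Finset.card
  refine ⟨Y, (Finset.mem_filter.1 hY).2, ?_⟩
  unfold L
  convert h.symm

theorem L_empty {ι : Type} (A : ι → Finset ℕ) (ord : ι → ℕ) (W : Finset ℕ) :
    L A ord ∅ W = 0 := by
  refine Nat.le_zero.1 (L_le fun Y hY => ?_)
  obtain ⟨_, j, hj, _⟩ := hY
  rw [Nat.le_zero, Finset.card_eq_zero, Finset.eq_empty_iff_forall_notMem]
  intro y hy
  exact Finset.notMem_empty _ (hj y hy).1

theorem L_le_of_map {ι ι' : Type} {A : ι → Finset ℕ} {A' : ι' → Finset ℕ} {ord : ι → ℕ}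
    {ord' : ι' → ℕ} {I : Finset ι} {I' : Finset ι'} {W W' : Finset ℕ} (e : ι → ι') (hW : W ⊆ W')
    (h : ∀ i ∈ I, e i ∈ I' ∧ A i ⊆ A' (e i) ∧ ord' (e i) = ord i) :
    L A ord I W ≤ L A' ord' I' W' := by
  refine L_le fun Y hY => ?_
  obtain ⟨hYW, j, hj, hm⟩ := hY
  refine le_L ⟨hYW.trans hW, fun y => e (j y), fun y hy => ?_, fun y hy y' hy' hyy => ?_⟩
  · have h1 := h _ (hj y hy).1
    exact ⟨h1.1, h1.2.1 (hj y hy).2⟩
  · rw [(h _ (hj y hy).1).2.2, (h _ (hj y' hy').1).2.2]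
    exact hm y hy y' hy' hyy

end OTree
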