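import Pool.Agent.Lib.MP_c11385_co.X.Av
import Pool.Agent.Lib.MP_c11385_co.X.LBasic

set_option autoImplicit false

namespace OTree

open Finset

theorem L_le_sum_card {ι : Type} (A : ι → Finset ℕ) (ord : ι → ℕ) (I : Finset ι)
    (W : Finset ℕ) : L A ord I W ≤ ∑ i ∈ I, (A i ∩ W).card := by
  classical
  refine L_le ?_
  rintro Y ⟨hYW, j, hj, -⟩
  have hsub : Y ⊆ I.biUnion (fun i => A i ∩ W) := by
    intro y hy
    rw [Finset.mem_biUnion]
    exact ⟨j y, (hj y hy).1, Finset.mem_inter.2 ⟨(hj y hy).2, hYW hy⟩⟩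
  exact (Finset.card_le_card hsub).trans Finset.card_biUnion_le

theorem L_le_sum_ch {ι κ : Type} [Fintype κ] [DecidableEq κ] (A : ι → Finset ℕ) (ord : ι → ℕ)
    (I : Finset ι) (W : Finset ℕ) (ch : ι → κ) :
    L A ord I W ≤ ∑ c, L A ord (I.filter (fun i => ch i = c)) W := by
  classical
  refine L_le ?_
  rintro Y ⟨hYW, j, hj, hmon⟩
  have h1 : Y.card = ∑ c : κ, (Y.filter (fun y => ch (j y) = c)).card :=
    Finset.card_eq_sum_card_fiberwise (fun y _ => Finset.mem_univ (ch (j y)))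
  rw [h1]
  refine Finset.sum_le_sum fun c _ => ?_
  refine le_L ⟨(Finset.filter_subset _ _).trans hYW, j, ?_, ?_⟩
  · intro y hy
    rw [Finset.mem_filter] at hy
    exact ⟨Finset.mem_filter.2 ⟨(hj y hy.1).1, hy.2⟩, (hj y hy.1).2⟩
  · intro y hy y' hy' hle
    exact hmon y (Finset.mem_filter.1 hy).1 y' (Finset.mem_filter.1 hy').1 hle

end OTree
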