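import Pool.Agent.Lib.MP_c11385_co.X.Av
import Pool.Agent.Lib.MP_c11385_co.X.LBasic
import Pool.Agent.Lib.MP_c11385_co.X.LSum

set_option autoImplicit false

namespace OTree

open Finset

/-- Merging lemma -/
theorem L_sq_le {ι κ : Type} [Fintype κ] [DecidableEq κ] {q : ℕ} (A : ι → Finset ℕ)
    (ord : ι → ℕ) (I : Finset ι) (W : Finset ℕ) (ch : ι → κ) (seg : ι → Fin q) (win : ℕ → Fin q)
    (hseg : ∀ x x', ord x ≤ ord x' → seg x ≤ seg x') (hwin : Monotone win) :
    (L A ord I W) ^ 2 ≤ (∑ c, ∑ c', if c ≠ c' then ∑ R : Fin q × Fin q, ∑ R' : Fin q × Fin q,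
        if NonDisc R R' then
          L A ord (I.filter (fun i => ch i = c ∧ seg i = R.1)) (W.filter (fun y => win y = R.2)) *
          L A ord (I.filter (fun i => ch i = c' ∧ seg i = R'.1)) (W.filter (fun y => win y = R'.2))
        else 0 else 0) + ∑ c, (L A ord (I.filter (fun i => ch i = c)) W) ^ 2 := by
  rcases isEmpty_or_nonempty ι with hι | hι
  · have h0 : L A ord I W = 0 := by
      refine Nat.le_zero.1 (L_le fun Y h => ?_)
      obtain ⟨-, j, -, -⟩ := h
      exact (hι.false (j 0)).elim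
    rw [h0]
    exact Nat.zero_le _
  obtain ⟨Y, ⟨hYW, j, hj, hmono⟩, hcard⟩ := exists_L A ord I W
  rw [← hcard]
  -- the cells
  have hcell : ∀ (c : κ) (R : Fin q × Fin q),
      (Y.filter (fun y => ch (j y) = c ∧ seg (j y) = R.1 ∧ win y = R.2)).card ≤
      L A ord (I.filter (fun i => ch i = c ∧ seg i = R.1)) (W.filter (fun y => win y = R.2)) := by
    intro c R
    apply le_L
    refine ⟨?_, j, ?_, ?_⟩
    · intro y hy
      rw [mem_filter] at hy ⊢
      exact ⟨hYW hy.1, hy.2.2.2⟩
    · intro y hy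
      rw [mem_filter] at hy
      exact ⟨mem_filter.2 ⟨(hj y hy.1).1, hy.2.1, hy.2.2.1⟩, (hj y hy.1).2⟩
    · intro y hy y' hy' h
      exact hmono y (mem_filter.1 hy).1 y' (mem_filter.1 hy').1 h
  have hch : ∀ c : κ, (Y.filter (fun y => ch (j y) = c)).card ≤
      L A ord (I.filter (fun i => ch i = c)) W := by
    intro c
    apply le_L
    refine ⟨(filter_subset _ _).trans hYW, j, ?_, ?_⟩
    · intro y hy
      rw [mem_filter] at hy
      exact ⟨mem_filter.2 ⟨(hj y hy.1).1, hy.2⟩, (hj y hy.1).2⟩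
    · intro y hy y' hy' h
      exact hmono y (mem_filter.1 hy).1 y' (mem_filter.1 hy').1 h
  have hsplit : Y.card ^ 2 = ((Y ×ˢ Y).filter (fun p => ch (j p.1) ≠ ch (j p.2))).card +
      ((Y ×ˢ Y).filter (fun p => ¬ (ch (j p.1) ≠ ch (j p.2)))).card := by
    rw [Finset.card_filter_add_card_filter_not, card_product, sq]
  rw [hsplit]
  refine Nat.add_le_add ?_ ?_
  · -- different children
    set g : κ × κ × (Fin q × Fin q) × (Fin q × Fin q) → ℕ := fun t =>
      if t.1 ≠ t.2.1 then if NonDisc t.2.2.1 t.2.2.2 then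
          L A ord (I.filter (fun i => ch i = t.1 ∧ seg i = t.2.2.1.1))
            (W.filter (fun y => win y = t.2.2.1.2)) *
          L A ord (I.filter (fun i => ch i = t.2.1 ∧ seg i = t.2.2.2.1))
            (W.filter (fun y => win y = t.2.2.2.2)) else 0 else 0 with hg
    have hsum : (∑ c, ∑ c', if c ≠ c' then ∑ R : Fin q × Fin q, ∑ R' : Fin q × Fin q,
        if NonDisc R R' then
          L A ord (I.filter (fun i => ch i = c ∧ seg i = R.1)) (W.filter (fun y => win y = R.2)) *
          L A ord (I.filter (fun i => ch i = c' ∧ seg i = R'.1)) (W.filter (fun y => win y = R'.2))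
        else 0 else 0) = ∑ t, g t := by
      rw [Fintype.sum_prod_type]
      refine sum_congr rfl fun c _ => ?_
      rw [Fintype.sum_prod_type]
      refine sum_congr rfl fun c' _ => ?_
      rw [Fintype.sum_prod_type (f := fun x => g (c, c', x))]
      by_cases h : c ≠ c'
      · rw [if_pos h]
        refine sum_congr rfl fun R _ => sum_congr rfl fun R' _ => ?_
        simp only [hg]
        rw [if_pos h]
      · rw [if_neg h]
        symm
        refine sum_eq_zero fun R _ => sum_eq_zero fun R' _ => ?_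
        simp only [hg]
        rw [if_neg h]
    rw [hsum]
    rw [card_eq_sum_card_fiberwise (f := fun p : ℕ × ℕ => (ch (j p.1), ch (j p.2),
      (seg (j p.1), win p.1), (seg (j p.2), win p.2))) (t := univ) (fun _ _ => by simp)]
    refine sum_le_sum fun t _ => ?_
    obtain ⟨c, c', R, R'⟩ := t
    simp only [hg]
    by_cases hcc : c ≠ c'
    · rw [if_pos hcc]
      by_cases hnd : NonDisc R R'
      · rw [if_pos hnd]
        refine le_trans ?_ (Nat.mul_le_mul (hcell c R) (hcell c' R'))
        rw [← card_product]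
        refine card_le_card fun p hp => ?_
        simp only [mem_filter, mem_product, Prod.ext_iff] at hp ⊢
        obtain ⟨⟨⟨h1, h2⟩, -⟩, h3, h4, ⟨h5, h6⟩, h7, h8⟩ := hp
        exact ⟨⟨h1, h3, h5, h6⟩, h2, h4, h7, h8⟩
      · rw [if_neg hnd]
        refine (card_eq_zero.2 ?_).le
        rw [eq_empty_iff_forall_notMem]
        intro p hp
        apply hnd
        simp only [mem_filter, mem_product, Prod.ext_iff] at hp
        obtain ⟨⟨⟨h1, h2⟩, -⟩, h3, h4, ⟨h5, h6⟩, h7, h8⟩ := hp
        constructor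
        · intro hlt
          rw [← h5, ← h7] at hlt
          have hn : ¬ p.2 ≤ p.1 := fun hle =>
            absurd (hseg _ _ (hmono _ h2 _ h1 hle)) (not_le.2 hlt)
          rw [← h6, ← h8]
          exact hwin (le_of_lt (not_le.1 hn))
        · intro hlt
          rw [← h5, ← h7] at hlt
          have hn : ¬ p.1 ≤ p.2 := fun hle =>
            absurd (hseg _ _ (hmono _ h1 _ h2 hle)) (not_le.2 hlt)
          rw [← h6, ← h8]
          exact hwin (le_of_lt (not_le.1 hn))
    · rw [if_neg hcc]
      refine (card_eq_zero.2 ?_).le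
      rw [eq_empty_iff_forall_notMem]
      intro p hp
      simp only [mem_filter, mem_product, Prod.ext_iff] at hp
      obtain ⟨⟨⟨h1, h2⟩, h0⟩, h3, h4, -⟩ := hp
      apply hcc
      rw [← h3, ← h4]
      exact h0
  · rw [card_eq_sum_card_fiberwise (f := fun p : ℕ × ℕ => ch (j p.1)) (t := univ)
      (fun _ _ => by simp)]
    refine sum_le_sum fun c _ => ?_
    rw [sq]
    refine le_trans ?_ (Nat.mul_le_mul (hch c) (hch c))
    rw [← card_product]
    refine card_le_card fun p hp => ?_
    simp only [mem_filter, mem_product, not_not] at hp ⊢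
    obtain ⟨⟨⟨h1, h2⟩, h0⟩, h3⟩ := hp
    exact ⟨⟨h1, h3⟩, h2, h0 ▸ h3⟩

end OTree
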