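import Pool.Agent.Lib.MP_c11385_co.X.Av
import Pool.Agent.Lib.MP_c11385_co.X.LBasic
import Pool.Agent.Lib.MP_c11385_co.X.LSum
import Pool.Agent.Lib.MP_c11385_co.X.LSq
import Pool.Agent.Lib.MP_c11385_co.X.Child

set_option autoImplicit false

namespace OTree

open Finset

private theorem lch_all {N : ℕ} {Ξ κ : Type} (B : Fin N → Ξ → κ → Finset ℕ) (ord : Fin N × κ → ℕ)
    (I : Finset (Fin N × κ)) (W : Finset ℕ) (f : Fin N → Ξ) (c : Fin N) :
    L (BB B f) ord (I.filter (fun p => p.1 = c)) W ≤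
      L (B c (f c)) (fun x => ord (c, x)) (chI I c) W := by
  apply L_le_of_map Prod.snd (Finset.Subset.refl W)
  rintro ⟨i, x⟩ hp
  rw [mem_filter] at hp
  obtain ⟨hp, hi⟩ := hp
  have hi' : i = c := hi
  subst hi'
  exact ⟨(mem_chI I i x).2 hp, Finset.Subset.refl _, rfl⟩

private theorem lch_cell {N q : ℕ} {Ξ κ : Type} (B : Fin N → Ξ → κ → Finset ℕ)
    (ord : Fin N × κ → ℕ) (I : Finset (Fin N × κ)) (W : Finset ℕ) (seg : Fin N × κ → Fin q)
    (win : ℕ → Fin q) (f : Fin N → Ξ) (c : Fin N) (R : Fin q × Fin q) :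
    L (BB B f) ord (I.filter (fun p => p.1 = c ∧ seg p = R.1)) (W.filter (fun y => win y = R.2)) ≤
      L (B c (f c)) (fun x => ord (c, x)) ((chI I c).filter (fun x => seg (c, x) = R.1))
        (W.filter (fun y => win y = R.2)) := by
  apply L_le_of_map Prod.snd (Finset.Subset.refl _)
  rintro ⟨i, x⟩ hp
  rw [mem_filter] at hp
  obtain ⟨hp, hi, hs⟩ := hp
  have hi' : i = c := hi
  subst hi'
  exact ⟨mem_filter.2 ⟨(mem_chI I i x).2 hp, hs⟩, Finset.Subset.refl _, rfl⟩

theorem L_BB_le_sum {N : ℕ} {Ξ κ : Type} (B : Fin N → Ξ → κ → Finset ℕ) (ord : Fin N × κ → ℕ)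
    (I : Finset (Fin N × κ)) (W : Finset ℕ) (f : Fin N → Ξ) :
    (L (BB B f) ord I W : ℝ) ≤ ∑ i, XT B ord I W i (f i) := by
  classical
  have h1 : L (BB B f) ord I W ≤
      ∑ c, L (B c (f c)) (fun x => ord (c, x)) (chI I c) W :=
    (L_le_sum_ch (BB B f) ord I W Prod.fst).trans
      (Finset.sum_le_sum fun c _ => lch_all B ord I W f c)
  unfold XT
  exact_mod_cast h1

theorem L_BB_sq_le {N q : ℕ} {Ξ κ : Type} (B : Fin N → Ξ → κ → Finset ℕ) (ord : Fin N × κ → ℕ)
    (I : Finset (Fin N × κ)) (W : Finset ℕ) (seg : Fin N × κ → Fin q) (win : ℕ → Fin q)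
    (hseg : ∀ x x', ord x ≤ ord x' → seg x ≤ seg x') (hwin : Monotone win) (f : Fin N → Ξ) :
    (L (BB B f) ord I W : ℝ) ^ 2 ≤ (∑ i, ∑ i', if i ≠ i' then
        ∑ R : Fin q × Fin q, ∑ R' : Fin q × Fin q,
        if NonDisc R R' then XC B ord I W seg win i R (f i) * XC B ord I W seg win i' R' (f i')
        else 0 else 0) + ∑ i, (XT B ord I W i (f i)) ^ 2 := by
  classical
  have h1 : (L (BB B f) ord I W) ^ 2 ≤ (∑ i, ∑ i', if i ≠ i' then
        ∑ R : Fin q × Fin q, ∑ R' : Fin q × Fin q,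
        if NonDisc R R' then
          L (B i (f i)) (fun x => ord (i, x)) ((chI I i).filter (fun x => seg (i, x) = R.1))
            (W.filter (fun y => win y = R.2)) *
          L (B i' (f i')) (fun x => ord (i', x)) ((chI I i').filter (fun x => seg (i', x) = R'.1))
            (W.filter (fun y => win y = R'.2))
        else 0 else 0) + ∑ i, (L (B i (f i)) (fun x => ord (i, x)) (chI I i) W) ^ 2 := by
    refine (L_sq_le (BB B f) ord I W Prod.fst seg win hseg hwin).trans ?_
    refine Nat.add_le_add ?_ ?_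
    · refine Finset.sum_le_sum fun i _ => Finset.sum_le_sum fun i' _ => ?_
      by_cases h : i ≠ i'
      · rw [if_pos h, if_pos h]
        refine Finset.sum_le_sum fun R _ => Finset.sum_le_sum fun R' _ => ?_
        by_cases h' : NonDisc R R'
        · rw [if_pos h', if_pos h']
          exact Nat.mul_le_mul (lch_cell B ord I W seg win f i R) (lch_cell B ord I W seg win f i' R')
        · rw [if_neg h', if_neg h']
      · rw [if_neg h, if_neg h]
    · exact Finset.sum_le_sum fun i _ => Nat.pow_le_pow_left (lch_all B ord I W f i) 2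
  unfold XT XC
  exact_mod_cast h1

end OTree
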