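import Pool.Agent.Lib.MP_c11385_co.X.Av
import Pool.Agent.Lib.MP_c11385_co.X.LChild
import Pool.Agent.Lib.MP_c11385_co.X.Combine
import Pool.Agent.Lib.MP_c11385_co.X.GapTp

set_option autoImplicit false

namespace OTree

open Finset

theorem bad_regime {N : ℕ} (hN : (N : ℝ) ^ nu = 12) {Ξ κ : Type} [Fintype Ξ] [Nonempty Ξ]
    (B : Fin N → Ξ → κ → Finset ℕ) (m : Fin N → ℕ → ℝ) (hm0 : ∀ i y, 0 ≤ m i y)
    (κ' : ℝ) (hκ : 0 ≤ κ')
    (H : ∀ (i : Fin N) (o : κ → ℕ), Function.Injective o → ∀ (J : Finset κ) (W' : Finset ℕ),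
      av (fun ξ => (L (B i ξ) o J W' : ℝ) ^ (1 + nu)) ≤ κ' * J.card * Tp vp (m i) W')
    (ord : Fin N × κ → ℕ) (hord : Function.Injective ord) (I : Finset (Fin N × κ)) (W : Finset ℕ) :
    av (fun f => (L (BB B f) ord I W : ℝ) ^ (1 + nu))
      ≤ κ' * I.card * (12 * N * Tp vp (am m) W) := by
  have hN0 : N ≠ 0 := by
    rintro rfl
    rw [Nat.cast_zero, Real.zero_rpow (by unfold nu; norm_num)] at hN
    norm_num at hN
  have : NeZero N := ⟨hN0⟩
  have hnu : (0 : ℝ) ≤ 1 + nu := by unfold nu; norm_num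
  have hXT : ∀ i ξ, 0 ≤ XT B ord I W i ξ := fun i ξ => Nat.cast_nonneg _
  have h1 : ∀ f : Fin N → Ξ, (L (BB B f) ord I W : ℝ) ^ (1 + nu) ≤
      12 * ∑ i, XT B ord I W i (f i) ^ (1 + nu) := by
    intro f
    refine (Real.rpow_le_rpow (Nat.cast_nonneg _) (L_BB_le_sum B ord I W f) hnu).trans ?_
    rw [← hN]
    exact rpow_sum_le_card _ (fun i => hXT i (f i))
  refine (av_mono h1).trans ?_
  rw [av_mul_left, av_sum]
  have h2 : ∀ i : Fin N, av (fun f : Fin N → Ξ => XT B ord I W i (f i) ^ (1 + nu)) ≤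
      (κ' * (N * Tp vp (am m) W)) * (chI I i).card := by
    intro i
    rw [av_pi_single i (fun ξ => XT B ord I W i ξ ^ (1 + nu))]
    have h3 := H i (fun x => ord (i, x)) (fun x y hxy => (Prod.mk.inj (hord hxy)).2) (chI I i) W
    have h4 := Tp_le_mul N vp (by unfold vp th; norm_num) (by unfold vp th; norm_num) m hm0 i W
    refine h3.trans ?_
    have h5 : (0 : ℝ) ≤ κ' * (chI I i).card := mul_nonneg hκ (Nat.cast_nonneg _)
    calc κ' * (chI I i).card * Tp vp (m i) W ≤ κ' * (chI I i).card * (N * Tp vp (am m) W) :=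
          mul_le_mul_of_nonneg_left h4 h5
      _ = _ := by ring
  have h6 : ∑ i : Fin N, av (fun f : Fin N → Ξ => XT B ord I W i (f i) ^ (1 + nu)) ≤
      (κ' * (N * Tp vp (am m) W)) * I.card := by
    refine (Finset.sum_le_sum fun i _ => h2 i).trans ?_
    rw [← Finset.mul_sum]
    refine le_of_eq ?_
    congr 1
    exact_mod_cast sum_card_chI I
  calc (12 : ℝ) * ∑ i, av (fun f : Fin N → Ξ => XT B ord I W i (f i) ^ (1 + nu))
      ≤ 12 * ((κ' * (N * Tp vp (am m) W)) * I.card) := by linarith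
    _ = _ := by ring

end OTree
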