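import Pool.Agent.Lib.MP_c11385_co.X.Av

set_option autoImplicit false

namespace OTree

open Finset

theorem card_Lf (N : ℕ) : ∀ k, Fintype.card (Lf N k) = N ^ k := by
  intro k
  induction k with
  | zero => exact Fintype.card_unit
  | succ k ih =>
    have h : Fintype.card (Lf N (k + 1)) = Fintype.card (Fin N × Lf N k) := rfl
    rw [h, Fintype.card_prod, Fintype.card_fin, ih, pow_succ, mul_comm]

theorem card_Col (N R : ℕ) : ∀ k, Fintype.card (Col N R k) = (N ^ R) ^ k := by
  intro k
  induction k with
  | zero => exact Fintype.card_unit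
  | succ k ih =>
    have h : Fintype.card (Col N R (k + 1)) = Fintype.card (Dg N R × Col N R k) := rfl
    rw [h, Fintype.card_prod, ih, pow_succ (N ^ R) k, mul_comm]
    simp

end OTree
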