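import Pool.Agent.Lib.MP_c11385_co.X.Av

set_option autoImplicit false

namespace OTree

open Finset

theorem lnum_lt (N : ℕ) : ∀ (k : ℕ) (x : Lf N k), lnum N k x < N ^ k := by
  intro k
  induction k with
  | zero => intro x; simp [lnum]
  | succ k ih =>
    intro x
    have h1 : x.1.val + 1 ≤ N := x.1.isLt
    have h2 := ih x.2
    have h3 : (x.1.val + 1) * N ^ k ≤ N * N ^ k := Nat.mul_le_mul_right _ h1
    have h4 : lnum N (k + 1) x = x.1.val * N ^ k + lnum N k x.2 := rfl
    have h5 : (x.1.val + 1) * N ^ k = x.1.val * N ^ k + N ^ k := by ring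
    rw [h4, pow_succ N k, Nat.mul_comm (N ^ k) N]
    omega

theorem lnum_inj (N : ℕ) : ∀ k : ℕ, Function.Injective (lnum N k) := by
  intro k
  induction k with
  | zero => intro a b _; exact Subsingleton.elim (α := Unit) a b
  | succ k ih =>
    intro a b hab
    have h4 : lnum N (k + 1) a = a.1.val * N ^ k + lnum N k a.2 := rfl
    have h5 : lnum N (k + 1) b = b.1.val * N ^ k + lnum N k b.2 := rfl
    have ha := lnum_lt N k a.2
    have hb := lnum_lt N k b.2
    have hM : 0 < N ^ k := lt_of_le_of_lt (Nat.zero_le _) ha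
    rw [h4, h5] at hab
    have h1 : a.1.val = b.1.val := by
      have e1 : (a.1.val * N ^ k + lnum N k a.2) / N ^ k = a.1.val := by
        rw [Nat.add_comm, Nat.add_mul_div_right _ _ hM, Nat.div_eq_of_lt ha, Nat.zero_add]
      have e2 : (b.1.val * N ^ k + lnum N k b.2) / N ^ k = b.1.val := by
        rw [Nat.add_comm, Nat.add_mul_div_right _ _ hM, Nat.div_eq_of_lt hb, Nat.zero_add]
      rw [← e1, ← e2, hab]
    have h2 : lnum N k a.2 = lnum N k b.2 := by
      rw [h1] at hab
      exact Nat.add_left_cancel hab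
    have h6 : a.1 = b.1 := Fin.ext h1
    have h7 : a.2 = b.2 := ih h2
    exact Prod.ext h6 h7

theorem lnum_lf (N : ℕ) [NeZero N] : ∀ (k p : ℕ), p < N ^ k → lnum N k (lf N k p) = p := by
  intro k
  induction k with
  | zero => intro p hp; simp only [pow_zero, Nat.lt_one_iff] at hp; subst hp; rfl
  | succ k ih =>
    intro p hp
    have hN : 0 < N := Nat.pos_of_ne_zero (NeZero.ne N)
    have hM : 0 < N ^ k := Nat.pow_pos hN
    have h4 : lnum N (k + 1) (lf N (k + 1) p)
        = (Fin.ofNat N (p / N ^ k)).val * N ^ k + lnum N k (lf N k (p % N ^ k)) := rfl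
    have h5 : (Fin.ofNat N (p / N ^ k)).val = p / N ^ k := by
      have h6 : p / N ^ k < N := by
        apply Nat.div_lt_of_lt_mul
        rw [← pow_succ]; exact hp
      show (p / N ^ k) % N = p / N ^ k
      exact Nat.mod_eq_of_lt h6
    rw [h4, h5, ih _ (Nat.mod_lt _ hM)]
    exact Nat.div_add_mod' p (N ^ k)

end OTree
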