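import Pool.Agent.Lib.MP_c11385_co.X.Av
import Pool.Agent.Lib.MP_c11385_co.X.Lnum
import Pool.Agent.Lib.MP_c11385_co.X.CardCol

set_option autoImplicit false

namespace OTree

open Finset

/-- the order of the leaves of the left block `a` -/
noncomputable def ordB {h : ℕ} (N m : ℕ) (π : Fin h → Fin h) (a : ℕ) (x : Lf N m) : ℕ :=
  if hx : a * N ^ m + lnum N m x < h then (π ⟨a * N ^ m + lnum N m x, hx⟩).val
  else h + (a * N ^ m + lnum N m x)

open Classical in
/-- the leaves of the left block `a` with the partner in the right block `b` -/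
noncomputable def IB {h : ℕ} (N m w : ℕ) (π : Fin h → Fin h) (a b : ℕ) : Finset (Lf N m) :=
  Finset.univ.filter (fun x => ∃ hx : a * N ^ m + lnum N m x < h,
    (π ⟨a * N ^ m + lnum N m x, hx⟩).val / w = b)

theorem ordB_inj {h : ℕ} (N m : ℕ) (π : Fin h → Fin h) (hπ : Function.Injective π) (a : ℕ) :
    Function.Injective (ordB N m π a) := by
  intro x x' hxx
  unfold ordB at hxx
  split_ifs at hxx with h1 h2 h2
  · have h3 := hπ (Fin.ext hxx)
    have h4 : a * N ^ m + lnum N m x = a * N ^ m + lnum N m x' := by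
      simpa using congrArg Fin.val h3
    exact lnum_inj N m (by omega)
  · have := (π ⟨a * N ^ m + lnum N m x, h1⟩).isLt
    omega
  · have := (π ⟨a * N ^ m + lnum N m x', h2⟩).isLt
    omega
  · exact lnum_inj N m (by omega)

theorem card_IB_le {h : ℕ} (N m w : ℕ) (π : Fin h → Fin h) (a b : ℕ) :
    (IB N m w π a b).card ≤ N ^ m := by
  rw [← card_Lf N m]
  exact Finset.card_le_univ _

theorem sum_card_IB_le {h : ℕ} (N m w r : ℕ) [NeZero N] (hw : 0 < w) (π : Fin h → Fin h)
    (hπ : Function.Injective π) (b : ℕ) : ∑ a : Fin r, (IB N m w π a.val b).card ≤ w := by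
  classical
  rw [← Finset.card_sigma]
  have hmaps : ∀ p ∈ (Finset.univ : Finset (Fin r)).sigma (fun a => IB N m w π a.val b),
      (if hx : p.1.val * N ^ m + lnum N m p.2 < h then
        (π ⟨p.1.val * N ^ m + lnum N m p.2, hx⟩).val else 0) ∈ Finset.Ico (b * w) ((b + 1) * w) := by
    intro p hp
    rw [Finset.mem_sigma] at hp
    have h1 := hp.2
    unfold IB at h1
    rw [Finset.mem_filter] at h1
    obtain ⟨-, hx, h2⟩ := h1
    rw [dif_pos hx, Finset.mem_Ico]
    constructor
    · rw [← h2]; exact Nat.div_mul_le_self _ _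
    · rw [← h2]
      have := Nat.div_add_mod (π ⟨p.1.val * N ^ m + lnum N m p.2, hx⟩).val w
      have h3 := Nat.mod_lt (π ⟨p.1.val * N ^ m + lnum N m p.2, hx⟩).val hw
      nlinarith
  have hinj : Set.InjOn (fun p : (Σ _ : Fin r, Lf N m) =>
      (if hx : p.1.val * N ^ m + lnum N m p.2 < h then
        (π ⟨p.1.val * N ^ m + lnum N m p.2, hx⟩).val else 0))
      ((Finset.univ : Finset (Fin r)).sigma (fun a => IB N m w π a.val b)) := by
    intro p hp p' hp' hpp
    rw [Finset.mem_coe, Finset.mem_sigma] at hp hp'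
    have h1 := hp.2
    have h1' := hp'.2
    unfold IB at h1 h1'
    rw [Finset.mem_filter] at h1 h1'
    obtain ⟨-, hx, h2⟩ := h1
    obtain ⟨-, hx', h2'⟩ := h1'
    simp only at hpp
    rw [dif_pos hx, dif_pos hx'] at hpp
    have h3 := hπ (Fin.ext hpp)
    have h4 : p.1.val * N ^ m + lnum N m p.2 = p'.1.val * N ^ m + lnum N m p'.2 := by
      simpa using congrArg Fin.val h3
    have l1 := lnum_lt N m p.2
    have l2 := lnum_lt N m p'.2
    have hpos : 0 < N ^ m := Nat.pow_pos (Nat.pos_of_ne_zero (NeZero.ne N))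
    have e1 : p.1.val = p'.1.val := by
      have d1 : (p.1.val * N ^ m + lnum N m p.2) / N ^ m = p.1.val := by
        rw [mul_comm, Nat.mul_add_div hpos, Nat.div_eq_of_lt l1, add_zero]
      have d2 : (p'.1.val * N ^ m + lnum N m p'.2) / N ^ m = p'.1.val := by
        rw [mul_comm, Nat.mul_add_div hpos, Nat.div_eq_of_lt l2, add_zero]
      rw [← d1, ← d2, h4]
    have e2 : lnum N m p.2 = lnum N m p'.2 := by
      rw [e1] at h4
      omega
    have e3 := lnum_inj N m e2
    obtain ⟨p1, p2⟩ := p
    obtain ⟨q1, q2⟩ := p'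
    simp only at e1 e3
    have e4 : p1 = q1 := Fin.ext e1
    subst e4
    subst e3
    rfl
  calc _ ≤ (Finset.Ico (b * w) ((b + 1) * w)).card :=
        Finset.card_le_card_of_injOn _ hmaps hinj
    _ = w := by
        rw [Nat.card_Ico]
        have : (b + 1) * w = b * w + w := by ring
        omega

end OTree
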