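import Pool.Agent.Lib.MP_c11385_co.X.Av

set_option autoImplicit false

namespace OTree

open Finset

theorem dnum_lt (N R : ℕ) (d : Dg N R) : dnum N R d < N ^ R := by
  induction R with
  | zero => simp [dnum]
  | succ R ih =>
    have h1 := ih (fun j => d j.succ)
    have h2 := (d 0).isLt
    simp only [dnum]
    have h3 : ((d 0).val + 1) * N ^ R ≤ N * N ^ R := Nat.mul_le_mul_right _ h2
    rw [pow_succ']
    calc (d 0).val * N ^ R + dnum N R (fun j => d j.succ) < (d 0).val * N ^ R + N ^ R := by omega
      _ = ((d 0).val + 1) * N ^ R := by ring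
      _ ≤ N * N ^ R := h3

theorem dnum_lex (N R : ℕ) (d d' : Dg N R) (s : Fin R) (h : ∀ j, j < s → d j = d' j)
    (hs : d s < d' s) : dnum N R d < dnum N R d' := by
  induction R with
  | zero => exact s.elim0
  | succ R ih =>
    simp only [dnum]
    rcases Fin.eq_zero_or_eq_succ s with h0 | ⟨s', rfl⟩
    · subst h0
      have h1 := dnum_lt N R (fun j => d j.succ)
      have h2 : ((d 0).val + 1) * N ^ R ≤ (d' 0).val * N ^ R := Nat.mul_le_mul_right _ hs
      calc (d 0).val * N ^ R + dnum N R (fun j => d j.succ) < (d 0).val * N ^ R + N ^ R := by omega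
        _ = ((d 0).val + 1) * N ^ R := by ring
        _ ≤ (d' 0).val * N ^ R := h2
        _ ≤ _ := Nat.le_add_right _ _
    · have h1 : d 0 = d' 0 := h 0 (Fin.succ_pos s')
      have h2 := ih (fun j => d j.succ) (fun j => d' j.succ) s'
        (fun j hj => h j.succ (Fin.succ_lt_succ_iff.mpr hj)) hs
      rw [h1]
      omega

theorem dnum_inj (N R : ℕ) : Function.Injective (dnum N R) := by
  induction R with
  | zero =>
    intro d d' _
    funext j
    exact j.elim0
  | succ R ih =>
    intro d d' h
    simp only [dnum] at h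
    have h1 := dnum_lt N R (fun j => d j.succ)
    have h2 := dnum_lt N R (fun j => d' j.succ)
    have h3 : (d 0).val = (d' 0).val := by
      have e1 : ((d 0).val * N ^ R + dnum N R (fun j => d j.succ)) / N ^ R = (d 0).val := by
        rw [mul_comm, Nat.mul_add_div (by omega), Nat.div_eq_of_lt h1, add_zero]
      have e2 : ((d' 0).val * N ^ R + dnum N R (fun j => d' j.succ)) / N ^ R = (d' 0).val := by
        rw [mul_comm, Nat.mul_add_div (by omega), Nat.div_eq_of_lt h2, add_zero]
      rw [← e1, ← e2, h]
    rw [h3] at h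
    have h4 := ih (Nat.add_left_cancel h)
    funext j
    rcases Fin.eq_zero_or_eq_succ j with h0 | ⟨j', rfl⟩
    · rw [h0]
      exact Fin.ext h3
    · exact congrFun h4 j'

end OTree
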