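import Pool.Agent.Lib.MP_c11385_co.X.Av
import Pool.Agent.Lib.MP_c11385_co.X.Dnum

set_option autoImplicit false

namespace OTree

open Finset

theorem cnum_lt (N R : ℕ) : ∀ (k : ℕ) (c : Col N R k), cnum N R k c < (N ^ R) ^ k := by
  intro k
  induction k with
  | zero => intro c; simp [cnum]
  | succ k ih =>
    intro c
    have h1 : dnum N R c.1 + 1 ≤ N ^ R := dnum_lt N R c.1
    have h2 := ih c.2
    have h3 : (dnum N R c.1 + 1) * (N ^ R) ^ k ≤ N ^ R * (N ^ R) ^ k := Nat.mul_le_mul_right _ h1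
    have h4 : cnum N R (k + 1) c = dnum N R c.1 * (N ^ R) ^ k + cnum N R k c.2 := rfl
    rw [h4, pow_succ (N ^ R) k, Nat.mul_comm ((N ^ R) ^ k) (N ^ R)]
    have h5 : (dnum N R c.1 + 1) * (N ^ R) ^ k = dnum N R c.1 * (N ^ R) ^ k + (N ^ R) ^ k := by ring
    omega

theorem cnum_inj (N R : ℕ) : ∀ k : ℕ, Function.Injective (cnum N R k) := by
  intro k
  induction k with
  | zero => intro a b _; exact Subsingleton.elim (α := Unit) a b
  | succ k ih =>
    intro a b hab
    have h4 : cnum N R (k + 1) a = dnum N R a.1 * (N ^ R) ^ k + cnum N R k a.2 := rfl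
    have h5 : cnum N R (k + 1) b = dnum N R b.1 * (N ^ R) ^ k + cnum N R k b.2 := rfl
    have ha := cnum_lt N R k a.2
    have hb := cnum_lt N R k b.2
    have hM : 0 < (N ^ R) ^ k := lt_of_le_of_lt (Nat.zero_le _) ha
    rw [h4, h5] at hab
    have h1 : dnum N R a.1 = dnum N R b.1 := by
      have e1 : (dnum N R a.1 * (N ^ R) ^ k + cnum N R k a.2) / (N ^ R) ^ k = dnum N R a.1 := by
        rw [Nat.add_comm, Nat.add_mul_div_right _ _ hM, Nat.div_eq_of_lt ha, Nat.zero_add]
      have e2 : (dnum N R b.1 * (N ^ R) ^ k + cnum N R k b.2) / (N ^ R) ^ k = dnum N R b.1 := by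
        rw [Nat.add_comm, Nat.add_mul_div_right _ _ hM, Nat.div_eq_of_lt hb, Nat.zero_add]
      rw [← e1, ← e2, hab]
    have h2 : cnum N R k a.2 = cnum N R k b.2 := by
      rw [h1] at hab
      exact Nat.add_left_cancel hab
    have h6 : a.1 = b.1 := dnum_inj N R h1
    have h7 : a.2 = b.2 := ih h2
    exact Prod.ext h6 h7

end OTree
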