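import Pool.Agent.Lib.MP_c11385_co.X.Av
import Pool.Agent.Lib.MP_c11385_co.X.Cnum
import Pool.Agent.Lib.MP_c11385_co.X.Lnum

set_option autoImplicit false

namespace OTree

open Finset

theorem pl_mono (N R : ℕ) : ∀ (k : ℕ) (ω : Om N R k) (x x' : Lf N k), lnum N k x < lnum N k x' →
    cnum N R k (pl N R k ω x) < cnum N R k (pl N R k ω x') := by
  intro k
  induction k with
  | zero =>
    intro ω x x' h
    exact absurd h (lt_irrefl _)
  | succ k ih =>
    intro ω x x' h
    obtain ⟨i, z⟩ := x
    obtain ⟨i', z'⟩ := x'
    obtain ⟨⟨s, u⟩, g⟩ := ω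
    have h' : i.val * N ^ k + lnum N k z < i'.val * N ^ k + lnum N k z' := h
    have hz := lnum_lt N k z
    have hz' := lnum_lt N k z'
    change dnum N R (dig s u i (g i).1) * (N ^ R) ^ k + cnum N R k (pl N R k (g i).2 z) <
      dnum N R (dig s u i' (g i').1) * (N ^ R) ^ k + cnum N R k (pl N R k (g i').2 z')
    have hle : i.val ≤ i'.val := by
      by_contra hcon
      push Not at hcon
      have h1 : (i'.val + 1) * N ^ k ≤ i.val * N ^ k := Nat.mul_le_mul_right _ hcon
      rw [add_mul, one_mul] at h1
      omega
    rcases lt_or_eq_of_le hle with h1 | h1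
    · have h2 : dnum N R (dig s u i (g i).1) < dnum N R (dig s u i' (g i').1) := by
        apply dnum_lex N R _ _ s
        · intro j hj
          simp only [dig, hj, if_true]
        · simp only [dig, lt_irrefl, if_false, if_true]
          exact h1
      have h3 := cnum_lt N R k (pl N R k (g i).2 z)
      have h4 : (dnum N R (dig s u i (g i).1) + 1) * (N ^ R) ^ k ≤
          dnum N R (dig s u i' (g i').1) * (N ^ R) ^ k := Nat.mul_le_mul_right _ h2
      rw [add_mul, one_mul] at h4
      omega
    · have h2 : i = i' := Fin.ext h1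
      subst h2
      have h3 := ih (g i).2 z z' (by omega)
      omega

end OTree
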