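import Pool.Agent.Lib.MP_c11385_co.X.Av
import Pool.Agent.Lib.MP_c11385_co.X.PlMono

set_option autoImplicit false

namespace OTree

open Finset

/-- the position of the left point `p` -/
noncomputable def fL (N R m : ℕ) [NeZero N] (ω : ℕ → Om N R m) (p : ℕ) : ℕ :=
  p / N ^ m * (N ^ R) ^ m + cnum N R m (pl N R m (ω (p / N ^ m)) (lf N m (p % N ^ m)))

theorem fL_lt (N R m : ℕ) [NeZero N] (ω : ℕ → Om N R m) (p : ℕ) :
    fL N R m ω p < (p / N ^ m + 1) * (N ^ R) ^ m := by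
  unfold fL
  have h := cnum_lt N R m (pl N R m (ω (p / N ^ m)) (lf N m (p % N ^ m)))
  have h5 : (p / N ^ m + 1) * (N ^ R) ^ m = p / N ^ m * (N ^ R) ^ m + (N ^ R) ^ m := by ring
  omega

theorem fL_mono (N R m : ℕ) [NeZero N] (ω : ℕ → Om N R m) : StrictMono (fL N R m ω) := by
  intro p p' hpp
  have hN : 0 < N := Nat.pos_of_ne_zero (NeZero.ne N)
  have hM : 0 < N ^ m := Nat.pow_pos hN
  rcases Nat.lt_or_eq_of_le (Nat.div_le_div_right (c := N ^ m) hpp.le) with h | h
  · have h1 := fL_lt N R m ω p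
    have h2 : (p / N ^ m + 1) * (N ^ R) ^ m ≤ p' / N ^ m * (N ^ R) ^ m := Nat.mul_le_mul_right _ h
    have h3 : p' / N ^ m * (N ^ R) ^ m ≤ fL N R m ω p' := by unfold fL; exact Nat.le_add_right _ _
    exact lt_of_lt_of_le h1 (h2.trans h3)
  · have h1 : p % N ^ m < p' % N ^ m := by
      have e1 := Nat.div_add_mod' p (N ^ m)
      have e2 := Nat.div_add_mod' p' (N ^ m)
      rw [h] at e1
      omega
    have h2 : lnum N m (lf N m (p % N ^ m)) < lnum N m (lf N m (p' % N ^ m)) := by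
      rw [lnum_lf N m _ (Nat.mod_lt _ hM), lnum_lf N m _ (Nat.mod_lt _ hM)]
      exact h1
    have h3 := pl_mono N R m (ω (p / N ^ m)) _ _ h2
    unfold fL
    rw [← h]
    exact Nat.add_lt_add_left h3 _

end OTree
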