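import Pool.Agent.Lib.MP_c11385_co.X.Av
import Pool.Agent.Lib.MP_c11385_co.X.FL
import Pool.Agent.Lib.MP_c11385_co.X.Blocks
import Pool.Agent.Lib.MP_c11385_co.X.LSum

set_option autoImplicit false

namespace OTree

open Finset

theorem block_L {N R m h w r : ℕ} [NeZero N] (π : Fin h → Fin h)
    (Γ : ℕ → Finset ℕ) (ω : ℕ → Om N R m) (b : ℕ) (W : Finset ℕ)
    (hr : ∀ p, p < h → p / N ^ m < r) :
    L (fun p : Fin h => Γ (fL N R m ω p.val)) (fun p => (π p).val)
      (Finset.univ.filter (fun p : Fin h => (π p).val / w = b)) W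
    ≤ ∑ a : Fin r, L (fun x : Lf N m => Γ (a.val * (N ^ R) ^ m + cnum N R m (pl N R m (ω a.val) x)))
        (ordB N m π a.val) (IB N m w π a.val b) W := by
  classical
  have hNm : 0 < N ^ m := Nat.pow_pos (Nat.pos_of_ne_zero (NeZero.ne N))
  refine (L_le_sum_ch _ _ _ _ (fun p : Fin h => (⟨p.val / N ^ m, hr p.val p.isLt⟩ : Fin r))).trans ?_
  refine Finset.sum_le_sum fun a _ => ?_
  refine L_le_of_map (fun p : Fin h => lf N m (p.val % N ^ m)) (Finset.Subset.refl W) fun p hp => ?_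
  rw [Finset.mem_filter, Finset.mem_filter] at hp
  obtain ⟨⟨-, hb⟩, ha⟩ := hp
  have ha' : p.val / N ^ m = a.val := by
    have := congrArg Fin.val ha
    exact this
  have key : a.val * N ^ m + lnum N m (lf N m (p.val % N ^ m)) = p.val := by
    rw [lnum_lf N m _ (Nat.mod_lt _ hNm), ← ha']
    exact Nat.div_add_mod' _ _
  have hlt : a.val * N ^ m + lnum N m (lf N m (p.val % N ^ m)) < h := by
    rw [key]; exact p.isLt
  have hFin : (⟨a.val * N ^ m + lnum N m (lf N m (p.val % N ^ m)), hlt⟩ : Fin h) = p :=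
    Fin.ext key
  refine ⟨?_, ?_, ?_⟩
  · unfold IB
    rw [Finset.mem_filter]
    refine ⟨Finset.mem_univ _, hlt, ?_⟩
    rw [hFin]; exact hb
  · have : fL N R m ω p.val = a.val * (N ^ R) ^ m +
        cnum N R m (pl N R m (ω a.val) (lf N m (p.val % N ^ m))) := by
      unfold fL
      rw [ha']
    rw [this]
  · unfold ordB
    rw [dif_pos hlt, hFin]

end OTree
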