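import Pool.Agent.Lib.MP_c11385_co.X.Av

set_option autoImplicit false

namespace OTree

open Finset

theorem av_update {N R : ℕ} (s : Fin R) (h : Dg N R → ℝ) :
    av h = av (fun i : Fin N => av (fun w : Dg N R => h (Function.update w s i))) := by
  rcases Nat.eq_zero_or_pos N with hN | hN
  · subst hN
    have hE : IsEmpty (Dg 0 R) := ⟨fun w => (w s).elim0⟩
    unfold av
    simp
  · have : NeZero N := ⟨hN.ne'⟩
    let e : Fin N × Dg N R ≃ Fin N × Dg N R :=
      { toFun := fun p => (p.2 s, Function.update p.2 s p.1)
        invFun := fun p => (p.2 s, Function.update p.2 s p.1)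
        left_inv := fun p => by
          ext1
          · simp
          · simp
        right_inv := fun p => by
          ext1
          · simp
          · simp }
    have h1 : av (fun i : Fin N => av (fun w : Dg N R => h (Function.update w s i))) =
        av (fun p : Fin N × Dg N R => h (Function.update p.2 s p.1)) :=
      (av_prod (fun p : Fin N × Dg N R => h (Function.update p.2 s p.1))).symm
    have h2 : av (fun p : Fin N × Dg N R => h (Function.update p.2 s p.1)) =
        av (fun p : Fin N × Dg N R => h p.2) := av_equiv e (fun p => h p.2)
    rw [h1, h2, av_prod]
    exact (av_const (Ω := Fin N) (av h)).symm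

end OTree
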