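import Pool.Agent.Lib.MP_c11385_co.X.Av
import Pool.Agent.Lib.MP_c11385_co.X.Update

set_option autoImplicit false

namespace OTree

open Finset

theorem av_pmi {N R : ℕ} [NeZero N] (φ : Dg N R → ℝ) (s : Fin R) (u : Dg N R) :
    av (pmi φ s u) = pm φ s.val u := by
  unfold pm
  rw [av_update s (fun w => φ (mix s.val u w))]
  unfold pmi
  congr 1
  funext i
  congr 1
  funext w
  congr 1
  funext j
  unfold dig mix
  by_cases h1 : j < s
  · rw [if_pos h1, if_pos (show j.val < s.val from h1)]
  · rw [if_neg h1, if_neg (show ¬ j.val < s.val from h1)]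
    by_cases h2 : j = s
    · rw [if_pos h2, h2, Function.update_self]
    · rw [if_neg h2, Function.update_of_ne h2]

theorem av_av_pmi {N R : ℕ} [NeZero N] (φ : Dg N R → ℝ) (s : Fin R) (F : ℝ → ℝ) :
    av (fun u => av (fun i => F (pmi φ s u i))) = av (fun u => F (pm φ (s.val + 1) u)) := by
  rw [av_update s (fun u => F (pm φ (s.val + 1) u)), av_comm]
  congr 1
  funext i
  congr 1
  funext u
  congr 1
  unfold pmi pm
  congr 1
  funext w
  congr 1
  funext j
  unfold dig mix
  by_cases h1 : j < s
  · have h3 : j.val < s.val := h1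
    rw [if_pos h1, if_pos (by omega), Function.update_of_ne (ne_of_lt h1)]
  · rw [if_neg h1]
    by_cases h2 : j = s
    · rw [if_pos h2, h2, if_pos (by omega), Function.update_self]
    · have h3 : ¬ j.val < s.val := h1
      have h4 : j.val ≠ s.val := fun h => h2 (Fin.ext h)
      rw [if_neg h2, if_neg (by omega)]

theorem pm_zero {N R : ℕ} [NeZero N] (φ : Dg N R → ℝ) (u : Dg N R) : pm φ 0 u = av φ := by
  unfold pm
  congr 1

end OTree
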