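import Pool.Agent.Lib.MP_c11385_co.X.Av
import Pool.Agent.Lib.MP_c11385_co.X.Prefix

set_option autoImplicit false

namespace OTree

open Finset

private theorem pm_nn {N R : ℕ} (φ : Dg N R → ℝ) (hφ : ∀ d, 0 ≤ φ d) (t : ℕ) (u : Dg N R) :
    0 ≤ pm φ t u := av_nonneg fun _ => hφ _

private theorem pmi_nn {N R : ℕ} (φ : Dg N R → ℝ) (hφ : ∀ d, 0 ≤ φ d) (s : Fin R) (u : Dg N R)
    (i : Fin N) : 0 ≤ pmi φ s u i := av_nonneg fun _ => hφ _

private theorem G_step {N R : ℕ} [NeZero N] (φ : Dg N R → ℝ) (hφ : ∀ d, 0 ≤ φ d) (p : ℝ)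
    (hp0 : 0 < p) (hp1 : p ≤ 1) (s : Fin R) :
    av (fun u => (pm φ (s.val + 1) u) ^ p) ≤ av (fun u => (pm φ s.val u) ^ p) := by
  rw [← av_av_pmi φ s (fun x => x ^ p)]
  refine av_mono fun u => ?_
  rw [← av_pmi φ s u]
  exact av_rpow_le (fun i => pmi_nn φ hφ s u i) hp0.le hp1

private theorem G_zero {N R : ℕ} [NeZero N] (φ : Dg N R → ℝ) (p : ℝ) :
    av (fun u => (pm φ 0 u) ^ p) = (av φ) ^ p := by
  simp_rw [pm_zero]
  exact av_const _

private theorem G_le {N R : ℕ} [NeZero N] (φ : Dg N R → ℝ) (hφ : ∀ d, 0 ≤ φ d) (p : ℝ)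
    (hp0 : 0 < p) (hp1 : p ≤ 1) (t : ℕ) (ht : t ≤ R) :
    av (fun u => (pm φ t u) ^ p) ≤ (av φ) ^ p := by
  induction t with
  | zero => exact (G_zero φ p).le
  | succ n ih => exact (G_step φ hφ p hp0 hp1 ⟨n, by omega⟩).trans (ih (by omega))

theorem main_avg {N R : ℕ} [NeZero N] [NeZero R] (φ : Dg N R → ℝ) (hφ : ∀ d, 0 ≤ φ d) (p : ℝ)
    (hp0 : 0 < p) (hp1 : p ≤ 1) :
    av (fun su : Fin R × Dg N R => (pm φ su.1.val su.2) ^ p) ≤ (av φ) ^ p := by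
  rw [av_prod]
  exact av_le_of_le fun s => G_le φ hφ p hp0 hp1 s.val s.isLt.le

theorem gap_avg {N R : ℕ} [NeZero N] [NeZero R] (φ : Dg N R → ℝ) (hφ : ∀ d, 0 ≤ φ d) (p : ℝ)
    (hp0 : 0 < p) (hp1 : p ≤ 1) :
    av (fun su : Fin R × Dg N R => (pm φ su.1.val su.2) ^ p - av (fun i => (pmi φ su.1 su.2 i) ^ p))
      ≤ (av φ) ^ p / R := by
  rw [av_prod]
  have h1 : ∀ s : Fin R, av (fun u : Dg N R => (pm φ s.val u) ^ p - av (fun i => (pmi φ s u i) ^ p)) =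
      av (fun u => (pm φ s.val u) ^ p) - av (fun u => (pm φ (s.val + 1) u) ^ p) := by
    intro s
    rw [av_sub, av_av_pmi φ s (fun x => x ^ p)]
  simp_rw [h1]
  unfold av
  rw [Fintype.card_fin]
  refine div_le_div_of_nonneg_right ?_ (by positivity)
  have h2 := Fin.sum_univ_eq_sum_range (fun t =>
    av (fun u : Dg N R => (pm φ t u) ^ p) - av (fun u => (pm φ (t + 1) u) ^ p)) R
  have h3 := Finset.sum_range_sub' (fun t => av (fun u : Dg N R => (pm φ t u) ^ p)) R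
  have h4 : 0 ≤ av (fun u : Dg N R => (pm φ R u) ^ p) :=
    av_nonneg fun u => Real.rpow_nonneg (pm_nn φ hφ R u) p
  have h5 := G_zero φ p
  calc _ = ∑ t ∈ Finset.range R, (av (fun u : Dg N R => (pm φ t u) ^ p) -
        av (fun u => (pm φ (t + 1) u) ^ p)) := h2
    _ = av (fun u : Dg N R => (pm φ 0 u) ^ p) - av (fun u : Dg N R => (pm φ R u) ^ p) := h3
    _ ≤ (av φ) ^ p := by rw [h5]; linarith

end OTree
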