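import Pool.Agent.Lib.MP_c11385_co.X.Av
import Pool.Agent.Lib.MP_c11385_co.X.GapAvg
import Pool.Agent.Lib.MP_c11385_co.X.Prefix

set_option autoImplicit false

namespace OTree

open Finset

/-- the mass functions of the children, given `s` and `u` -/
noncomputable def cm {N R k : ℕ} (Γ : Col N R (k + 1) → Finset ℕ) (s : Fin R) (u : Dg N R)
    (i : Fin N) (y : ℕ) : ℝ := pmi (fun d => mu (fun c : Col N R k => Γ (d, c)) y) s u i

theorem mtp_mu_nonneg {C : Type} [Fintype C] (Γ : C → Finset ℕ) (y : ℕ) : 0 ≤ mu Γ y := by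
  refine av_nonneg fun x => ?_
  split_ifs <;> norm_num

theorem mtp_mu_le_one {C : Type} [Fintype C] [Nonempty C] (Γ : C → Finset ℕ) (y : ℕ) :
    mu Γ y ≤ 1 := by
  refine av_le_of_le fun x => ?_
  split_ifs <;> norm_num

theorem cm_nonneg {N R k : ℕ} (Γ : Col N R (k + 1) → Finset ℕ) (s : Fin R) (u : Dg N R)
    (i : Fin N) (y : ℕ) : 0 ≤ cm Γ s u i y :=
  av_nonneg fun _ => mtp_mu_nonneg _ _

theorem cm_le_one {N R k : ℕ} [NeZero N] (Γ : Col N R (k + 1) → Finset ℕ) (s : Fin R) (u : Dg N R)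
    (i : Fin N) (y : ℕ) : cm Γ s u i y ≤ 1 :=
  av_le_of_le fun _ => mtp_mu_le_one _ _

theorem mtp_am {N R k : ℕ} [NeZero N] (Γ : Col N R (k + 1) → Finset ℕ) (s : Fin R) (u : Dg N R)
    (y : ℕ) : am (cm Γ s u) y = pm (fun d => mu (fun c : Col N R k => Γ (d, c)) y) s.val u :=
  av_pmi (fun d => mu (fun c : Col N R k => Γ (d, c)) y) s u

theorem mtp_mu {N R k : ℕ} (Γ : Col N R (k + 1) → Finset ℕ) (y : ℕ) :
    mu Γ y = av (fun d : Dg N R => mu (fun c : Col N R k => Γ (d, c)) y) :=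
  av_prod (Ω := Dg N R) (Ω' := Col N R k) (fun x => if y ∈ Γ x then (1 : ℝ) else 0)

theorem main_avg_Tp {N R k : ℕ} [NeZero N] [NeZero R] (Γ : Col N R (k + 1) → Finset ℕ)
    (W : Finset ℕ) : av (fun su : Fin R × Dg N R => Tp vp (am (cm Γ su.1 su.2)) W)
      ≤ Tp vp (mu Γ) W := by
  unfold Tp
  rw [av_sum]
  refine Finset.sum_le_sum fun y _ => ?_
  have h := main_avg (fun d => mu (fun c : Col N R k => Γ (d, c)) y)
    (fun d => mtp_mu_nonneg _ _) vp (by unfold vp th; norm_num) (by unfold vp th; norm_num)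
  rw [mtp_mu]
  simp only [mtp_am]
  exact h

theorem gap_avg_Tp {N R k : ℕ} [NeZero N] [NeZero R] (Γ : Col N R (k + 1) → Finset ℕ)
    (W : Finset ℕ) : av (fun su : Fin R × Dg N R => Tp vp (am (cm Γ su.1 su.2)) W
        - av (fun i => Tp vp (cm Γ su.1 su.2 i) W)) ≤ Tp vp (mu Γ) W / R := by
  have h0 : (fun su : Fin R × Dg N R => Tp vp (am (cm Γ su.1 su.2)) W
        - av (fun i => Tp vp (cm Γ su.1 su.2 i) W)) = fun su =>
        ∑ y ∈ W, (pm (fun d => mu (fun c : Col N R k => Γ (d, c)) y) su.1.val su.2 ^ vp -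
          av (fun i => pmi (fun d => mu (fun c : Col N R k => Γ (d, c)) y) su.1 su.2 i ^ vp)) := by
    funext su
    rw [Finset.sum_sub_distrib]
    congr 1
    · unfold Tp
      refine Finset.sum_congr rfl fun y _ => ?_
      rw [mtp_am]
    · unfold Tp
      rw [av_sum]
      rfl
  rw [h0, av_sum]
  unfold Tp
  rw [Finset.sum_div]
  refine Finset.sum_le_sum fun y _ => ?_
  have h := gap_avg (fun d => mu (fun c : Col N R k => Γ (d, c)) y)
    (fun d => mtp_mu_nonneg _ _) vp (by unfold vp th; norm_num) (by unfold vp th; norm_num)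
  rw [mtp_mu]
  exact h

end OTree
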