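import Pool.Agent.Lib.MP_c11385_co.X.Av
import Pool.Agent.Lib.MP_c11385_co.X.MassTp

set_option autoImplicit false

namespace OTree

open Finset

/-- the average over the digits `w` of a child -/
theorem child_avg {N R k : ℕ} [NeZero N] (Γ : Col N R (k + 1) → Finset ℕ) (s : Fin R)
    (u : Dg N R) (i : Fin N) (W : Finset ℕ) :
    av (fun w : Dg N R => Tp vp (mu (fun c : Col N R k => Γ (dig s u i w, c))) W)
      ≤ Tp vp (cm Γ s u i) W := by
  have hvp0 : (0 : ℝ) ≤ vp := by unfold vp th; norm_num
  have hvp1 : vp ≤ 1 := by unfold vp th; norm_num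
  unfold Tp
  rw [av_sum]
  refine Finset.sum_le_sum fun y _ => ?_
  exact av_rpow_le (f := fun w : Dg N R => mu (fun c : Col N R k => Γ (dig s u i w, c)) y)
    (fun w => av_nonneg fun c => by split_ifs <;> norm_num) hvp0 hvp1

end OTree
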