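import Pool.Agent.Lib.MP_c11385_co.X.Av

set_option autoImplicit false

namespace OTree

open Finset

/-- unfolding the average over the randomness -/
theorem av_Om_succ {N R k : ℕ} (F : Om N R (k + 1) → ℝ) :
    av F = av (fun su : Fin R × Dg N R => av (fun f : Fin N → Dg N R × Om N R k => F (su, f))) := by
  exact av_prod (fun p : (Fin R × Dg N R) × (Fin N → Dg N R × Om N R k) => F p)

theorem L_pl_succ {N R k : ℕ} (Γ : Col N R (k + 1) → Finset ℕ) (su : Fin R × Dg N R)
    (f : Fin N → Dg N R × Om N R k) (ord : Lf N (k + 1) → ℕ) (I : Finset (Lf N (k + 1)))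
    (W : Finset ℕ) :
    L (fun x => Γ (pl N R (k + 1) (su, f) x)) ord I W
      = L (BB (fun i (ξ : Dg N R × Om N R k) (x : Lf N k) =>
        Γ (dig su.1 su.2 i ξ.1, pl N R k ξ.2 x)) f) ord I W := by
  rfl

end OTree
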