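import Pool.Agent.Lib.MP_c11385_co.X.Av
import Pool.Agent.Lib.MP_c11385_co.X.PlSucc
import Pool.Agent.Lib.MP_c11385_co.X.LChild
import Pool.Agent.Lib.MP_c11385_co.X.AvPi
import Pool.Agent.Lib.MP_c11385_co.X.GapTp
import Pool.Agent.Lib.MP_c11385_co.X.MassTp
import Pool.Agent.Lib.MP_c11385_co.X.ChildAvg

set_option autoImplicit false

namespace OTree

open Finset

private theorem cb1_vp_pos : (0 : ℝ) < vp := by unfold vp th; norm_num

private theorem cb1_vp_lt : vp < 1 := by unfold vp th; norm_num

theorem cb1 (N R : ℕ) [NeZero N] [NeZero R] : ∀ (k : ℕ) (Γ : Col N R k → Finset ℕ)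
    (ord : Lf N k → ℕ) (I : Finset (Lf N k)) (W : Finset ℕ),
    av (fun ω => (L (fun x => Γ (pl N R k ω x)) ord I W : ℝ))
      ≤ (N : ℝ) ^ k * I.card * Tp vp (mu Γ) W := by
  intro k
  induction k with
  | zero =>
    intro Γ ord I W
    refine av_le_of_le (fun ω => ?_)
    have h1 := L_le_sum_card (fun x => Γ (pl N R 0 ω x)) ord I W
    have h2 : ∀ x ∈ I, ((Γ (pl N R 0 ω x)) ∩ W).card = ((Γ ((() : Unit) : Col N R 0)) ∩ W).card :=
      fun x _ => rfl
    rw [Finset.sum_congr rfl h2, Finset.sum_const, smul_eq_mul] at h1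
    have h3 : Tp vp (mu Γ) W = (((Γ ((() : Unit) : Col N R 0)) ∩ W).card : ℝ) := by
      unfold Tp
      have h4 : ∀ y ∈ W, (mu Γ y) ^ vp = if y ∈ Γ ((() : Unit) : Col N R 0) then (1 : ℝ) else 0 := by
        intro y _
        have h5 : mu Γ y = if y ∈ Γ ((() : Unit) : Col N R 0) then (1 : ℝ) else 0 := by
          unfold mu
          have h6 : (fun x : Col N R 0 => if y ∈ Γ x then (1 : ℝ) else 0) =
              fun _ : Col N R 0 => if y ∈ Γ ((() : Unit) : Col N R 0) then (1 : ℝ) else 0 := by
            funext x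
            rfl
          rw [h6, av_const]
        rw [h5]
        split_ifs with h
        · exact Real.one_rpow _
        · exact Real.zero_rpow cb1_vp_pos.ne'
      rw [Finset.sum_congr rfl h4, ← Finset.sum_filter, Finset.sum_const, nsmul_eq_mul, mul_one]
      congr 2
      ext y
      simp [and_comm]
    rw [h3, pow_zero, one_mul]
    exact_mod_cast h1
  | succ k ih =>
    intro Γ ord I W
    have hv0 := cb1_vp_pos
    have hv1 := cb1_vp_lt
    rw [av_Om_succ]
    have hstep : ∀ su : Fin R × Dg N R,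
        av (fun f : Fin N → Dg N R × Om N R k =>
          (L (fun x => Γ (pl N R (k + 1) (su, f) x)) ord I W : ℝ)) ≤
        (N : ℝ) ^ (k + 1) * I.card * Tp vp (am (cm Γ su.1 su.2)) W := by
      intro su
      have h1 : av (fun f : Fin N → Dg N R × Om N R k =>
          (L (fun x => Γ (pl N R (k + 1) (su, f) x)) ord I W : ℝ)) ≤
          av (fun f : Fin N → Dg N R × Om N R k => ∑ i : Fin N,
            XT (fun i (ξ : Dg N R × Om N R k) (x : Lf N k) =>
              Γ (dig su.1 su.2 i ξ.1, pl N R k ξ.2 x)) ord I W i (f i)) := by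
        refine av_mono (fun f => ?_)
        rw [L_pl_succ]
        exact L_BB_le_sum _ ord I W f
      refine h1.trans ?_
      rw [av_sum]
      have h2 : ∀ i : Fin N, av (fun f : Fin N → Dg N R × Om N R k =>
          XT (fun i (ξ : Dg N R × Om N R k) (x : Lf N k) =>
              Γ (dig su.1 su.2 i ξ.1, pl N R k ξ.2 x)) ord I W i (f i)) ≤
          (N : ℝ) ^ k * (chI (κ := Lf N k) I i).card * (N * Tp vp (am (cm Γ su.1 su.2)) W) := by
        intro i
        rw [av_pi_single i (fun ξ => XT (fun i (ξ : Dg N R × Om N R k) (x : Lf N k) =>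
              Γ (dig su.1 su.2 i ξ.1, pl N R k ξ.2 x)) ord I W i ξ), av_prod]
        have h3 : ∀ w : Dg N R, av (fun ω : Om N R k =>
            XT (fun i (ξ : Dg N R × Om N R k) (x : Lf N k) =>
              Γ (dig su.1 su.2 i ξ.1, pl N R k ξ.2 x)) ord I W i (w, ω)) ≤
            (N : ℝ) ^ k * (chI (κ := Lf N k) I i).card *
              Tp vp (mu (fun c : Col N R k => Γ (dig su.1 su.2 i w, c))) W := by
          intro w
          exact ih (fun c => Γ (dig su.1 su.2 i w, c)) (fun x => ord (i, x)) (chI (κ := Lf N k) I i) W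
        refine (av_mono h3).trans ?_
        rw [av_mul_left]
        refine mul_le_mul_of_nonneg_left ?_ (by positivity)
        exact (child_avg Γ su.1 su.2 i W).trans
          (Tp_le_mul N vp hv0 hv1 _ (fun i y => cm_nonneg Γ su.1 su.2 i y) i W)
      refine (Finset.sum_le_sum (fun i _ => h2 i)).trans (le_of_eq ?_)
      rw [← Finset.sum_mul, ← Finset.mul_sum]
      have h4 := sum_card_chI (κ := Lf N k) I
      have h5 : (∑ i : Fin N, ((chI (κ := Lf N k) I i).card : ℝ)) = (I.card : ℝ) := by
        rw [← Nat.cast_sum, h4]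
        rfl
      rw [h5, pow_succ]
      ring
    refine (av_mono hstep).trans ?_
    rw [av_mul_left]
    exact mul_le_mul_of_nonneg_left (main_avg_Tp Γ W) (by positivity)

end OTree
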