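import Pool.Agent.Lib.MP_c11385_co.X.Av

set_option autoImplicit false

namespace OTree

open Finset

/-- numerical end of the good case -/
theorem pair_num {N : ℕ} (hN : (N : ℝ) ^ nu = 12) (κ' T' T P : ℝ) (hκ : 0 ≤ κ') (hT' : 0 ≤ T')
    (hT : 0 ≤ T) (hP0 : 0 ≤ P)
    (hP : P ≤ (κ' * (1.01 * T' / 100)) ^ (2 * rr) *
      (0.56 * (N : ℝ) ^ (2 * (1 - rr)) * (100 : ℝ) ^ (2 * rr) * T ^ (2 * rr))) :
    P ^ ((1 + nu) / 2) ≤ κ' * T * (9.15 * T') := by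
  have hNn : (0 : ℝ) ≤ N := Nat.cast_nonneg _
  set e : ℝ := (1 + nu) / 2 with he
  have he0 : 0 < e := by rw [he]; unfold nu; norm_num
  have h1 : 2 * rr * e = 1 := by rw [he]; unfold rr nu; norm_num
  have h2 : 2 * (1 - rr) * e = nu := by rw [he]; unfold rr nu; norm_num
  have hA : 0 ≤ κ' * (1.01 * T' / 100) := by positivity
  have h3 := Real.rpow_le_rpow hP0 hP he0.le
  have h4 : ((κ' * (1.01 * T' / 100)) ^ (2 * rr) *
      (0.56 * (N : ℝ) ^ (2 * (1 - rr)) * (100 : ℝ) ^ (2 * rr) * T ^ (2 * rr))) ^ e =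
      (κ' * (1.01 * T' / 100)) * ((0.56 : ℝ) ^ e * 12 * 100 * T) := by
    set A : ℝ := κ' * (1.01 * T' / 100)
    have p1 : (0 : ℝ) ≤ A ^ (2 * rr) := Real.rpow_nonneg hA _
    have p2 : (0 : ℝ) ≤ (N : ℝ) ^ (2 * (1 - rr)) := Real.rpow_nonneg hNn _
    have p3 : (0 : ℝ) ≤ (100 : ℝ) ^ (2 * rr) := Real.rpow_nonneg (by norm_num) _
    have p4 : (0 : ℝ) ≤ T ^ (2 * rr) := Real.rpow_nonneg hT _
    have p5 : (0 : ℝ) ≤ 0.56 * (N : ℝ) ^ (2 * (1 - rr)) := mul_nonneg (by norm_num) p2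
    have p6 : (0 : ℝ) ≤ 0.56 * (N : ℝ) ^ (2 * (1 - rr)) * (100 : ℝ) ^ (2 * rr) := mul_nonneg p5 p3
    rw [Real.mul_rpow p1 (mul_nonneg p6 p4), Real.mul_rpow p6 p4, Real.mul_rpow p5 p3,
      Real.mul_rpow (by norm_num) p2, ← Real.rpow_mul hA, ← Real.rpow_mul hNn,
      ← Real.rpow_mul (by norm_num : (0:ℝ) ≤ 100), ← Real.rpow_mul hT,
      h1, h2, hN, Real.rpow_one, Real.rpow_one, Real.rpow_one]
  rw [h4] at h3
  refine h3.trans ?_
  have h5 : (0.56 : ℝ) ^ e ≤ 0.75 := by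
    calc (0.56 : ℝ) ^ e ≤ 0.56 ^ ((1 : ℝ) / 2) :=
          Real.rpow_le_rpow_of_exponent_ge (by norm_num) (by norm_num)
            (by rw [he]; unfold nu; norm_num)
      _ ≤ ((0.75 : ℝ) ^ (2 : ℕ)) ^ ((1 : ℝ) / 2) :=
          Real.rpow_le_rpow (by norm_num) (by norm_num) (by norm_num)
      _ = 0.75 := by
          rw [← Real.rpow_natCast, ← Real.rpow_mul (by norm_num)]
          norm_num
  have h6 : 0 ≤ κ' * T' * T := by positivity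
  have h7 : (κ' * (1.01 * T' / 100)) * ((0.56 : ℝ) ^ e * 12 * 100 * T) =
      (κ' * T' * T) * (12.12 * (0.56 : ℝ) ^ e) := by ring
  have h8 : κ' * T * (9.15 * T') = (κ' * T' * T) * 9.15 := by ring
  rw [h7, h8]
  refine mul_le_mul_of_nonneg_left ?_ h6
  linarith

end OTree
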