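import Pool.Agent.Lib.MP_c11385_co.X.Av

set_option autoImplicit false

namespace OTree

open Finset

private theorem nonDisc_aux1 (n : ℕ) :
    ((Finset.univ : Finset (Fin n × Fin n)).filter (fun p => p.1 ≤ p.2)).card =
      ∑ i ∈ Finset.range n, (n - i) := by
  rw [Finset.card_filter, Fintype.sum_prod_type]
  have h1 : ∀ x : Fin n, ∑ y : Fin n, (if (x, y).1 ≤ (x, y).2 then 1 else 0) = n - (x : ℕ) := by
    intro x
    rw [← Finset.card_filter]
    have h2 : (Finset.univ.filter fun y : Fin n => (x, y).1 ≤ (x, y).2) = Finset.Ici x := by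
      ext y
      simp
    rw [h2, Fin.card_Ici]
  rw [Finset.sum_congr rfl fun x _ => h1 x, Fin.sum_univ_eq_sum_range (fun i => n - i) n]

private theorem nonDisc_aux2 (n : ℕ) :
    ((Finset.univ : Finset (Fin n × Fin n)).filter (fun p => p.2 ≤ p.1)).card =
      ((Finset.univ : Finset (Fin n × Fin n)).filter (fun p => p.1 ≤ p.2)).card := by
  refine Finset.card_bij (fun p _ => (p.2, p.1)) ?_ ?_ ?_
  · intro p hp
    simpa using hp
  · intro p _ p' _ h
    rw [Prod.mk.injEq] at h
    exact Prod.ext h.2 h.1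
  · intro p hp
    exact ⟨(p.2, p.1), by simpa using hp, rfl⟩

private theorem nonDisc_aux3 {n : ℕ} {j j' : Fin n} (h : j ≠ j') :
    ((Finset.univ : Finset (Fin n × Fin n)).filter
      (fun p => NonDisc ((j, p.1) : Fin n × Fin n) (j', p.2))).card =
      ∑ i ∈ Finset.range n, (n - i) := by
  rcases lt_or_gt_of_ne h with hlt | hlt
  · rw [← nonDisc_aux1]
    refine congrArg Finset.card (Finset.filter_congr fun p _ => ?_)
    unfold NonDisc
    exact ⟨fun h1 => h1.1 hlt, fun h1 => ⟨fun _ => h1, fun h2 => absurd h2 (asymm hlt)⟩⟩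
  · rw [← nonDisc_aux1, ← nonDisc_aux2]
    refine congrArg Finset.card (Finset.filter_congr fun p _ => ?_)
    unfold NonDisc
    exact ⟨fun h1 => h1.2 hlt, fun h1 => ⟨fun h2 => absurd h2 (asymm hlt), fun _ => h1⟩⟩

theorem card_nonDisc_ne {j j' : Fin 100} (h : j ≠ j') :
    ((Finset.univ : Finset (Fin 100 × Fin 100)).filter
      (fun p => NonDisc ((j, p.1) : Fin 100 × Fin 100) (j', p.2))).card = 5050 := by
  rw [nonDisc_aux3 h]
  decide +kernel

theorem card_nonDisc_le (j j' : Fin 100) :
    ((Finset.univ : Finset (Fin 100 × Fin 100)).filter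
      (fun p => NonDisc ((j, p.1) : Fin 100 × Fin 100) (j', p.2))).card ≤ 10000 := by
  refine (Finset.card_filter_le _ _).trans ?_
  rw [Finset.card_univ, Fintype.card_prod, Fintype.card_fin]

end OTree
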