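import Pool.Agent.Lib.MP_c11385_co.X.Av
import Pool.Agent.Lib.MP_c11385_co.X.NonDiscCount

set_option autoImplicit false

namespace OTree

open Finset

private theorem cs_count (j j' : Fin 100) (a : ℝ) :
    ∑ h : Fin 100, ∑ h' : Fin 100,
      (if NonDisc ((j, h) : Fin 100 × Fin 100) (j', h') then a else 0) =
      (((Finset.univ : Finset (Fin 100 × Fin 100)).filter
      (fun p => NonDisc ((j, p.1) : Fin 100 × Fin 100) (j', p.2))).card : ℝ) * a := by
  rw [← Fintype.sum_prod_type' (f := fun h h' : Fin 100 =>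
    if NonDisc ((j, h) : Fin 100 × Fin 100) (j', h') then a else 0), ← Finset.sum_filter,
    Finset.sum_const, nsmul_eq_mul]

private theorem cs_pair (x y : Fin 100 → ℝ) (hx : ∀ j, 0 ≤ x j) (hy : ∀ j, 0 ≤ y j) :
    ∑ R : Fin 100 × Fin 100, ∑ R' : Fin 100 × Fin 100,
      (if NonDisc R R' then x R.1 * y R'.1 else 0) ≤
      5050 * ((∑ j, x j) * ∑ j, y j) + 10000 * ∑ j, x j * y j := by
  have h1 : ∑ R : Fin 100 × Fin 100, ∑ R' : Fin 100 × Fin 100,
      (if NonDisc R R' then x R.1 * y R'.1 else 0) =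
      ∑ j, ∑ j', (((Finset.univ : Finset (Fin 100 × Fin 100)).filter
      (fun p => NonDisc ((j, p.1) : Fin 100 × Fin 100) (j', p.2))).card : ℝ) * (x j * y j') := by
    rw [Fintype.sum_prod_type]
    refine Finset.sum_congr rfl fun j _ => ?_
    have h2 : ∀ h : Fin 100, ∑ R' : Fin 100 × Fin 100,
        (if NonDisc ((j, h) : Fin 100 × Fin 100) R' then x j * y R'.1 else 0) =
        ∑ j', ∑ h', (if NonDisc ((j, h) : Fin 100 × Fin 100) (j', h') then x j * y j' else 0) :=
      fun h => Fintype.sum_prod_type _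
    rw [Finset.sum_congr rfl fun h _ => h2 h, Finset.sum_comm]
    exact Finset.sum_congr rfl fun j' _ => cs_count j j' _
  rw [h1]
  have h3 : ∀ j j', (((Finset.univ : Finset (Fin 100 × Fin 100)).filter
      (fun p => NonDisc ((j, p.1) : Fin 100 × Fin 100) (j', p.2))).card : ℝ) * (x j * y j') ≤
      5050 * (x j * y j') + if j = j' then 10000 * (x j * y j') else 0 := by
    intro j j'
    have hp : 0 ≤ x j * y j' := mul_nonneg (hx j) (hy j')
    by_cases h : j = j'
    · rw [if_pos h]
      have h4 : (((Finset.univ : Finset (Fin 100 × Fin 100)).filter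
          (fun p => NonDisc ((j, p.1) : Fin 100 × Fin 100) (j', p.2))).card : ℝ) ≤ 10000 := by
        exact_mod_cast card_nonDisc_le j j'
      nlinarith
    · rw [if_neg h, card_nonDisc_ne h, add_zero]
      push_cast
      exact le_rfl
  refine (Finset.sum_le_sum fun j _ => Finset.sum_le_sum fun j' _ => h3 j j').trans (le_of_eq ?_)
  simp only [Finset.sum_add_distrib, Finset.sum_ite_eq, Finset.mem_univ, if_true]
  rw [Finset.sum_mul_sum, Finset.mul_sum, Finset.mul_sum]
  simp only [Finset.mul_sum]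

/-- summation over the windows: only the segments matter -/
theorem cell_sum {N : ℕ} (z : Fin N → Fin 100 → ℝ) (hz : ∀ i j, 0 ≤ z i j) :
    (∑ i, ∑ i', if i ≠ i' then ∑ R : Fin 100 × Fin 100, ∑ R' : Fin 100 × Fin 100,
      if NonDisc R R' then z i R.1 * z i' R'.1 else 0 else 0)
      ≤ 5050 * (∑ i, ∑ j, z i j) ^ 2
        + 10000 * ∑ j, ∑ i, ∑ i', if i ≠ i' then z i j * z i' j else 0 := by
  have h1 : ∀ i i', (if i ≠ i' then ∑ R : Fin 100 × Fin 100, ∑ R' : Fin 100 × Fin 100,
      if NonDisc R R' then z i R.1 * z i' R'.1 else 0 else 0) ≤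
      5050 * ((∑ j, z i j) * ∑ j, z i' j) +
        10000 * ∑ j, if i ≠ i' then z i j * z i' j else 0 := by
    intro i i'
    by_cases h : i ≠ i'
    · simp only [if_pos h]
      exact cs_pair (z i) (z i') (hz i) (hz i')
    · simp only [if_neg h, Finset.sum_const_zero, mul_zero, add_zero]
      have h2 : 0 ≤ ∑ j, z i j := Finset.sum_nonneg fun j _ => hz i j
      have h3 : 0 ≤ ∑ j, z i' j := Finset.sum_nonneg fun j _ => hz i' j
      positivity
  refine (Finset.sum_le_sum fun i _ => Finset.sum_le_sum fun i' _ => h1 i i').trans (le_of_eq ?_)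
  simp only [Finset.sum_add_distrib]
  congr 1
  · rw [sq, Finset.sum_mul_sum, Finset.mul_sum]
    simp only [Finset.mul_sum]
  · rw [Finset.sum_comm' (s := (Finset.univ : Finset (Fin 100)))
      (t := fun _ => (Finset.univ : Finset (Fin N))) (t' := (Finset.univ : Finset (Fin N)))
      (s' := fun _ => (Finset.univ : Finset (Fin 100))) (by simp), Finset.mul_sum]
    refine Finset.sum_congr rfl fun i _ => ?_
    rw [Finset.sum_comm (s := (Finset.univ : Finset (Fin 100))), Finset.mul_sum]

end OTree
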