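import Pool.Agent.Lib.MP_c11385_co.X.Av
import Pool.Agent.Lib.MP_c11385_co.X.PowSum

set_option autoImplicit false

namespace OTree

open Finset

theorem diag_sum {N : ℕ} (t : Fin N → Fin 100 → ℕ) (T : ℕ) (hcol : ∀ j, ∑ i, t i j ≤ (T + 99) / 100) :
    (∑ j, ∑ i, ∑ i', if i ≠ i' then (t i j : ℝ) ^ rr * (t i' j : ℝ) ^ rr else 0)
      ≤ 100 * ((N : ℝ) ^ (1 - rr) * (2 * (T : ℝ) / 100) ^ rr) ^ 2 := by
  have hrr0 : (0 : ℝ) < rr := by unfold rr; norm_num
  have hrr1 : rr ≤ 1 := by unfold rr; norm_num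
  have hR : 0 ≤ 100 * ((N : ℝ) ^ (1 - rr) * (2 * (T : ℝ) / 100) ^ rr) ^ 2 := by positivity
  by_cases hT : T ≤ 100
  · refine le_trans (le_of_eq ?_) hR
    refine Finset.sum_eq_zero fun j _ => Finset.sum_eq_zero fun i _ => Finset.sum_eq_zero
      fun i' _ => ?_
    by_cases hi : i ≠ i'
    · rw [if_pos hi]
      have h1 := hcol j
      have h2 : (T + 99) / 100 ≤ 1 := by omega
      have h3 : t i j + t i' j ≤ ∑ i, t i j := by
        have h4 : ∑ k ∈ ({i, i'} : Finset (Fin N)), t k j ≤ ∑ i, t i j :=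
          Finset.sum_le_sum_of_subset (Finset.subset_univ _)
        rwa [Finset.sum_pair hi] at h4
      have h5 : t i j = 0 ∨ t i' j = 0 := by omega
      rcases h5 with h | h
      · rw [h, Nat.cast_zero, Real.zero_rpow hrr0.ne', zero_mul]
      · rw [h, Nat.cast_zero, Real.zero_rpow hrr0.ne', mul_zero]
    · rw [if_neg hi]
  · have hT' : 100 < T := not_le.mp hT
    have key : ∀ j : Fin 100, (∑ i, ∑ i', if i ≠ i' then (t i j : ℝ) ^ rr * (t i' j : ℝ) ^ rr else 0)
        ≤ ((N : ℝ) ^ (1 - rr) * (2 * (T : ℝ) / 100) ^ rr) ^ 2 := by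
      intro j
      have h1 : (∑ i, ∑ i', if i ≠ i' then (t i j : ℝ) ^ rr * (t i' j : ℝ) ^ rr else 0) ≤
          (∑ i, (t i j : ℝ) ^ rr) ^ 2 := by
        rw [sq, Finset.sum_mul_sum]
        refine Finset.sum_le_sum fun i _ => Finset.sum_le_sum fun i' _ => ?_
        split_ifs
        · exact le_rfl
        · positivity
      refine h1.trans (pow_le_pow_left₀ (by positivity) ?_ 2)
      have h2 := sum_rpow_le (Finset.univ : Finset (Fin N)) (fun i => (t i j : ℝ))
        (fun i _ => Nat.cast_nonneg _) hrr0 hrr1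
      rw [Finset.card_univ, Fintype.card_fin] at h2
      refine h2.trans (mul_le_mul_of_nonneg_left ?_ (by positivity))
      refine Real.rpow_le_rpow (by positivity) ?_ hrr0.le
      have h3 : ((∑ i, t i j : ℕ) : ℝ) ≤ (((T + 99) / 100 : ℕ) : ℝ) := by exact_mod_cast hcol j
      have h4 : (((T + 99) / 100 : ℕ) : ℝ) ≤ ((T + 99 : ℕ) : ℝ) / (100 : ℕ) := Nat.cast_div_le
      push_cast at h3 h4
      have h5 : (100 : ℝ) < T := by exact_mod_cast hT'
      refine h3.trans (h4.trans ?_)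
      have h6 : (T : ℝ) + 99 ≤ 2 * T := by linarith
      linarith
    calc _ ≤ ∑ _j : Fin 100, ((N : ℝ) ^ (1 - rr) * (2 * (T : ℝ) / 100) ^ rr) ^ 2 :=
          Finset.sum_le_sum fun j _ => key j
      _ = _ := by rw [Finset.sum_const, Finset.card_univ, Fintype.card_fin, nsmul_eq_mul]; norm_num

end OTree
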