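import Pool.Agent.Lib.MP_c11385_co.X.Av
import Pool.Agent.Lib.MP_c11385_co.X.CellSum
import Pool.Agent.Lib.MP_c11385_co.X.DiagSum

set_option autoImplicit false

namespace OTree

open Finset

private theorem pr_num : (100 : ℝ) ^ ((4 : ℝ) / 2001) ≤ 1.01 := by
  have h1 : (100 : ℝ) ≤ 1.01 ^ (500 : ℕ) := by
    have h2 : (1.1 : ℝ) ≤ 1.01 ^ (10 : ℕ) := by norm_num
    have h3 : (2.59 : ℝ) ≤ 1.1 ^ (10 : ℕ) := by norm_num
    have h4 : (100 : ℝ) ≤ 2.59 ^ (5 : ℕ) := by norm_num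
    calc (100 : ℝ) ≤ 2.59 ^ (5 : ℕ) := h4
      _ ≤ ((1.1 : ℝ) ^ (10 : ℕ)) ^ (5 : ℕ) := pow_le_pow_left₀ (by norm_num) h3 5
      _ ≤ (((1.01 : ℝ) ^ (10 : ℕ)) ^ (10 : ℕ)) ^ (5 : ℕ) := by
        refine pow_le_pow_left₀ (by norm_num) ?_ 5
        exact pow_le_pow_left₀ (by norm_num) h2 10
      _ = 1.01 ^ (500 : ℕ) := by rw [← pow_mul, ← pow_mul]
  calc (100 : ℝ) ^ ((4 : ℝ) / 2001) ≤ (1.01 ^ (500 : ℕ)) ^ ((4 : ℝ) / 2001) :=
        Real.rpow_le_rpow (by norm_num) h1 (by norm_num)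
    _ = 1.01 ^ ((500 : ℝ) * (4 / 2001)) := by
        rw [← Real.rpow_natCast, ← Real.rpow_mul (by norm_num)]
        norm_num
    _ ≤ 1.01 ^ (1 : ℝ) := Real.rpow_le_rpow_of_exponent_le (by norm_num) (by norm_num)
    _ = 1.01 := Real.rpow_one _

theorem pair_real {N : ℕ} (t : Fin N → Fin 100 → ℕ) (T : ℕ) (hsum : ∑ i, ∑ j, t i j = T)
    (hcol : ∀ j, ∑ i, t i j ≤ (T + 99) / 100) :
    (∑ i, ∑ i', if i ≠ i' then ∑ R : Fin 100 × Fin 100, ∑ R' : Fin 100 × Fin 100,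
      if NonDisc R R' then (t i R.1 : ℝ) ^ rr * (t i' R'.1 : ℝ) ^ rr else 0 else 0)
      ≤ 0.56 * (N : ℝ) ^ (2 * (1 - rr)) * (100 : ℝ) ^ (2 * rr) * (T : ℝ) ^ (2 * rr) := by
  have hrr0 : (0 : ℝ) < rr := by unfold rr; norm_num
  have hrr1 : rr ≤ 1 := by unfold rr; norm_num
  have h1 := cell_sum (fun i j => (t i j : ℝ) ^ rr) (fun i j => by positivity)
  have h2 := diag_sum t T hcol
  have h3 : ∑ i, ∑ j, (t i j : ℝ) ^ rr ≤ ((N : ℝ) * 100) ^ (1 - rr) * (T : ℝ) ^ rr := by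
    have h4 := sum_rpow_le (Finset.univ : Finset (Fin N × Fin 100)) (fun p => (t p.1 p.2 : ℝ))
      (fun p _ => Nat.cast_nonneg _) hrr0 hrr1
    rw [Finset.card_univ, Fintype.card_prod, Fintype.card_fin, Fintype.card_fin,
      Fintype.sum_prod_type, Fintype.sum_prod_type] at h4
    have h5 : (∑ i, ∑ j, (t i j : ℝ)) = T := by exact_mod_cast hsum
    rw [h5] at h4
    push_cast at h4
    exact h4
  have hNn : (0 : ℝ) ≤ N := Nat.cast_nonneg _
  have hTn : (0 : ℝ) ≤ T := Nat.cast_nonneg _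
  set U : ℝ := (N : ℝ) ^ (2 * (1 - rr)) with hU
  set V : ℝ := (T : ℝ) ^ (2 * rr) with hV
  have hU0 : 0 ≤ U := by positivity
  have hV0 : 0 ≤ V := by positivity
  set E : ℝ := (100 : ℝ) ^ (2 * (1 - rr)) with hE
  have hE0 : 0 < E := by positivity
  have hE2 : E ^ 2 ≤ 1.01 := by
    have : E ^ 2 = (100 : ℝ) ^ ((4 : ℝ) / 2001) := by
      rw [hE, ← Real.rpow_natCast, ← Real.rpow_mul (by norm_num)]
      congr 1
      unfold rr
      norm_num
    rw [this]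
    exact pr_num
  have hF : (100 : ℝ) ^ (2 * rr) = 10000 / E := by
    rw [hE, eq_div_iff (by positivity), ← Real.rpow_add (by norm_num)]
    have : 2 * rr + 2 * (1 - rr) = (2 : ℕ) := by push_cast; ring
    rw [this, Real.rpow_natCast]
    norm_num
  have e1 : (((N : ℝ) * 100) ^ (1 - rr) * (T : ℝ) ^ rr) ^ 2 = U * E * V := by
    have a1 : (1 - rr) * ((2 : ℕ) : ℝ) = 2 * (1 - rr) := by push_cast; ring
    have a2 : rr * ((2 : ℕ) : ℝ) = 2 * rr := by push_cast; ring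
    rw [mul_pow, ← Real.rpow_natCast (((N : ℝ) * 100) ^ (1 - rr)), ← Real.rpow_mul (by positivity),
      ← Real.rpow_natCast ((T : ℝ) ^ rr), ← Real.rpow_mul hTn, a1, a2,
      Real.mul_rpow hNn (by norm_num)]
  have e2 : ((N : ℝ) ^ (1 - rr) * (2 * (T : ℝ) / 100) ^ rr) ^ 2 ≤ U * (4 * V * E / 10000) := by
    have g1 : ((N : ℝ) ^ (1 - rr)) ^ 2 = U := by
      rw [← Real.rpow_natCast, ← Real.rpow_mul hNn, hU]
      congr 1
      push_cast; ring
    have g2 : ((2 * (T : ℝ) / 100) ^ rr) ^ 2 = (2 : ℝ) ^ (2 * rr) * V / (100 : ℝ) ^ (2 * rr) := by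
      rw [← Real.rpow_natCast, ← Real.rpow_mul (by positivity),
        Real.div_rpow (by positivity) (by norm_num), Real.mul_rpow (by norm_num) hTn, hV]
      have : rr * ((2 : ℕ) : ℝ) = 2 * rr := by push_cast; ring
      rw [this]
    have g3 : (2 : ℝ) ^ (2 * rr) ≤ 4 := by
      calc (2 : ℝ) ^ (2 * rr) ≤ 2 ^ ((2 : ℕ) : ℝ) :=
            Real.rpow_le_rpow_of_exponent_le (by norm_num) (by push_cast; linarith)
        _ = 4 := by rw [Real.rpow_natCast]; norm_num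
    rw [mul_pow, g1, g2]
    refine mul_le_mul_of_nonneg_left ?_ hU0
    rw [hF, div_div_eq_mul_div]
    have g4 : (2 : ℝ) ^ (2 * rr) * V * E ≤ 4 * V * E := by gcongr
    linarith
  have e3 : 5050 * (∑ i, ∑ j, (t i j : ℝ) ^ rr) ^ 2 ≤ 5050 * (U * E * V) := by
    rw [← e1]
    have : 0 ≤ ∑ i, ∑ j, (t i j : ℝ) ^ rr := by positivity
    gcongr
  have e4 : 10000 * (∑ j, ∑ i, ∑ i', if i ≠ i' then (t i j : ℝ) ^ rr * (t i' j : ℝ) ^ rr else 0) ≤
      10000 * (100 * (U * (4 * V * E / 10000))) := by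
    refine mul_le_mul_of_nonneg_left (h2.trans ?_) (by norm_num)
    exact mul_le_mul_of_nonneg_left e2 (by norm_num)
  have e5 : 5050 * (U * E * V) + 10000 * (100 * (U * (4 * V * E / 10000))) ≤
      0.56 * U * (10000 / E) * V := by
    have g1 : 5050 * (U * E * V) + 10000 * (100 * (U * (4 * V * E / 10000))) =
        (U * V) * (5450 * E) := by ring
    have g2 : 0.56 * U * (10000 / E) * V = (U * V) * (5600 / E) := by
      rw [div_eq_mul_inv, div_eq_mul_inv]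
      ring
    rw [g1, g2]
    refine mul_le_mul_of_nonneg_left ?_ (mul_nonneg hU0 hV0)
    rw [le_div_iff₀ hE0]
    nlinarith
  rw [hF]
  calc _ ≤ _ := h1
    _ ≤ 5050 * (U * E * V) + 10000 * (100 * (U * (4 * V * E / 10000))) := add_le_add e3 e4
    _ ≤ _ := e5

end OTree
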