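import Pool.Agent.Lib.MP_c11385_co.X.Av

set_option autoImplicit false

namespace OTree

open Finset

private theorem seg_div (n q : ℕ) (hq : 0 < q) : n ≤ q * ((n + (q - 1)) / q) := by
  have h1 := Nat.div_add_mod (n + (q - 1)) q
  have h2 := Nat.mod_lt (n + (q - 1)) hq
  omega

theorem segments {ι : Type} (q : ℕ) (hq : 0 < q) (I : Finset ι) (ord : ι → ℕ)
    (hord : Function.Injective ord) : ∃ seg : ι → Fin q,
      (∀ x x', ord x ≤ ord x' → seg x ≤ seg x') ∧
      ∀ j, (I.filter (fun x => seg x = j)).card ≤ (I.card + (q - 1)) / q := by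
  classical
  rcases I.eq_empty_or_nonempty with rfl | hI
  · refine ⟨fun _ => ⟨0, hq⟩, fun _ _ _ => le_rfl, fun j => ?_⟩
    rw [filter_empty, card_empty]
    exact Nat.zero_le _
  have hIc : 0 < I.card := hI.card_pos
  set B := (I.card + (q - 1)) / q with hB
  have hqB : I.card ≤ q * B := seg_div I.card q hq
  have hB0 : 0 < B := by
    rcases Nat.eq_zero_or_pos B with h | h
    · rw [h, mul_zero] at hqB
      omega
    · exact h
  let rk : ι → ℕ := fun x => (I.filter (fun x' => ord x' < ord x)).card
  have hmono : ∀ x x', ord x ≤ ord x' → rk x ≤ rk x' := by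
    intro x x' h
    apply card_le_card
    intro y hy
    rw [mem_filter] at hy ⊢
    exact ⟨hy.1, lt_of_lt_of_le hy.2 h⟩
  have hstrict : ∀ x ∈ I, ∀ x', ord x < ord x' → rk x < rk x' := by
    intro x hx x' h
    apply card_lt_card
    rw [ssubset_iff_of_subset]
    · exact ⟨x, mem_filter.2 ⟨hx, h⟩, fun h' => lt_irrefl _ (mem_filter.1 h').2⟩
    · intro y hy
      rw [mem_filter] at hy ⊢
      exact ⟨hy.1, hy.2.trans h⟩
  have hlt : ∀ x ∈ I, rk x < I.card := by
    intro x hx
    apply card_lt_card
    rw [ssubset_iff_of_subset (filter_subset _ _)]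
    exact ⟨x, hx, fun h' => lt_irrefl _ (mem_filter.1 h').2⟩
  refine ⟨fun x => ⟨min (q - 1) (rk x / B), by omega⟩, ?_, ?_⟩
  · intro x x' h
    apply Fin.mk_le_mk.2
    exact min_le_min le_rfl (Nat.div_le_div_right (hmono x x' h))
  · intro j
    have hcard : (I.filter (fun x => (⟨min (q - 1) (rk x / B), by omega⟩ : Fin q) = j)).card ≤
        (Ico (j.val * B) ((j.val + 1) * B)).card := by
      refine card_le_card_of_injOn rk ?_ ?_
      · intro x hx
        rw [mem_coe, mem_filter] at hx
        rw [mem_coe, mem_Ico]
        have h1 := hlt x hx.1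
        have h2 : rk x / B < q := by
          rw [Nat.div_lt_iff_lt_mul hB0]
          omega
        have h3 : min (q - 1) (rk x / B) = j.val := congrArg Fin.val hx.2
        have h4 : rk x / B = j.val := by omega
        have h5 := Nat.div_mul_le_self (rk x) B
        have h6 : rk x < (rk x / B + 1) * B := by
          have h7 := Nat.div_add_mod (rk x) B
          have h8 := Nat.mod_lt (rk x) hB0
          have h9 : (rk x / B + 1) * B = B * (rk x / B) + B := by ring
          omega
        rw [h4] at h5 h6
        exact ⟨h5, h6⟩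
      · intro x hx x' hx' h
        rw [mem_coe, mem_filter] at hx hx'
        apply hord
        by_contra hne
        rcases lt_or_gt_of_ne hne with h1 | h1
        · have := hstrict x hx.1 x' h1
          omega
        · have := hstrict x' hx'.1 x h1
          omega
    refine hcard.trans ?_
    rw [Nat.card_Ico]
    have : (j.val + 1) * B - j.val * B = B := by
      rw [add_mul, one_mul, Nat.add_sub_cancel_left]
    exact this.le

end OTree
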