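import Pool.Agent.Lib.MP_c11385_co.X.Av

set_option autoImplicit false

namespace OTree

open Finset

theorem windows (q : ℕ) (hq : 0 < q) (W : Finset ℕ) (w : ℕ → ℝ) (h0 : ∀ y ∈ W, 0 ≤ w y)
    (h1 : ∀ y ∈ W, w y ≤ 1) : ∃ win : ℕ → Fin q, Monotone win ∧
      ∀ h, ∑ y ∈ W.filter (fun y => win y = h), w y ≤ (∑ y ∈ W, w y) / q + 1 := by
  classical
  have hS0 : 0 ≤ ∑ y ∈ W, w y := Finset.sum_nonneg h0
  have hq' : (0 : ℝ) < q := by exact_mod_cast hq
  rcases hS0.eq_or_lt with hS | hS
  · refine ⟨fun _ => ⟨0, hq⟩, fun _ _ _ => le_rfl, fun h => ?_⟩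
    have : ∑ y ∈ W.filter (fun _ => (⟨0, hq⟩ : Fin q) = h), w y ≤ ∑ y ∈ W, w y :=
      Finset.sum_le_sum_of_subset_of_nonneg (Finset.filter_subset _ _) (fun i hi _ => h0 i hi)
    rw [← hS] at this ⊢
    have : (0 : ℝ) / q = 0 := by simp
    rw [this]
    linarith
  · set S : ℝ := ∑ y ∈ W, w y with hSdef
    let s : ℕ → ℝ := fun y => ∑ y' ∈ W.filter (fun y' => y' < y), w y'
    have smono : Monotone s := by
      intro a b hab
      refine Finset.sum_le_sum_of_subset_of_nonneg ?_ (fun i hi _ => h0 i (Finset.mem_of_mem_filter i hi))
      intro i hi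
      rw [Finset.mem_filter] at hi ⊢
      exact ⟨hi.1, lt_of_lt_of_le hi.2 hab⟩
    have s0 : ∀ y, 0 ≤ s y := fun y => Finset.sum_nonneg (fun i hi => h0 i (Finset.mem_of_mem_filter i hi))
    have sS : ∀ y, s y ≤ S := fun y =>
      Finset.sum_le_sum_of_subset_of_nonneg (Finset.filter_subset _ _) (fun i hi _ => h0 i hi)
    let fl : ℕ → ℕ := fun y => ⌊(q : ℝ) * s y / S⌋₊
    have flmono : Monotone fl := by
      intro a b hab
      refine Nat.floor_mono ?_
      have := smono hab
      gcongr
    refine ⟨fun y => ⟨min (q - 1) (fl y), by omega⟩, ?_, ?_⟩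
    · intro a b hab
      have := flmono hab
      rw [Fin.le_def]
      show min (q - 1) (fl a) ≤ min (q - 1) (fl b)
      omega
    · intro h
      set F := W.filter (fun y => (⟨min (q - 1) (fl y), by omega⟩ : Fin q) = h) with hF
      rcases F.eq_empty_or_nonempty with hE | hne
      · rw [hE, Finset.sum_empty]
        positivity
      · have m1 := Finset.min'_mem F hne
        have m2 := Finset.max'_mem F hne
        set y1 := F.min' hne with hy1
        set y2 := F.max' hne with hy2
        have hFmem : ∀ y ∈ F, y ∈ W ∧ min (q - 1) (fl y) = h.val := by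
          intro y hy
          rw [hF, Finset.mem_filter] at hy
          exact ⟨hy.1, congrArg Fin.val hy.2⟩
        have hy12 : y1 ≤ y2 := Finset.min'_le F y2 m2
        have e1 := (hFmem y1 m1).2
        have e2 := (hFmem y2 m2).2
        have hh := h.isLt
        -- lower bound of s y1
        have l1 : (h.val : ℝ) * S / q ≤ s y1 := by
          have : h.val ≤ fl y1 := by omega
          have h3 : (h.val : ℝ) ≤ (q : ℝ) * s y1 / S := by
            have h4 : ((fl y1 : ℕ) : ℝ) ≤ (q : ℝ) * s y1 / S := Nat.floor_le (by
              have := s0 y1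
              positivity)
            have h5 : (h.val : ℝ) ≤ ((fl y1 : ℕ) : ℝ) := by exact_mod_cast this
            linarith
          rw [le_div_iff₀ hS] at h3
          rw [div_le_iff₀ hq']
          linarith
        have l2 : s y2 ≤ ((h.val : ℝ) + 1) * S / q := by
          by_cases hlast : h.val = q - 1
          · have : (h.val : ℝ) + 1 = q := by
              have : h.val + 1 = q := by omega
              exact_mod_cast this
            rw [this, mul_comm, mul_div_assoc, div_self hq'.ne', mul_one]
            exact sS y2
          · have : fl y2 = h.val := by omega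
            have h3 : (q : ℝ) * s y2 / S < (fl y2 : ℝ) + 1 := Nat.lt_floor_add_one _
            rw [this, div_lt_iff₀ hS] at h3
            rw [le_div_iff₀ hq']
            linarith
        have hsum : ∑ y ∈ F, w y + s y1 ≤ s y2 + w y2 := by
          have d1 : Disjoint F (W.filter (fun y' => y' < y1)) := by
            rw [Finset.disjoint_left]
            intro a ha ha'
            rw [Finset.mem_filter] at ha'
            have := Finset.min'_le F a ha
            omega
          have d2 : y2 ∉ W.filter (fun y' => y' < y2) := by
            intro hc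
            rw [Finset.mem_filter] at hc
            omega
          have e3 : s y2 + w y2 = ∑ y ∈ insert y2 (W.filter (fun y' => y' < y2)), w y := by
            rw [Finset.sum_insert d2, add_comm]
          have e4 : ∑ y ∈ F, w y + s y1 = ∑ y ∈ F ∪ W.filter (fun y' => y' < y1), w y := by
            rw [Finset.sum_union d1]
          rw [e3, e4]
          refine Finset.sum_le_sum_of_subset_of_nonneg ?_ ?_
          · intro a ha
            rw [Finset.mem_union] at ha
            rw [Finset.mem_insert, Finset.mem_filter]
            rcases ha with ha | ha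
            · have h5 := Finset.le_max' F a ha
              rcases Nat.lt_or_ge a y2 with h6 | h6
              · exact Or.inr ⟨(hFmem a ha).1, h6⟩
              · left
                have : a ≤ y2 := h5
                omega
            · rw [Finset.mem_filter] at ha
              exact Or.inr ⟨ha.1, lt_of_lt_of_le ha.2 hy12⟩
          · intro i hi _
            rw [Finset.mem_insert, Finset.mem_filter] at hi
            rcases hi with hi | hi
            · rw [hi]; exact h0 y2 (hFmem y2 m2).1
            · exact h0 i hi.1
        have h6 := h1 y2 (hFmem y2 m2).1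
        have e7 : ((h.val : ℝ) + 1) * S / q = (h.val : ℝ) * S / q + S / q := by ring
        linarith

end OTree
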