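import Pool.Agent.Lib.MP_c11385_co.X.Av
import Pool.Agent.Lib.MP_c11385_co.X.LChild
import Pool.Agent.Lib.MP_c11385_co.X.Windows
import Pool.Agent.Lib.MP_c11385_co.X.Segments
import Pool.Agent.Lib.MP_c11385_co.X.Combine
import Pool.Agent.Lib.MP_c11385_co.X.GapTp
import Pool.Agent.Lib.MP_c11385_co.X.PairReal
import Pool.Agent.Lib.MP_c11385_co.X.PairNum

set_option autoImplicit false

namespace OTree

open Finset

theorem good_regime {N : ℕ} (hN : (N : ℝ) ^ nu = 12) {Ξ κ : Type} [Fintype Ξ] [Nonempty Ξ]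
    (B : Fin N → Ξ → κ → Finset ℕ) (m : Fin N → ℕ → ℝ) (hm0 : ∀ i y, 0 ≤ m i y)
    (hm1 : ∀ i y, m i y ≤ 1) (κ' : ℝ) (hκ : 0 ≤ κ')
    (H : ∀ (i : Fin N) (o : κ → ℕ), Function.Injective o → ∀ (J : Finset κ) (W' : Finset ℕ),
      av (fun ξ => (L (B i ξ) o J W' : ℝ) ^ (1 + nu)) ≤ κ' * J.card * Tp vp (m i) W')
    (ord : Fin N × κ → ℕ) (hord : Function.Injective ord) (I : Finset (Fin N × κ)) (W : Finset ℕ)
    (G : ℝ) (hG : ∀ i W', W' ⊆ W → Tp vp (m i) W' ≤ (1 + 1 / 100000) * Tp vp (am m) W' + G)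
    (hG' : G ≤ 1 / 100000 * Tp vp (am m) W) (hT : 20000 ≤ Tp vp (am m) W) :
    av (fun f => (L (BB B f) ord I W : ℝ) ^ (1 + nu))
      ≤ κ' * I.card * (10.2 * Tp vp (am m) W) := by
  have hN0 : N ≠ 0 := by
    rintro rfl
    rw [Nat.cast_zero, Real.zero_rpow (by unfold nu; norm_num)] at hN
    norm_num at hN
  have : NeZero N := ⟨hN0⟩
  have hvp0 : 0 ≤ vp := by unfold vp th; norm_num
  have hnu1 : 1 ≤ 1 + nu := by unfold nu; norm_num
  have hrr0 : 0 ≤ rr := by unfold rr; norm_num
  have hnurr : (1 + nu) * rr = 1 := by unfold nu rr; norm_num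
  set T' := Tp vp (am m) W with hT'
  have ham0 : ∀ y, 0 ≤ am m y := fun y => av_nonneg (fun i => hm0 i y)
  have ham1 : ∀ y, am m y ≤ 1 := fun y => av_le_of_le (fun i => hm1 i y)
  obtain ⟨win, hwin, hwinS⟩ := windows 100 (by norm_num) W (fun y => (am m y) ^ vp)
    (fun y _ => Real.rpow_nonneg (ham0 y) _) (fun y _ => Real.rpow_le_one (ham0 y) (ham1 y) hvp0)
  obtain ⟨seg, hseg, hsegc⟩ := segments 100 (by norm_num) I ord hord
  have hordi : ∀ i : Fin N, Function.Injective (fun x : κ => ord (i, x)) := by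
    intro i x x' h
    have := hord h
    exact (Prod.mk.inj this).2
  set t : Fin N → Fin 100 → ℕ := fun i j => ((chI I i).filter (fun x => seg (i, x) = j)).card with ht
  have hc := combine (NonDisc (q := 100)) (fun i ξ => XT B ord I W i ξ)
    (fun i ξ => by unfold XT; positivity)
    (fun i R ξ => XC B ord I W seg win i R ξ) (fun i R ξ => by unfold XC; positivity)
    (fun f => (L (BB B f) ord I W : ℝ)) (fun f => by positivity)
    (fun f => L_BB_sq_le B ord I W seg win hseg hwin f)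
  refine hc.trans ?_
  set τ : ℝ := 1.01 * T' / 100 with hτdef
  have hτ : ∀ (i : Fin N) (h : Fin 100), Tp vp (m i) (W.filter (fun y => win y = h)) ≤ τ := by
    intro i h
    have h1 := hG i (W.filter (fun y => win y = h)) (Finset.filter_subset _ _)
    have h2 : Tp vp (am m) (W.filter (fun y => win y = h)) ≤ T' / 100 + 1 := by
      have := hwinS h
      simpa [Tp, hT'] using this
    rw [hτdef]
    linarith
  have hτ0 : 0 ≤ τ := by rw [hτdef]; linarith
  have hκτ : 0 ≤ κ' * τ := mul_nonneg hκ hτ0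
  have ht0 : ∀ i j, (0 : ℝ) ≤ (t i j : ℝ) := fun i j => Nat.cast_nonneg _
  have hXT0 : ∀ i ξ, 0 ≤ XT B ord I W i ξ := fun i ξ => by unfold XT; positivity
  have hXC0 : ∀ i R, 0 ≤ av (fun ξ => XC B ord I W seg win i R ξ) := fun i R =>
    av_nonneg (fun ξ => by unfold XC; positivity)
  have hXC : ∀ i R, av (fun ξ => XC B ord I W seg win i R ξ) ≤ (κ' * τ) ^ rr * (t i R.1 : ℝ) ^ rr := by
    intro i R
    have h1 : (av (fun ξ => XC B ord I W seg win i R ξ)) ^ (1 + nu) ≤ κ' * (t i R.1) * τ := by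
      refine (rpow_av_le (fun ξ => by unfold XC; positivity) hnu1).trans ?_
      refine (H i (fun x => ord (i, x)) (hordi i) _ _).trans ?_
      exact mul_le_mul_of_nonneg_left (hτ i R.2) (by positivity)
    have h2 : av (fun ξ => XC B ord I W seg win i R ξ)
        = ((av (fun ξ => XC B ord I W seg win i R ξ)) ^ (1 + nu)) ^ rr := by
      rw [← Real.rpow_mul (hXC0 i R), hnurr, Real.rpow_one]
    rw [h2, ← Real.mul_rpow hκτ (ht0 i R.1)]
    apply Real.rpow_le_rpow (Real.rpow_nonneg (hXC0 i R) _) _ hrr0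
    calc _ ≤ κ' * (t i R.1) * τ := h1
      _ = κ' * τ * (t i R.1) := by ring
  have hsum : ∑ i, ∑ j, t i j = I.card := sum_sum_card_chI_seg I seg
  have hcol : ∀ j, ∑ i, t i j ≤ (I.card + 99) / 100 := by
    intro j
    have h1 : ∑ i, t i j = (I.filter (fun p => seg p = j)).card := sum_card_chI_seg I seg j
    rw [h1]
    exact hsegc j
  have hpr := pair_real t I.card hsum hcol
  -- the pair part
  have hP : (∑ i, ∑ i', if i ≠ i' then ∑ R : Fin 100 × Fin 100, ∑ R' : Fin 100 × Fin 100,
      if NonDisc R R' then av (fun ξ => XC B ord I W seg win i R ξ) *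
        av (fun ξ => XC B ord I W seg win i' R' ξ) else 0 else 0)
      ≤ (κ' * (1.01 * T' / 100)) ^ (2 * rr) *
      (0.56 * (N : ℝ) ^ (2 * (1 - rr)) * (100 : ℝ) ^ (2 * rr) * (I.card : ℝ) ^ (2 * rr)) := by
    refine le_trans ?_ (mul_le_mul_of_nonneg_left hpr (Real.rpow_nonneg (by rw [← hτdef]; exact hκτ) _))
    rw [Finset.mul_sum]
    apply Finset.sum_le_sum
    intro i _
    rw [Finset.mul_sum]
    apply Finset.sum_le_sum
    intro i' _
    split_ifs with hii
    · rw [Finset.mul_sum]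
      apply Finset.sum_le_sum
      intro R _
      rw [Finset.mul_sum]
      apply Finset.sum_le_sum
      intro R' _
      split_ifs with hRR
      · have h1 := mul_le_mul (hXC i R) (hXC i' R') (hXC0 i' R')
          (mul_nonneg (Real.rpow_nonneg hκτ _) (Real.rpow_nonneg (ht0 i R.1) _))
        refine h1.trans (le_of_eq ?_)
        have h2 : (κ' * (1.01 * T' / 100)) ^ (2 * rr) = (κ' * τ) ^ rr * (κ' * τ) ^ rr := by
          rw [← hτdef, two_mul, Real.rpow_add_of_nonneg hκτ hrr0 hrr0]
        rw [h2]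
        ring
      · rw [mul_zero]
    · rw [mul_zero]
  have hP0 : 0 ≤ (∑ i, ∑ i', if i ≠ i' then ∑ R : Fin 100 × Fin 100, ∑ R' : Fin 100 × Fin 100,
      if NonDisc R R' then av (fun ξ => XC B ord I W seg win i R ξ) *
        av (fun ξ => XC B ord I W seg win i' R' ξ) else 0 else 0) := by
    apply Finset.sum_nonneg
    intro i _
    apply Finset.sum_nonneg
    intro i' _
    split_ifs with hii
    · apply Finset.sum_nonneg
      intro R _
      apply Finset.sum_nonneg
      intro R' _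
      split_ifs with hRR
      · exact mul_nonneg (hXC0 i R) (hXC0 i' R')
      · exact le_refl _
    · exact le_refl _
  have hpn := pair_num hN κ' T' I.card _ hκ (by linarith) (by positivity) hP0 hP
  -- the part of the single children
  have hX : ∑ i, av (fun ξ => XT B ord I W i ξ ^ (1 + nu)) ≤ κ' * I.card * (1.00002 * T') := by
    have h1 : ∀ i, av (fun ξ => XT B ord I W i ξ ^ (1 + nu)) ≤ κ' * (chI I i).card * (1.00002 * T') := by
      intro i
      refine (H i (fun x => ord (i, x)) (hordi i) (chI I i) W).trans ?_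
      apply mul_le_mul_of_nonneg_left _ (by positivity)
      have := hG i W (Finset.Subset.refl W)
      linarith
    refine (Finset.sum_le_sum (fun i _ => h1 i)).trans (le_of_eq ?_)
    rw [← Finset.sum_mul, ← Finset.mul_sum, ← Nat.cast_sum, sum_card_chI]
  have h9 : (0 : ℝ) ≤ κ' * I.card := by positivity
  calc _ ≤ κ' * I.card * (9.15 * T') + κ' * I.card * (1.00002 * T') := add_le_add hpn hX
    _ = κ' * I.card * (10.15002 * T') := by ring
    _ ≤ κ' * I.card * (10.2 * T') := by
      apply mul_le_mul_of_nonneg_left _ h9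
      linarith

end OTree
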