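import Pool.Agent.Lib.MP_c11385_co.X.Av
import Pool.Agent.Lib.MP_c11385_co.X.LChild
import Pool.Agent.Lib.MP_c11385_co.X.Combine
import Pool.Agent.Lib.MP_c11385_co.X.GapTp

set_option autoImplicit false

namespace OTree

open Finset

theorem small_regime {N : ℕ} (hN : (N : ℝ) ^ nu = 12) {Ξ κ : Type} [Fintype Ξ] [Nonempty Ξ]
    (B : Fin N → Ξ → κ → Finset ℕ) (m : Fin N → ℕ → ℝ) (hm0 : ∀ i y, 0 ≤ m i y)
    (κ' : ℝ) (hκ : 0 ≤ κ')
    (H : ∀ (i : Fin N) (o : κ → ℕ), Function.Injective o → ∀ (J : Finset κ) (W' : Finset ℕ),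
      av (fun ξ => (L (B i ξ) o J W' : ℝ) ^ (1 + nu)) ≤ κ' * J.card * Tp vp (m i) W')
    (M S : ℝ) (hM0 : 0 ≤ M)
    (H1 : ∀ (i : Fin N) (o : κ → ℕ) (J : Finset κ) (W' : Finset ℕ),
      av (fun ξ => (L (B i ξ) o J W' : ℝ)) ≤ M * J.card * Tp vp (m i) W')
    (hMS : (N * M * S * 20000) ^ nu * (N * M) ≤ κ')
    (ord : Fin N × κ → ℕ) (hord : Function.Injective ord) (I : Finset (Fin N × κ)) (W : Finset ℕ)
    (hI : (I.card : ℝ) ≤ S)
    (G : ℝ) (hG : ∀ i, Tp vp (m i) W ≤ (1 + 1 / 100000) * Tp vp (am m) W + G)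
    (hT : Tp vp (am m) W ≤ 20000) :
    av (fun f => (L (BB B f) ord I W : ℝ) ^ (1 + nu))
      ≤ κ' * I.card * (10.2 * Tp vp (am m) W + G) := by
  classical
  have hN0 : N ≠ 0 := by
    rintro rfl
    rw [Nat.cast_zero, Real.zero_rpow (by unfold nu; norm_num)] at hN
    norm_num at hN
  have : NeZero N := ⟨hN0⟩
  have hvp0 : 0 < vp := by unfold vp th; norm_num
  have hvp1 : vp < 1 := by unfold vp th; norm_num
  have hnu0 : 0 < nu := by unfold nu; norm_num
  have hXT0 : ∀ i ξ, 0 ≤ XT B ord I W i ξ := fun i ξ => by unfold XT; exact Nat.cast_nonneg _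
  have ham0 : ∀ y, 0 ≤ am m y := fun y => av_nonneg (fun i => hm0 i y)
  have hT0 : 0 ≤ Tp vp (am m) W := Tp_nonneg vp (am m) ham0 W
  have hsum : ∑ i, ((chI I i).card : ℝ) = I.card := by
    exact_mod_cast sum_card_chI I
  have hc := combine (ρ := Unit) (fun _ _ => True) (fun i ξ => XT B ord I W i ξ) hXT0
    (fun i _ ξ => XT B ord I W i ξ) (fun i _ ξ => hXT0 i ξ)
    (fun f => (L (BB B f) ord I W : ℝ)) (fun f => Nat.cast_nonneg _) (by
      intro f
      have h1 := L_BB_le_sum B ord I W f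
      have h2 : (L (BB B f) ord I W : ℝ) ^ 2 ≤ (∑ i, XT B ord I W i (f i)) ^ 2 :=
        pow_le_pow_left₀ (Nat.cast_nonneg _) h1 2
      refine h2.trans (le_of_eq ?_)
      simp only [Finset.univ_unique, Finset.sum_singleton, if_true]
      rw [sq, Finset.sum_mul_sum, ← Finset.sum_add_distrib]
      refine Finset.sum_congr rfl (fun i _ => ?_)
      rw [← Finset.sum_erase_add _ _ (Finset.mem_univ i), sq]
      congr 1
      rw [← Finset.sum_erase_add (a := i) _ _ (Finset.mem_univ i)]
      simp only [ne_eq, not_true_eq_false, if_false, add_zero]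
      refine Finset.sum_congr rfl (fun j hj => ?_)
      rw [if_pos (Finset.ne_of_mem_erase hj).symm])
  refine hc.trans ?_
  simp only [Finset.univ_unique, Finset.sum_singleton, if_true]
  -- second part
  have hsnd : ∑ i, av (fun ξ => XT B ord I W i ξ ^ (1 + nu))
      ≤ κ' * I.card * ((1 + 1 / 100000) * Tp vp (am m) W + G) := by
    calc ∑ i, av (fun ξ => XT B ord I W i ξ ^ (1 + nu))
        ≤ ∑ i, κ' * (chI I i).card * ((1 + 1 / 100000) * Tp vp (am m) W + G) := by
          refine Finset.sum_le_sum (fun i _ => ?_)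
          have h1 := H i (fun x => ord (i, x)) (fun x x' hxx => (Prod.mk.inj (hord hxx)).2) (chI I i) W
          refine h1.trans ?_
          exact mul_le_mul_of_nonneg_left (hG i) (by positivity)
      _ = κ' * I.card * ((1 + 1 / 100000) * Tp vp (am m) W + G) := by
          rw [← Finset.sum_mul, ← Finset.mul_sum, hsum]
  -- first part
  have hA0 : ∀ i, 0 ≤ av (fun ξ => XT B ord I W i ξ) := fun i => av_nonneg (fun ξ => hXT0 i ξ)
  have hA : ∑ i, av (fun ξ => XT B ord I W i ξ) ≤ N * M * I.card * Tp vp (am m) W := by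
    calc ∑ i, av (fun ξ => XT B ord I W i ξ)
        ≤ ∑ i, M * (chI I i).card * (N * Tp vp (am m) W) := by
          refine Finset.sum_le_sum (fun i _ => ?_)
          have h1 := H1 i (fun x => ord (i, x)) (chI I i) W
          refine h1.trans ?_
          exact mul_le_mul_of_nonneg_left (Tp_le_mul N vp hvp0 hvp1 m hm0 i W) (by positivity)
      _ = N * M * I.card * Tp vp (am m) W := by
          rw [← Finset.sum_mul, ← Finset.mul_sum, hsum]; ring
  have hA00 : 0 ≤ ∑ i, av (fun ξ => XT B ord I W i ξ) := Finset.sum_nonneg (fun i _ => hA0 i)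
  have hfst0 : (∑ i, ∑ i', if i ≠ i' then
      av (fun ξ => XT B ord I W i ξ) * av (fun ξ => XT B ord I W i' ξ) else 0)
      ≤ (∑ i, av (fun ξ => XT B ord I W i ξ)) ^ 2 := by
    rw [sq, Finset.sum_mul_sum]
    refine Finset.sum_le_sum (fun i _ => Finset.sum_le_sum (fun i' _ => ?_))
    split_ifs
    · exact le_rfl
    · exact mul_nonneg (hA0 i) (hA0 i')
  have hfst00 : 0 ≤ (∑ i, ∑ i', if i ≠ i' then
      av (fun ξ => XT B ord I W i ξ) * av (fun ξ => XT B ord I W i' ξ) else 0) := by
    refine Finset.sum_nonneg (fun i _ => Finset.sum_nonneg (fun i' _ => ?_))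
    split_ifs
    · exact mul_nonneg (hA0 i) (hA0 i')
    · exact le_rfl
  have hX0 : 0 ≤ N * M * I.card * Tp vp (am m) W := by positivity
  have hfst : (∑ i, ∑ i', if i ≠ i' then
      av (fun ξ => XT B ord I W i ξ) * av (fun ξ => XT B ord I W i' ξ) else 0) ^ ((1 + nu) / 2)
      ≤ κ' * I.card * Tp vp (am m) W := by
    calc (∑ i, ∑ i', if i ≠ i' then
        av (fun ξ => XT B ord I W i ξ) * av (fun ξ => XT B ord I W i' ξ) else 0) ^ ((1 + nu) / 2)
        ≤ ((∑ i, av (fun ξ => XT B ord I W i ξ)) ^ 2) ^ ((1 + nu) / 2) :=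
          Real.rpow_le_rpow hfst00 hfst0 (by positivity)
      _ = (∑ i, av (fun ξ => XT B ord I W i ξ)) ^ (1 + nu) := by
          rw [← Real.rpow_natCast, ← Real.rpow_mul hA00]
          congr 1
          push_cast
          ring
      _ ≤ (N * M * I.card * Tp vp (am m) W) ^ (1 + nu) :=
          Real.rpow_le_rpow hA00 hA (by positivity)
      _ = (N * M * I.card * Tp vp (am m) W) ^ nu * (N * M * I.card * Tp vp (am m) W) := by
          rw [add_comm, Real.rpow_add_one' hX0 (by positivity)]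
      _ ≤ (N * M * S * 20000) ^ nu * (N * M * I.card * Tp vp (am m) W) := by
          refine mul_le_mul_of_nonneg_right (Real.rpow_le_rpow hX0 ?_ hnu0.le) hX0
          have hS0 : 0 ≤ S := le_trans (Nat.cast_nonneg _) hI
          calc N * M * I.card * Tp vp (am m) W ≤ N * M * S * Tp vp (am m) W := by
                refine mul_le_mul_of_nonneg_right ?_ hT0
                exact mul_le_mul_of_nonneg_left hI (by positivity)
            _ ≤ N * M * S * 20000 := mul_le_mul_of_nonneg_left hT (by positivity)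
      _ = (N * M * S * 20000) ^ nu * (N * M) * (I.card * Tp vp (am m) W) := by ring
      _ ≤ κ' * (I.card * Tp vp (am m) W) :=
          mul_le_mul_of_nonneg_right hMS (by positivity)
      _ = κ' * I.card * Tp vp (am m) W := by ring
  refine (add_le_add hfst hsnd).trans ?_
  have : κ' * I.card * Tp vp (am m) W + κ' * I.card * ((1 + 1 / 100000) * Tp vp (am m) W + G)
      = κ' * I.card * ((2 + 1 / 100000) * Tp vp (am m) W + G) := by ring
  rw [this]
  refine mul_le_mul_of_nonneg_left ?_ (by positivity)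
  nlinarith

end OTree
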