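import Pool.Agent.Lib.MP_c11385_co.X.Av
import Pool.Agent.Lib.MP_c11385_co.X.GoodRegime
import Pool.Agent.Lib.MP_c11385_co.X.SmallRegime
import Pool.Agent.Lib.MP_c11385_co.X.BadRegime

set_option autoImplicit false

namespace OTree

open Finset

theorem one_step (N : ℕ) (hN : (N : ℝ) ^ nu = 12) : ∃ C₂ : ℝ, 0 ≤ C₂ ∧
    ∀ {Ξ κ : Type} [Fintype Ξ] [Nonempty Ξ]
    (B : Fin N → Ξ → κ → Finset ℕ) (m : Fin N → ℕ → ℝ) (hm0 : ∀ i y, 0 ≤ m i y)
    (hm1 : ∀ i y, m i y ≤ 1) (κ' : ℝ) (hκ : 0 ≤ κ')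
    (H : ∀ (i : Fin N) (o : κ → ℕ), Function.Injective o → ∀ (J : Finset κ) (W' : Finset ℕ),
      av (fun ξ => (L (B i ξ) o J W' : ℝ) ^ (1 + nu)) ≤ κ' * J.card * Tp vp (m i) W')
    (M S : ℝ) (hM0 : 0 ≤ M)
    (H1 : ∀ (i : Fin N) (o : κ → ℕ) (J : Finset κ) (W' : Finset ℕ),
      av (fun ξ => (L (B i ξ) o J W' : ℝ)) ≤ M * J.card * Tp vp (m i) W')
    (hMS : (N * M * S * 20000) ^ nu * (N * M) ≤ κ')
    (ord : Fin N × κ → ℕ) (hord : Function.Injective ord) (I : Finset (Fin N × κ)) (W : Finset ℕ)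
    (hI : (I.card : ℝ) ≤ S),
    av (fun f => (L (BB B f) ord I W : ℝ) ^ (1 + nu)) ≤ κ' * I.card *
      (10.2 * Tp vp (am m) W + C₂ * (Tp vp (am m) W - av (fun i => Tp vp (m i) W))) := by
  have hN0 : N ≠ 0 := by
    rintro rfl
    rw [Nat.cast_zero, Real.zero_rpow (by unfold nu; norm_num)] at hN
    norm_num at hN
  haveI : NeZero N := ⟨hN0⟩
  have hvp0 : 0 < vp := by unfold vp th; norm_num
  have hvp1 : vp < 1 := by unfold vp th; norm_num
  obtain ⟨C, hC0, hC⟩ := gap_Tp N vp (1 / 100000) hvp0 hvp1 (by norm_num)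
  refine ⟨C + 12 * N * 100000 * C, by positivity, ?_⟩
  intro Ξ κ _ _ B m hm0 hm1 κ' hκ H M S hM0 H1 hMS ord hord I W hI
  set T' := Tp vp (am m) W with hT'
  set Δ := T' - av (fun i => Tp vp (m i) W) with hΔ
  have hΔ0 : 0 ≤ Δ := gap_nonneg N vp hvp0 hvp1 m hm0 W
  have hT'0 : 0 ≤ T' := Tp_nonneg vp _ (fun y => av_nonneg (fun i => hm0 i y)) W
  have hG : ∀ (i : Fin N) (W' : Finset ℕ), W' ⊆ W →
      Tp vp (m i) W' ≤ (1 + 1 / 100000) * Tp vp (am m) W' + C * Δ :=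
    fun i W' h => hC m hm0 i W W' h
  have hI0 : (0 : ℝ) ≤ κ' * I.card := by positivity
  have hNpos : (0 : ℝ) ≤ N := by positivity
  rcases le_total T' 20000 with hsmall | hbig
  · refine (small_regime hN B m hm0 κ' hκ H M S hM0 H1 hMS ord hord I W hI (C * Δ)
      (fun i => hG i W (Finset.Subset.refl W)) hsmall).trans ?_
    apply mul_le_mul_of_nonneg_left _ hI0
    have : 0 ≤ 12 * (N : ℝ) * 100000 * C * Δ := by positivity
    linarith
  · rcases le_total (C * Δ) (1 / 100000 * T') with hgood | hbad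
    · refine (good_regime hN B m hm0 hm1 κ' hκ H ord hord I W (C * Δ) hG hgood hbig).trans ?_
      apply mul_le_mul_of_nonneg_left _ hI0
      have : 0 ≤ (C + 12 * (N : ℝ) * 100000 * C) * Δ := by positivity
      linarith
    · refine (bad_regime hN B m hm0 κ' hκ H ord hord I W).trans ?_
      apply mul_le_mul_of_nonneg_left _ hI0
      have h1 : T' ≤ 100000 * (C * Δ) := by linarith
      have h2 : 12 * (N : ℝ) * T' ≤ 12 * N * (100000 * (C * Δ)) :=
        mul_le_mul_of_nonneg_left h1 (by positivity)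
      have h3 : 0 ≤ C * Δ := by positivity
      linarith

end OTree
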