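import Pool.Agent.Lib.MP_c11385_co.X.Av
import Pool.Agent.Lib.MP_c11385_co.X.OneStep
import Pool.Agent.Lib.MP_c11385_co.X.PlSucc
import Pool.Agent.Lib.MP_c11385_co.X.CB1
import Pool.Agent.Lib.MP_c11385_co.X.CardCol
import Pool.Agent.Lib.MP_c11385_co.X.ChildAvg

set_option autoImplicit false

namespace OTree

open Finset

theorem cb_step (N : ℕ) (hN : (N : ℝ) ^ nu = 12) : ∃ R₀ : ℕ, ∀ (R : ℕ) [NeZero N] [NeZero R],
    R₀ ≤ R → ∀ (k D : ℕ), ((N : ℝ) ^ (k + 1) * (N : ℝ) ^ (k + 1) * 20000) ^ nu * (N : ℝ) ^ (k + 1)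
      ≤ (D : ℝ) ^ nu →
    (∀ (Γ : Col N R k → Finset ℕ), (∀ x, (Γ x).card ≤ D) → ∀ (ord : Lf N k → ℕ),
      Function.Injective ord → ∀ (I : Finset (Lf N k)) (W : Finset ℕ),
      av (fun ω => (L (fun x => Γ (pl N R k ω x)) ord I W : ℝ) ^ (1 + nu))
        ≤ (D : ℝ) ^ nu * (54 / 5) ^ k * I.card * Tp vp (mu Γ) W) →
    (∀ (Γ : Col N R (k + 1) → Finset ℕ), (∀ x, (Γ x).card ≤ D) → ∀ (ord : Lf N (k + 1) → ℕ),
      Function.Injective ord → ∀ (I : Finset (Lf N (k + 1))) (W : Finset ℕ),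
      av (fun ω => (L (fun x => Γ (pl N R (k + 1) ω x)) ord I W : ℝ) ^ (1 + nu))
        ≤ (D : ℝ) ^ nu * (54 / 5) ^ (k + 1) * I.card * Tp vp (mu Γ) W) := by
  obtain ⟨C₂, hC₂, hone⟩ := one_step N hN
  refine ⟨⌈C₂ / 0.6⌉₊, ?_⟩
  intro R _ _ hR k D hcond IH Γ hΓ ord hord I W
  set κ' : ℝ := (D : ℝ) ^ nu * (54 / 5) ^ k with hκ'
  have hκ0 : 0 ≤ κ' := by positivity
  have hNpos : (0 : ℝ) < N := by exact_mod_cast Nat.pos_of_ne_zero (NeZero.ne N)
  have hRpos : (0 : ℝ) < R := by exact_mod_cast Nat.pos_of_ne_zero (NeZero.ne R)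
  rw [av_Om_succ]
  have hstep : ∀ su : Fin R × Dg N R,
      av (fun f : Fin N → Dg N R × Om N R k =>
        (L (fun x => Γ (pl N R (k + 1) (su, f) x)) ord I W : ℝ) ^ (1 + nu))
      ≤ κ' * I.card * (10.2 * Tp vp (am (cm Γ su.1 su.2)) W + C₂ * (Tp vp (am (cm Γ su.1 su.2)) W
        - av (fun i => Tp vp (cm Γ su.1 su.2 i) W))) := by
    intro su
    have hcongr : (fun f : Fin N → Dg N R × Om N R k =>
        (L (fun x => Γ (pl N R (k + 1) (su, f) x)) ord I W : ℝ) ^ (1 + nu))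
        = (fun f => (L (BB (fun i (ξ : Dg N R × Om N R k) (x : Lf N k) =>
        Γ (dig su.1 su.2 i ξ.1, pl N R k ξ.2 x)) f) ord I W : ℝ) ^ (1 + nu)) := by
      funext f
      rw [L_pl_succ]
    rw [hcongr]
    refine hone (fun i (ξ : Dg N R × Om N R k) (x : Lf N k) =>
        Γ (dig su.1 su.2 i ξ.1, pl N R k ξ.2 x)) (cm Γ su.1 su.2) (cm_nonneg Γ su.1 su.2)
        (cm_le_one Γ su.1 su.2) κ' hκ0 ?_ ((N : ℝ) ^ k) ((N : ℝ) ^ (k + 1)) (by positivity) ?_ ?_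
        ord hord I W ?_
    · intro i o ho J W'
      rw [av_prod]
      refine (av_mono (fun w => IH (fun c => Γ (dig su.1 su.2 i w, c)) (fun c => hΓ _) o ho J W')).trans ?_
      rw [av_mul_left]
      apply mul_le_mul_of_nonneg_left _ (by positivity)
      exact child_avg Γ su.1 su.2 i W'
    · intro i o J W'
      rw [av_prod]
      refine (av_mono (fun w => cb1 N R k (fun c => Γ (dig su.1 su.2 i w, c)) o J W')).trans ?_
      rw [av_mul_left]
      apply mul_le_mul_of_nonneg_left _ (by positivity)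
      exact child_avg Γ su.1 su.2 i W'
    · have e1 : (N : ℝ) * (N : ℝ) ^ k = (N : ℝ) ^ (k + 1) := by ring
      rw [e1]
      refine hcond.trans ?_
      rw [hκ']
      have : (1 : ℝ) ≤ (54 / 5) ^ k := one_le_pow₀ (by norm_num)
      have h0 : (0 : ℝ) ≤ (D : ℝ) ^ nu := by positivity
      nlinarith
    · have h1 : I.card ≤ Fintype.card (Lf N (k + 1)) := Finset.card_le_univ I
      rw [card_Lf] at h1
      exact_mod_cast h1
  refine (av_mono hstep).trans ?_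
  rw [av_mul_left, av_add, av_mul_left, av_mul_left]
  have h1 := main_avg_Tp Γ W
  have h2 := gap_avg_Tp Γ W
  have hT0 : 0 ≤ Tp vp (mu Γ) W := by
    apply Tp_nonneg
    intro y
    unfold mu
    apply av_nonneg
    intro x
    split_ifs <;> norm_num
  have h3 : C₂ * (Tp vp (mu Γ) W / R) ≤ 0.6 * Tp vp (mu Γ) W := by
    have : C₂ / 0.6 ≤ R := (Nat.le_ceil _).trans (by exact_mod_cast hR)
    rw [div_le_iff₀ (by norm_num)] at this
    rw [mul_div_assoc', div_le_iff₀ hRpos]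
    nlinarith
  have h4 : C₂ * av (fun su : Fin R × Dg N R => Tp vp (am (cm Γ su.1 su.2)) W
        - av (fun i => Tp vp (cm Γ su.1 su.2 i) W)) ≤ C₂ * (Tp vp (mu Γ) W / R) :=
    mul_le_mul_of_nonneg_left h2 hC₂
  calc κ' * I.card * (10.2 * av (fun su : Fin R × Dg N R => Tp vp (am (cm Γ su.1 su.2)) W)
        + C₂ * av (fun su : Fin R × Dg N R => Tp vp (am (cm Γ su.1 su.2)) W
        - av (fun i => Tp vp (cm Γ su.1 su.2 i) W)))
      ≤ κ' * I.card * (54 / 5 * Tp vp (mu Γ) W) := by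
        apply mul_le_mul_of_nonneg_left _ (by positivity)
        linarith
    _ = (D : ℝ) ^ nu * (54 / 5) ^ (k + 1) * I.card * Tp vp (mu Γ) W := by
        rw [hκ', pow_succ]; ring

end OTree
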