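import Pool.Agent.Lib.MP_c11385_co.X.Av
import Pool.Agent.Lib.MP_c11385_co.X.LSum

set_option autoImplicit false

namespace OTree

open Finset

theorem cb_zero (N R D : ℕ) (Γ : Col N R 0 → Finset ℕ) (hΓ : ∀ x, (Γ x).card ≤ D)
    (ord : Lf N 0 → ℕ) (I : Finset (Lf N 0)) (W : Finset ℕ) :
    av (fun ω => (L (fun x => Γ (pl N R 0 ω x)) ord I W : ℝ) ^ (1 + nu))
      ≤ (D : ℝ) ^ nu * I.card * Tp vp (mu Γ) W := by
  have hnu : (0 : ℝ) < nu := by unfold nu; norm_num
  have hvp : vp ≠ 0 := by unfold vp th; norm_num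
  -- the masses
  have hmu : ∀ y, mu Γ y = if y ∈ Γ (() : Unit) then (1 : ℝ) else 0 := by
    intro y
    have h1 : (fun x : Col N R 0 => if y ∈ Γ x then (1 : ℝ) else 0)
        = fun _ => if y ∈ Γ (() : Unit) then (1 : ℝ) else 0 := by
      funext x
      rfl
    unfold mu
    rw [h1]
    exact av_const (Ω := Unit) _
  have hTp : Tp vp (mu Γ) W = ((Γ (() : Unit) ∩ W).card : ℝ) := by
    unfold Tp
    have h2 : ∀ y ∈ W, (mu Γ y) ^ vp = if y ∈ Γ (() : Unit) then (1 : ℝ) else 0 := by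
      intro y _
      rw [hmu]
      split_ifs
      · exact Real.one_rpow _
      · exact Real.zero_rpow hvp
    rw [Finset.sum_congr rfl h2, Finset.sum_ite, Finset.sum_const, Finset.sum_const_zero, add_zero,
      nsmul_eq_mul, mul_one, Finset.filter_mem_eq_inter, Finset.inter_comm]
  have hI : I.card ≤ 1 := by
    have h3 : I.card ≤ Fintype.card Unit := Finset.card_le_univ (α := Unit) I
    simpa using h3
  have hK : (Γ (() : Unit) ∩ W).card ≤ D :=
    (Finset.card_le_card Finset.inter_subset_left).trans (hΓ _)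
  rw [hTp]
  refine av_le_of_le (Ω := Unit) (fun ω => ?_)
  have hL := L_le_sum_card (fun x : Lf N 0 => Γ (pl N R 0 ω x)) ord I W
  have h4 : ∑ i ∈ I, ((fun x : Lf N 0 => Γ (pl N R 0 ω x)) i ∩ W).card
      = I.card * (Γ (() : Unit) ∩ W).card := by
    rw [← smul_eq_mul, ← Finset.sum_const]
    rfl
  rw [h4] at hL
  rcases Nat.eq_zero_or_pos I.card with h0 | h1
  · have h5 : L (fun x : Lf N 0 => Γ (pl N R 0 ω x)) ord I W = 0 := by
      rw [h0, zero_mul] at hL
      exact Nat.le_zero.1 hL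
    show ((L (fun x : Lf N 0 => Γ (pl N R 0 ω x)) ord I W : ℕ) : ℝ) ^ (1 + nu) ≤ _
    rw [h5, Nat.cast_zero, Real.zero_rpow (by positivity)]
    positivity
  · have hI1 : I.card = 1 := le_antisymm hI h1
    rw [hI1, one_mul] at hL
    show ((L (fun x : Lf N 0 => Γ (pl N R 0 ω x)) ord I W : ℕ) : ℝ) ^ (1 + nu) ≤ _
    rw [hI1, Nat.cast_one, mul_one]
    generalize L (fun x : Lf N 0 => Γ (pl N R 0 ω x)) ord I W = l at hL ⊢
    generalize (Γ (() : Unit) ∩ W).card = K at hL hK ⊢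
    have hl0 : (0 : ℝ) ≤ (l : ℝ) := Nat.cast_nonneg _
    have hlK : (l : ℝ) ≤ (K : ℝ) := by exact_mod_cast hL
    have hlD : (l : ℝ) ≤ (D : ℝ) := by exact_mod_cast (hL.trans hK)
    rcases hl0.eq_or_lt with h6 | h6
    · rw [← h6, Real.zero_rpow (by positivity)]
      positivity
    · rw [Real.rpow_add h6, Real.rpow_one, mul_comm]
      exact mul_le_mul (Real.rpow_le_rpow hl0 hlD hnu.le) hlK hl0 (by positivity)

end OTree
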