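import Pool.Agent.Lib.MP_c11385_co.X.Av
import Pool.Agent.Lib.MP_c11385_co.X.CBstep
import Pool.Agent.Lib.MP_c11385_co.X.CBzero

set_option autoImplicit false

namespace OTree

open Finset

theorem cb (N : ℕ) (hN : (N : ℝ) ^ nu = 12) : ∃ R₀ : ℕ, ∀ (R : ℕ) [NeZero N] [NeZero R],
    R₀ ≤ R → ∀ (k D : ℕ), ((N : ℝ) ^ k * (N : ℝ) ^ k * 20000) ^ nu * (N : ℝ) ^ k ≤ (D : ℝ) ^ nu →
    ∀ (Γ : Col N R k → Finset ℕ), (∀ x, (Γ x).card ≤ D) → ∀ (ord : Lf N k → ℕ),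
      Function.Injective ord → ∀ (I : Finset (Lf N k)) (W : Finset ℕ),
      av (fun ω => (L (fun x => Γ (pl N R k ω x)) ord I W : ℝ) ^ (1 + nu))
        ≤ (D : ℝ) ^ nu * (54 / 5) ^ k * I.card * Tp vp (mu Γ) W := by
  obtain ⟨R₀, hR₀⟩ := cb_step N hN
  refine ⟨R₀, ?_⟩
  intro R _ _ hR k
  induction k with
  | zero =>
    intro D _ Γ hΓ ord _ I W
    rw [pow_zero, mul_one]
    exact cb_zero N R D Γ hΓ ord I W
  | succ k IH =>
    intro D hD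
    refine hR₀ R hR k D hD (IH D ?_)
    refine le_trans ?_ hD
    have hN1 : (1 : ℝ) ≤ N := by exact_mod_cast Nat.pos_of_ne_zero (NeZero.ne N)
    have h1 : (N : ℝ) ^ k ≤ (N : ℝ) ^ (k + 1) := pow_le_pow_right₀ hN1 (Nat.le_succ k)
    have hnu : 0 ≤ nu := by unfold nu; norm_num
    gcongr

end OTree
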