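import Mathlib

/-!
# Ordered Ramsey numbers of two-interval matchings against the triangle: definitions

Rows are natural numbers. For a family `A : ι → Finset ℕ` (the rows which are blue neighbours of the
column at which the leaf `i` is placed) and an order `ord : ι → ℕ` of the leaves, a chain in a set `W`
of rows is a set `Y ⊆ W` such that each row `y ∈ Y` is served by a leaf `j y` with `y ∈ A (j y)`,
where `ord (j y)` is nondecreasing in `y`. `L A ord I W` is the largest size of a chain which is
served by leaves of `I`.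

The random placement of the `N ^ k` leaves `Lf N k` in the columns `Col N R k`: in each of the `k`
steps a column has `R` digits, and a leaf has one digit `i : Fin N`. The digit number `s` of the
column is `i`, the digits before are `u j` (common to all children), the digits after are `w j`
(chosen anew for each child).
-/

set_option autoImplicit false

namespace OTree

open Finset

/-- `Y` is a chain in `W`, served by leaves of `I` -/
def Serves {ι : Type} (A : ι → Finset ℕ) (ord : ι → ℕ) (I : Finset ι) (W Y : Finset ℕ) : Prop :=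
  Y ⊆ W ∧ ∃ j : ℕ → ι, (∀ y ∈ Y, j y ∈ I ∧ y ∈ A (j y)) ∧
    ∀ y ∈ Y, ∀ y' ∈ Y, y ≤ y' → ord (j y) ≤ ord (j y')

open Classical in
/-- the largest size of a chain in `W` served by leaves of `I` -/
noncomputable def L {ι : Type} (A : ι → Finset ℕ) (ord : ι → ℕ) (I : Finset ι) (W : Finset ℕ) : ℕ :=
  (W.powerset.filter (fun Y => Serves A ord I W Y)).sup Finset.card

/-- the average of a function on a finite type -/
noncomputable def av {Ω : Type} [Fintype Ω] (f : Ω → ℝ) : ℝ := (∑ ω, f ω) / Fintype.card Ω

/-- the fraction of the columns which are adjacent to the row `y` -/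
noncomputable def mu {C : Type} [Fintype C] (Γ : C → Finset ℕ) (y : ℕ) : ℝ :=
  av (fun x => if y ∈ Γ x then (1 : ℝ) else 0)

/-- the potential of a mass function -/
noncomputable def Tp (p : ℝ) (m : ℕ → ℝ) (W : Finset ℕ) : ℝ := ∑ y ∈ W, (m y) ^ p

/-- the cells `R` and `R'` (segment, window) are not discordant -/
def NonDisc {q : ℕ} (R R' : Fin q × Fin q) : Prop :=
  (R.1 < R'.1 → R.2 ≤ R'.2) ∧ (R'.1 < R.1 → R'.2 ≤ R.2)

instance {q : ℕ} (R R' : Fin q × Fin q) : Decidable (NonDisc R R') := by
  unfold NonDisc; infer_instance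

/-- strings of `R` digits -/
abbrev Dg (N R : ℕ) := Fin R → Fin N

/-- the number with given digits, the digit number 0 is the most significant one -/
def dnum (N : ℕ) : ∀ R : ℕ, Dg N R → ℕ
  | 0, _ => 0
  | R + 1, d => (d 0).val * N ^ R + dnum N R (fun j => d j.succ)

/-- the leaves -/
def Lf (N : ℕ) : ℕ → Type
  | 0 => Unit
  | k + 1 => Fin N × Lf N k

/-- the columns -/
def Col (N R : ℕ) : ℕ → Type
  | 0 => Unit
  | k + 1 => Dg N R × Col N R k

/-- the randomness -/
def Om (N R : ℕ) : ℕ → Type
  | 0 => Unit
  | k + 1 => (Fin R × Dg N R) × (Fin N → Dg N R × Om N R k)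

instance instFintypeLf (N : ℕ) : ∀ k, Fintype (Lf N k)
  | 0 => inferInstanceAs (Fintype Unit)
  | k + 1 => by
      haveI := instFintypeLf N k
      exact inferInstanceAs (Fintype (Fin N × Lf N k))

instance instNonemptyLf (N : ℕ) [NeZero N] : ∀ k, Nonempty (Lf N k)
  | 0 => inferInstanceAs (Nonempty Unit)
  | k + 1 => by
      have := instNonemptyLf N k
      exact inferInstanceAs (Nonempty (Fin N × Lf N k))

instance instFintypeCol (N R : ℕ) : ∀ k, Fintype (Col N R k)
  | 0 => inferInstanceAs (Fintype Unit)
  | k + 1 => by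
      haveI := instFintypeCol N R k
      exact inferInstanceAs (Fintype (Dg N R × Col N R k))

instance instNonemptyCol (N R : ℕ) [NeZero N] : ∀ k, Nonempty (Col N R k)
  | 0 => inferInstanceAs (Nonempty Unit)
  | k + 1 => by
      have := instNonemptyCol N R k
      exact inferInstanceAs (Nonempty (Dg N R × Col N R k))

instance instFintypeOm (N R : ℕ) : ∀ k, Fintype (Om N R k)
  | 0 => inferInstanceAs (Fintype Unit)
  | k + 1 => by
      haveI := instFintypeOm N R k
      exact inferInstanceAs (Fintype ((Fin R × Dg N R) × (Fin N → Dg N R × Om N R k)))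

instance instNonemptyOm (N R : ℕ) [NeZero N] [NeZero R] : ∀ k, Nonempty (Om N R k)
  | 0 => inferInstanceAs (Nonempty Unit)
  | k + 1 => by
      have := instNonemptyOm N R k
      exact inferInstanceAs (Nonempty ((Fin R × Dg N R) × (Fin N → Dg N R × Om N R k)))

/-- the digits of a column: `u j` before `s`, `i` at `s`, `w j` after `s` -/
def dig {N R : ℕ} (s : Fin R) (u : Dg N R) (i : Fin N) (w : Dg N R) : Dg N R :=
  fun j => if j < s then u j else if j = s then i else w j

/-- the digits `u j` for `j < t`, and `w j` for `t ≤ j` -/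
def mix {N R : ℕ} (t : ℕ) (u w : Dg N R) : Dg N R :=
  fun j => if j.val < t then u j else w j

/-- the random placement of the leaves in the columns -/
def pl (N R : ℕ) : ∀ k, Om N R k → Lf N k → Col N R k
  | 0, _, _ => ()
  | k + 1, ω, x => (dig ω.1.1 ω.1.2 x.1 (ω.2 x.1).1, pl N R k (ω.2 x.1).2 x.2)

/-- the number of a leaf -/
def lnum (N : ℕ) : ∀ k, Lf N k → ℕ
  | 0, _ => 0
  | k + 1, x => x.1.val * N ^ k + lnum N k x.2

/-- the number of a column -/
def cnum (N R : ℕ) : ∀ k, Col N R k → ℕ
  | 0, _ => 0
  | k + 1, c => dnum N R c.1 * (N ^ R) ^ k + cnum N R k c.2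

/-- the leaf with a given number (modulo `N ^ k`) -/
def lf (N : ℕ) [NeZero N] : ∀ k, ℕ → Lf N k
  | 0, _ => ()
  | k + 1, p => (Fin.ofNat N (p / N ^ k), lf N k (p % N ^ k))

/-- the family of the leaves of all children -/
def BB {N : ℕ} {Ξ κ : Type} (B : Fin N → Ξ → κ → Finset ℕ) (f : Fin N → Ξ) :
    Fin N × κ → Finset ℕ := fun p => B p.1 (f p.1) p.2

/-- the leaves of the child `i` -/
noncomputable def chI {N : ℕ} {κ : Type} (I : Finset (Fin N × κ)) (i : Fin N) : Finset κ :=
  I.preimage (fun x => (i, x)) (fun _ _ _ _ h => (Prod.mk.inj h).2)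

/-- the chain number of the child `i` -/
noncomputable def XT {N : ℕ} {Ξ κ : Type} (B : Fin N → Ξ → κ → Finset ℕ) (ord : Fin N × κ → ℕ)
    (I : Finset (Fin N × κ)) (W : Finset ℕ) (i : Fin N) (ξ : Ξ) : ℝ :=
  (L (B i ξ) (fun x => ord (i, x)) (chI I i) W : ℝ)

/-- the chain number of the child `i` in the cell `R` (segment, window) -/
noncomputable def XC {N q : ℕ} {Ξ κ : Type} (B : Fin N → Ξ → κ → Finset ℕ) (ord : Fin N × κ → ℕ)
    (I : Finset (Fin N × κ)) (W : Finset ℕ) (seg : Fin N × κ → Fin q) (win : ℕ → Fin q)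
    (i : Fin N) (R : Fin q × Fin q) (ξ : Ξ) : ℝ :=
  (L (B i ξ) (fun x => ord (i, x)) ((chI I i).filter (fun x => seg (i, x) = R.1))
    (W.filter (fun y => win y = R.2)) : ℝ)

/-- the average of the mass functions of the children -/
noncomputable def am {N : ℕ} (m : Fin N → ℕ → ℝ) (y : ℕ) : ℝ := av (fun i => m i y)

/-- the average of `φ` over the strings with the first `t` digits of `u` -/
noncomputable def pm {N R : ℕ} (φ : Dg N R → ℝ) (t : ℕ) (u : Dg N R) : ℝ := av (fun w => φ (mix t u w))

/-- the average of `φ` over the strings with the digits `u j` for `j < s` and `i` for `j = s` -/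
noncomputable def pmi {N R : ℕ} (φ : Dg N R → ℝ) (s : Fin R) (u : Dg N R) (i : Fin N) : ℝ :=
  av (fun w => φ (dig s u i w))

/-- the number 1/2000 -/
noncomputable def nu : ℝ := 1 / 2000

/-- the number 2000/2001 = 1/(1+nu) -/
noncomputable def rr : ℝ := 2000 / 2001

/-- the number 1/1000000 -/
noncomputable def th : ℝ := 1 / 1000000

/-- the exponent of the potential -/
noncomputable def vp : ℝ := 1 - th

end OTree
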