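import Pool.Agent.Lib.MP_c11385_co.X.Av

set_option autoImplicit false

namespace OTree

open Finset

/-- `g = ⌈n ^ (2ε)⌉`, `l ≤ n ^ (1/R')` -/
theorem small_facts (N R' : ℕ) (hN : 1 < N) (hR : 4004 ≤ R') : ∃ n₀ : ℕ, ∀ n : ℕ, n₀ ≤ n →
    ∀ m : ℕ, ((N : ℝ) ^ R') ^ m ≤ (n : ℝ) ^ (1 - th / R') →
      (n : ℝ) ^ (1 - th / R') < ((N : ℝ) ^ R') ^ (m + 1) →
    4 * (⌈(n : ℝ) ^ (2 * (th / R'))⌉₊ * N ^ m) ≤ n ∧
    ((N : ℝ) ^ m * (N : ℝ) ^ m * 20000) ^ nu * (N : ℝ) ^ m ≤ (n : ℝ) ^ nu ∧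
    (n : ℝ) < 2 ^ ((⌈(n : ℝ) ^ (2 * (th / R'))⌉₊ : ℝ) * ((N : ℝ) ^ R') ^ m / n) := by
  have hRr : (4004 : ℝ) ≤ (R' : ℝ) := by exact_mod_cast hR
  have hRpos : (0 : ℝ) < (R' : ℝ) := by linarith
  set e : ℝ := th / R' with he
  have he0 : 0 < e := by rw [he]; unfold th; positivity
  have he1 : e ≤ 1 / 1000 := by
    rw [he, div_le_iff₀ hRpos]
    unfold th
    nlinarith
  have hN0 : (1 : ℝ) < (N : ℝ) := by exact_mod_cast hN
  have hC : (0 : ℝ) < (N : ℝ) ^ R' := by positivity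
  have hl2 : (0 : ℝ) < Real.log 2 := Real.log_pos (by norm_num)
  -- the logarithm is small
  have hlog : ∀ᶠ x : ℝ in Filter.atTop, ‖Real.log x‖ ≤ Real.log 2 / (2 * (N : ℝ) ^ R') * ‖x ^ e‖ :=
    (isLittleO_log_rpow_atTop he0).bound (by positivity)
  obtain ⟨X, hX⟩ := Filter.eventually_atTop.1 hlog
  refine ⟨max ⌈X⌉₊ 400000000, fun n hn m hm1 hm2 => ?_⟩
  have hn1 : X ≤ (n : ℝ) := (Nat.le_ceil X).trans (by exact_mod_cast (le_max_left _ _).trans hn)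
  have hn2 : (400000000 : ℝ) ≤ (n : ℝ) := by exact_mod_cast (le_max_right _ _).trans hn
  set x : ℝ := (n : ℝ) with hx
  have hx1 : 1 ≤ x := by linarith
  have hx0 : 0 < x := by linarith
  -- l ≤ x ^ (1/4004)
  set l : ℝ := (N : ℝ) ^ m with hl
  have hl1 : 1 ≤ l := one_le_pow₀ hN0.le
  have hl0 : 0 < l := by linarith
  have hlR : l ^ R' ≤ x := by
    calc l ^ R' = ((N : ℝ) ^ R') ^ m := by rw [hl, ← pow_mul, ← pow_mul, mul_comm]
      _ ≤ x ^ (1 - e) := hm1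
      _ ≤ x ^ (1 : ℝ) := Real.rpow_le_rpow_of_exponent_le hx1 (by linarith)
      _ = x := Real.rpow_one x
  have hl4004 : l ^ 4004 ≤ x := (pow_le_pow_right₀ hl1 hR).trans hlR
  have hlx : l ≤ x ^ ((1 : ℝ) / 4004) := by
    have h1 : (l ^ 4004) ^ ((1 : ℝ) / 4004) = l := by
      rw [← Real.rpow_natCast, ← Real.rpow_mul hl0.le]
      norm_num
    rw [← h1]
    exact Real.rpow_le_rpow (by positivity) hl4004 (by norm_num)
  have hsqrt : 20000 ≤ x ^ ((1 : ℝ) / 2) := by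
    have h1 : (20000 : ℝ) = (400000000 : ℝ) ^ ((1 : ℝ) / 2) := by
      rw [← Real.sqrt_eq_rpow]
      rw [show (400000000 : ℝ) = 20000 ^ 2 by norm_num, Real.sqrt_sq (by norm_num)]
    rw [h1]
    exact Real.rpow_le_rpow (by norm_num) hn2 (by norm_num)
  have hxx : x ^ ((1 : ℝ) / 2) * x ^ ((1 : ℝ) / 2) = x := by
    rw [← Real.rpow_add hx0]; norm_num
  have hg1 : 1 ≤ x ^ (2 * e) := Real.one_le_rpow hx1 (by positivity)
  have hg2 : (⌈x ^ (2 * e)⌉₊ : ℝ) ≤ 2 * x ^ (2 * e) := by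
    have := Nat.ceil_lt_add_one (zero_le_one.trans hg1)
    linarith
  refine ⟨?_, ?_, ?_⟩
  · have h1 : (4 * (⌈x ^ (2 * e)⌉₊ * (N : ℝ) ^ m) : ℝ) ≤ x := by
      calc (4 * (⌈x ^ (2 * e)⌉₊ * (N : ℝ) ^ m) : ℝ) ≤ 4 * ((2 * x ^ (2 * e)) * x ^ ((1 : ℝ) / 4004)) := by
            gcongr
        _ = 8 * (x ^ (2 * e + 1 / 4004)) := by rw [Real.rpow_add hx0]; ring
        _ ≤ 8 * x ^ ((1 : ℝ) / 2) := by
            gcongr 8 * ?_
            exact Real.rpow_le_rpow_of_exponent_le hx1 (by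
              have : (2 : ℝ) * e ≤ 2 / 1000 := by linarith
              linarith [show (2 : ℝ) / 1000 + 1 / 4004 ≤ 1 / 2 by norm_num])
        _ ≤ x ^ ((1 : ℝ) / 2) * x ^ ((1 : ℝ) / 2) := by
            gcongr
            linarith
        _ = x := hxx
    have h2 : ((4 * (⌈x ^ (2 * e)⌉₊ * N ^ m) : ℕ) : ℝ) ≤ (n : ℝ) := by
      push_cast
      exact h1
    exact_mod_cast h2
  · have h1 : l = (l ^ 2000) ^ nu := by
      unfold nu
      rw [← Real.rpow_natCast, ← Real.rpow_mul hl0.le]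
      norm_num
    have h2 : (l * l * 20000) ^ nu * l = (l * l * 20000 * l ^ 2000) ^ nu := by
      rw [Real.mul_rpow (x := l * l * 20000) (y := l ^ 2000) (by positivity) (by positivity), ← h1]
    rw [h2]
    refine Real.rpow_le_rpow (by positivity) ?_ (by unfold nu; norm_num)
    have h3 : l * l * 20000 * l ^ 2000 = l ^ 2002 * 20000 := by ring
    have h4 : l ^ 2002 ≤ x ^ ((1 : ℝ) / 2) := by
      have h5 : (l ^ 4004) ^ ((1 : ℝ) / 2) = l ^ 2002 := by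
        rw [← Real.rpow_natCast, ← Real.rpow_mul hl0.le, ← Real.rpow_natCast]
        norm_num
      rw [← h5]
      exact Real.rpow_le_rpow (by positivity) hl4004 (by norm_num)
    rw [h3]
    calc l ^ 2002 * 20000 ≤ x ^ ((1 : ℝ) / 2) * x ^ ((1 : ℝ) / 2) := by gcongr
      _ = x := hxx
  · have h1 : x ^ e / (N : ℝ) ^ R' ≤ (⌈x ^ (2 * e)⌉₊ : ℝ) * ((N : ℝ) ^ R') ^ m / x := by
      have h2 : x ^ (1 - e) ≤ (N : ℝ) ^ R' * ((N : ℝ) ^ R') ^ m := by
        rw [← pow_succ']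
        exact hm2.le
      have h3 : x ^ (2 * e) ≤ (⌈x ^ (2 * e)⌉₊ : ℝ) := Nat.le_ceil _
      rw [div_le_div_iff₀ hC hx0]
      calc x ^ e * x = x ^ (2 * e) * x ^ (1 - e) := by
            rw [← Real.rpow_add hx0]
            nth_rewrite 2 [← Real.rpow_one x]
            rw [← Real.rpow_add hx0]
            congr 1
            ring
        _ ≤ (⌈x ^ (2 * e)⌉₊ : ℝ) * ((N : ℝ) ^ R' * ((N : ℝ) ^ R') ^ m) := by gcongr
        _ = (⌈x ^ (2 * e)⌉₊ : ℝ) * ((N : ℝ) ^ R') ^ m * (N : ℝ) ^ R' := by ring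
    have h4 : x < 2 ^ (x ^ e / (N : ℝ) ^ R') := by
      have h5 := hX x hn1
      rw [Real.norm_of_nonneg (Real.log_nonneg hx1), Real.norm_of_nonneg (by positivity)] at h5
      have h6 : (0 : ℝ) < x ^ e := by positivity
      rw [← Real.log_lt_log_iff hx0 (by positivity), Real.log_rpow (by norm_num)]
      calc Real.log x ≤ Real.log 2 / (2 * (N : ℝ) ^ R') * x ^ e := h5
        _ = (x ^ e / (N : ℝ) ^ R' * Real.log 2) / 2 := by field_simp
        _ < x ^ e / (N : ℝ) ^ R' * Real.log 2 := by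
            have : 0 < x ^ e / (N : ℝ) ^ R' * Real.log 2 := by positivity
            linarith
    exact h4.trans_le (Real.rpow_le_rpow_of_exponent_le (by norm_num) h1)

end OTree
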