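import Pool.Agent.Lib.MP_c11385_co.X.Av

set_option autoImplicit false

namespace OTree

open Finset

theorem exists_N : ∃ N : ℕ, (N : ℝ) ^ nu = 12 := by
  refine ⟨12 ^ 2000, ?_⟩
  have h := Real.pow_rpow_inv_natCast (x := (12 : ℝ)) (n := 2000) (by norm_num) (by norm_num)
  have e : nu = (((2000 : ℕ) : ℝ))⁻¹ := by
    unfold nu
    norm_num
  rw [Nat.cast_pow, e]
  exact_mod_cast h

end OTree
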