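import Pool.Agent.Lib.MP_c11385_co.X.Av
import Pool.Agent.Lib.MP_c11385_co.X.Cnum
import Pool.Agent.Lib.MP_c11385_co.X.CardCol

set_option autoImplicit false

namespace OTree

open Finset

theorem mass_sum {N R m n r : ℕ} [NeZero N] (Γ : ℕ → Finset ℕ)
    (hcol : ∀ (y : ℕ) (S : Finset ℕ), (S.filter (fun x => y ∈ Γ x)).card ≤ n) (y : ℕ) :
    ∑ a : Fin r, mu (fun c : Col N R m => Γ (a.val * (N ^ R) ^ m + cnum N R m c)) y
      ≤ (n : ℝ) / ((N : ℝ) ^ R) ^ m := by
  classical
  have hcard : (Fintype.card (Col N R m) : ℝ) = ((N : ℝ) ^ R) ^ m := by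
    rw [card_Col]; push_cast; rfl
  unfold mu av
  rw [← Finset.sum_div, hcard]
  refine div_le_div_of_nonneg_right ?_ (by positivity)
  have h1 : ∑ a : Fin r, ∑ c : Col N R m,
      (if y ∈ Γ (a.val * (N ^ R) ^ m + cnum N R m c) then (1 : ℝ) else 0)
      = ((Finset.univ : Finset (Fin r × Col N R m)).filter
        (fun p => y ∈ Γ (p.1.val * (N ^ R) ^ m + cnum N R m p.2))).card := by
    rw [Finset.card_filter, Fintype.sum_prod_type]
    push_cast
    rfl
  rw [h1]
  have h2 : ((Finset.univ : Finset (Fin r × Col N R m)).filter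
        (fun p => y ∈ Γ (p.1.val * (N ^ R) ^ m + cnum N R m p.2))).card
      ≤ ((Finset.range (r * (N ^ R) ^ m)).filter (fun x => y ∈ Γ x)).card := by
    refine Finset.card_le_card_of_injOn
      (fun p => p.1.val * (N ^ R) ^ m + cnum N R m p.2) ?_ ?_
    · intro p hp
      have hp' := (Finset.mem_filter.mp (Finset.mem_coe.mp hp)).2
      refine Finset.mem_coe.mpr (Finset.mem_filter.mpr ⟨Finset.mem_range.mpr ?_, hp'⟩)
      have h3 := cnum_lt N R m p.2
      have h4 : (p.1.val + 1) * (N ^ R) ^ m ≤ r * (N ^ R) ^ m :=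
        Nat.mul_le_mul_right _ p.1.isLt
      have h5 : (p.1.val + 1) * (N ^ R) ^ m = p.1.val * (N ^ R) ^ m + (N ^ R) ^ m := by ring
      show p.1.val * (N ^ R) ^ m + cnum N R m p.2 < r * (N ^ R) ^ m
      omega
    · intro p _ p' _ h
      have h3 := cnum_lt N R m p.2
      have h3' := cnum_lt N R m p'.2
      have hpos : 0 < (N ^ R) ^ m := by omega
      have h4 : p.1.val * (N ^ R) ^ m + cnum N R m p.2
          = p'.1.val * (N ^ R) ^ m + cnum N R m p'.2 := h
      have e1 : (p.1.val * (N ^ R) ^ m + cnum N R m p.2) / (N ^ R) ^ m = p.1.val := by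
        rw [mul_comm, Nat.mul_add_div hpos, Nat.div_eq_of_lt h3, add_zero]
      have e2 : (p'.1.val * (N ^ R) ^ m + cnum N R m p'.2) / (N ^ R) ^ m = p'.1.val := by
        rw [mul_comm, Nat.mul_add_div hpos, Nat.div_eq_of_lt h3', add_zero]
      have h5 : p.1.val = p'.1.val := by rw [← e1, ← e2, h4]
      have h6 : cnum N R m p.2 = cnum N R m p'.2 := by
        rw [h5] at h4; omega
      exact Prod.ext (Fin.ext h5) (cnum_inj N R m h6)
  exact_mod_cast h2.trans (hcol y _)

end OTree
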