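import Pool.Agent.Lib.MP_c11385_co.X.Av

set_option autoImplicit false

namespace OTree

open Finset

theorem holder_real {r : ℕ} (x : Fin r → ℕ) (e T : Fin r → ℝ) (κ : ℝ) (l g : ℕ) (hl : 0 < l)
    (hg : 0 < g) (hx : ∀ a, x a ≤ l) (hxs : ∑ a, x a ≤ g * l) (he : ∀ a, 0 ≤ e a)
    (hT : ∀ a, 0 ≤ T a) (hκ : 0 ≤ κ) (h : ∀ a, (e a) ^ (1 + nu) ≤ κ * x a * T a) :
    (∑ a, e a) ^ (1 + nu) ≤ κ * l * (g : ℝ) ^ nu * ∑ a ∈ Finset.univ.filter (fun a => x a ≠ 0), T a := by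
  classical
  set S : Finset (Fin r) := Finset.univ.filter (fun a => x a ≠ 0) with hS
  have hnu : (1 : ℝ) + nu = 2001 / 2000 := by unfold nu; norm_num
  have hnu0 : (0 : ℝ) < 1 + nu := by rw [hnu]; norm_num
  -- off `S` the numbers `e a` vanish
  have hoff : ∀ a, a ∉ S → e a = 0 := by
    intro a ha
    have hxa : x a = 0 := by
      by_contra hne
      exact ha (by rw [hS]; exact Finset.mem_filter.2 ⟨Finset.mem_univ _, hne⟩)
    have h1 := h a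
    rw [hxa] at h1
    simp only [Nat.cast_zero, mul_zero, zero_mul] at h1
    by_contra hne
    have hpos : 0 < e a := lt_of_le_of_ne (he a) (Ne.symm hne)
    have := Real.rpow_pos_of_pos hpos (1 + nu)
    linarith
  have hsum : ∑ a, e a = ∑ a ∈ S, e a := by
    symm
    apply Finset.sum_subset (Finset.subset_univ S)
    intro a _ ha
    exact hoff a ha
  -- bound of `e a`
  have hea : ∀ a, e a ≤ (x a : ℝ) ^ ((2000 : ℝ) / 2001) * (κ * T a) ^ ((2000 : ℝ) / 2001) := by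
    intro a
    have hx0 : (0 : ℝ) ≤ x a := Nat.cast_nonneg _
    have hkT : 0 ≤ κ * T a := mul_nonneg hκ (hT a)
    have h1 : e a = ((e a) ^ (1 + nu)) ^ ((2000 : ℝ) / 2001) := by
      rw [← Real.rpow_mul (he a), hnu]
      norm_num
    rw [h1, ← Real.mul_rpow hx0 hkT]
    apply Real.rpow_le_rpow (Real.rpow_nonneg (he a) _) _ (by norm_num)
    calc (e a) ^ (1 + nu) ≤ κ * x a * T a := h a
      _ = (x a : ℝ) * (κ * T a) := by ring
  -- Hölder's inequality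
  have hconj : Real.HolderConjugate (2001 : ℝ) (2001 / 2000) := by
    rw [Real.holderConjugate_iff]
    constructor
    · norm_num
    · norm_num
  have hH := Real.inner_le_Lp_mul_Lq_of_nonneg S hconj
    (f := fun a => (x a : ℝ) ^ ((2000 : ℝ) / 2001)) (g := fun a => (κ * T a) ^ ((2000 : ℝ) / 2001))
    (fun a _ => Real.rpow_nonneg (Nat.cast_nonneg _) _)
    (fun a _ => Real.rpow_nonneg (mul_nonneg hκ (hT a)) _)
  have hA : ∑ a ∈ S, ((x a : ℝ) ^ ((2000 : ℝ) / 2001)) ^ (2001 : ℝ) = ∑ a ∈ S, (x a : ℝ) ^ (2000 : ℕ) := by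
    refine Finset.sum_congr rfl fun a _ => ?_
    rw [← Real.rpow_mul (Nat.cast_nonneg _), ← Real.rpow_natCast]
    norm_num
  have hB : ∑ a ∈ S, ((κ * T a) ^ ((2000 : ℝ) / 2001)) ^ ((2001 : ℝ) / 2000) = κ * ∑ a ∈ S, T a := by
    rw [Finset.mul_sum]
    refine Finset.sum_congr rfl fun a _ => ?_
    rw [← Real.rpow_mul (mul_nonneg hκ (hT a))]
    norm_num
  rw [hA, hB] at hH
  have hlsum : ∑ a ∈ S, (x a : ℝ) ^ (2000 : ℕ) ≤ (g : ℝ) * (l : ℝ) ^ (2000 : ℕ) := by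
    have hxs' : ∑ a ∈ S, (x a : ℝ) ≤ (g : ℝ) * l := by
      have h1 : ∑ a ∈ S, (x a : ℝ) ≤ ∑ a, (x a : ℝ) :=
        Finset.sum_le_sum_of_subset_of_nonneg (Finset.subset_univ S)
          (fun a _ _ => Nat.cast_nonneg _)
      have h2 : ∑ a, (x a : ℝ) ≤ (g : ℝ) * l := by exact_mod_cast hxs
      exact h1.trans h2
    calc ∑ a ∈ S, (x a : ℝ) ^ (2000 : ℕ) ≤ ∑ a ∈ S, (l : ℝ) ^ (1999 : ℕ) * (x a : ℝ) := by
          refine Finset.sum_le_sum fun a _ => ?_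
          have hle : (x a : ℝ) ≤ l := by exact_mod_cast hx a
          have h0 : (0 : ℝ) ≤ x a := Nat.cast_nonneg _
          calc (x a : ℝ) ^ (2000 : ℕ) = (x a : ℝ) ^ (1999 : ℕ) * (x a : ℝ) := pow_succ _ _
            _ ≤ (l : ℝ) ^ (1999 : ℕ) * (x a : ℝ) :=
              mul_le_mul_of_nonneg_right (pow_le_pow_left₀ h0 hle _) h0
      _ = (l : ℝ) ^ (1999 : ℕ) * ∑ a ∈ S, (x a : ℝ) := by rw [Finset.mul_sum]
      _ ≤ (l : ℝ) ^ (1999 : ℕ) * ((g : ℝ) * l) :=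
          mul_le_mul_of_nonneg_left hxs' (by positivity)
      _ = (g : ℝ) * ((l : ℝ) ^ (1999 : ℕ) * l) := by ring
      _ = (g : ℝ) * (l : ℝ) ^ (2000 : ℕ) := by rw [← pow_succ]
  have hT0 : 0 ≤ ∑ a ∈ S, T a := Finset.sum_nonneg fun a _ => hT a
  have hkT0 : 0 ≤ κ * ∑ a ∈ S, T a := mul_nonneg hκ hT0
  have hX0 : 0 ≤ ∑ a ∈ S, (x a : ℝ) ^ (2000 : ℕ) := Finset.sum_nonneg fun a _ => by positivity
  have hle : ∑ a, e a ≤ ((g : ℝ) * (l : ℝ) ^ (2000 : ℕ)) ^ ((1 : ℝ) / 2001) *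
      (κ * ∑ a ∈ S, T a) ^ ((1 : ℝ) / (2001 / 2000)) := by
    rw [hsum]
    refine (Finset.sum_le_sum fun a _ => hea a).trans (hH.trans ?_)
    exact mul_le_mul_of_nonneg_right (Real.rpow_le_rpow hX0 hlsum (by norm_num))
      (Real.rpow_nonneg hkT0 _)
  have hg0 : (0 : ℝ) ≤ g := Nat.cast_nonneg _
  have hl0 : (0 : ℝ) ≤ l := Nat.cast_nonneg _
  have hgl0 : (0 : ℝ) ≤ (g : ℝ) * (l : ℝ) ^ (2000 : ℕ) := by positivity
  calc (∑ a, e a) ^ (1 + nu) ≤ (((g : ℝ) * (l : ℝ) ^ (2000 : ℕ)) ^ ((1 : ℝ) / 2001) *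
      (κ * ∑ a ∈ S, T a) ^ ((1 : ℝ) / (2001 / 2000))) ^ (1 + nu) :=
        Real.rpow_le_rpow (Finset.sum_nonneg fun a _ => he a) hle hnu0.le
    _ = (((g : ℝ) * (l : ℝ) ^ (2000 : ℕ)) ^ ((1 : ℝ) / 2001)) ^ ((2001 : ℝ) / 2000) *
      ((κ * ∑ a ∈ S, T a) ^ ((1 : ℝ) / (2001 / 2000))) ^ ((2001 : ℝ) / 2000) := by
        rw [hnu, Real.mul_rpow (Real.rpow_nonneg hgl0 _) (Real.rpow_nonneg hkT0 _)]
    _ = ((g : ℝ) * (l : ℝ) ^ (2000 : ℕ)) ^ ((1 : ℝ) / 2000) * (κ * ∑ a ∈ S, T a) := by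
        rw [← Real.rpow_mul hgl0, ← Real.rpow_mul hkT0]
        norm_num
    _ = (g : ℝ) ^ nu * (l : ℝ) * (κ * ∑ a ∈ S, T a) := by
        rw [Real.mul_rpow hg0 (by positivity), ← Real.rpow_natCast (l : ℝ) 2000, ← Real.rpow_mul hl0]
        unfold nu
        norm_num
    _ = κ * l * (g : ℝ) ^ nu * ∑ a ∈ S, T a := by ring

end OTree
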