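import Pool.Agent.Lib.MP_c11385_co.X.Av
import Pool.Agent.Lib.MP_c11385_co.X.PowSum

set_option autoImplicit false

namespace OTree

open Finset

theorem mass_pow {r : ℕ} (S : Finset (Fin r)) (m : Fin r → ℕ → ℝ) (hm : ∀ a y, 0 ≤ m a y)
    (W : Finset ℕ) (v w : ℝ) (hv0 : 0 ≤ v) (hv : ∀ y ∈ W, ∑ a, m a y ≤ v) (hS : (S.card : ℝ) ≤ w) :
    ∑ a ∈ S, Tp vp (m a) W ≤ W.card * (w ^ th * v ^ vp) := by
  have hw0 : 0 ≤ w := le_trans (by positivity) hS
  have hvp0 : 0 < vp := by unfold vp th; norm_num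
  have hvp1 : vp ≤ 1 := by unfold vp th; norm_num
  have hth : 1 - vp = th := by unfold vp; ring
  have hth0 : 0 ≤ th := by unfold th; norm_num
  unfold Tp
  rw [Finset.sum_comm]
  calc ∑ y ∈ W, ∑ a ∈ S, (m a y) ^ vp ≤ ∑ y ∈ W, w ^ th * v ^ vp := by
        refine Finset.sum_le_sum fun y hy => ?_
        have h1 := sum_rpow_le S (fun a => m a y) (fun a _ => hm a y) hvp0 hvp1
        rw [hth] at h1
        refine h1.trans ?_
        have h2 : (S.card : ℝ) ^ th ≤ w ^ th :=
          Real.rpow_le_rpow (by positivity) hS hth0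
        have h3 : (∑ a ∈ S, m a y) ≤ v :=
          (Finset.sum_le_sum_of_subset_of_nonneg (Finset.subset_univ S)
            (fun a _ _ => hm a y)).trans (hv y hy)
        have h4 : (∑ a ∈ S, m a y) ^ vp ≤ v ^ vp :=
          Real.rpow_le_rpow (Finset.sum_nonneg fun a _ => hm a y) h3 hvp0.le
        exact mul_le_mul h2 h4 (Real.rpow_nonneg (Finset.sum_nonneg fun a _ => hm a y) _)
          (Real.rpow_nonneg hw0 _)
    _ = W.card * (w ^ th * v ^ vp) := by
        rw [Finset.sum_const, nsmul_eq_mul]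

end OTree
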