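import Pool.Agent.Lib.MP_c11385_co.X.Av
import Pool.Agent.Lib.MP_c11385_co.X.HolderReal
import Pool.Agent.Lib.MP_c11385_co.X.MassPow
import Pool.Agent.Lib.MP_c11385_co.X.GapTp

set_option autoImplicit false

namespace OTree

open Finset

theorem sum_bound {r : ℕ} (x : Fin r → ℕ) (e : Fin r → ℝ) (m : Fin r → ℕ → ℝ) (W : Finset ℕ)
    (κ v : ℝ) (l g : ℕ) (hl : 0 < l) (hg : 0 < g)
    (hx : ∀ a, x a ≤ l) (hxs : ∑ a, x a ≤ g * l) (he : ∀ a, 0 ≤ e a)
    (hm : ∀ a y, 0 ≤ m a y) (hκ : 0 ≤ κ) (hv0 : 0 ≤ v) (hv : ∀ y ∈ W, ∑ a, m a y ≤ v)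
    (h : ∀ a, (e a) ^ (1 + nu) ≤ κ * x a * Tp vp (m a) W) :
    (∑ a, e a) ^ (1 + nu) ≤ κ * l * (g : ℝ) ^ nu * (W.card * (((g : ℝ) * l) ^ th * v ^ vp)) := by
  refine (holder_real x e (fun a => Tp vp (m a) W) κ l g hl hg hx hxs he
    (fun a => Tp_nonneg vp _ (hm a) W) hκ h).trans ?_
  apply mul_le_mul_of_nonneg_left _ (by positivity)
  apply mass_pow _ m hm W v _ hv0 hv
  have h1 : (Finset.univ.filter (fun a => x a ≠ 0)).card ≤ ∑ a, x a := by
    calc (Finset.univ.filter (fun a => x a ≠ 0)).card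
        = ∑ a ∈ Finset.univ.filter (fun a => x a ≠ 0), 1 := by simp
      _ ≤ ∑ a ∈ Finset.univ.filter (fun a => x a ≠ 0), x a := by
          apply Finset.sum_le_sum
          intro a ha
          have := (Finset.mem_filter.mp ha).2
          omega
      _ ≤ ∑ a, x a := Finset.sum_le_sum_of_subset (Finset.filter_subset _ _)
  exact_mod_cast h1.trans hxs

end OTree
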