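import Pool.Agent.Lib.MP_c11385_co.X.Av
import Pool.Agent.Lib.MP_c11385_co.X.CB
import Pool.Agent.Lib.MP_c11385_co.X.SumBound
import Pool.Agent.Lib.MP_c11385_co.X.MassSum
import Pool.Agent.Lib.MP_c11385_co.X.Blocks

set_option autoImplicit false

namespace OTree

open Finset

/-- the expectation of the sum of the chain numbers of the left blocks -/
theorem exp_bound (N : ℕ) (hN : (N : ℝ) ^ nu = 12) : ∃ R₀ : ℕ, ∀ (R' : ℕ) [NeZero N],
    R₀ ≤ R' + 1 → ∀ (n h m g r : ℕ), 0 < g →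
      ((N : ℝ) ^ m * (N : ℝ) ^ m * 20000) ^ nu * (N : ℝ) ^ m ≤ (n : ℝ) ^ nu →
      (n : ℝ) ^ nu * (54 / 5) ^ m * (N : ℝ) ^ m * (g : ℝ) ^ nu *
        ((4 * (g * (N : ℝ) ^ m) * ((N : ℝ) ^ R') ^ m) *
          (((g : ℝ) * (N : ℝ) ^ m) ^ th * ((n : ℝ) / ((N : ℝ) ^ (R' + 1)) ^ m) ^ vp))
        ≤ (2 * (g * (N : ℝ) ^ m) * ((N : ℝ) ^ R') ^ m / 3) ^ (1 + nu) →
      ∀ (π : Fin h → Fin h), Function.Injective π → ∀ Γ : ℕ → Finset ℕ, (∀ x, (Γ x).card ≤ n) →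
      (∀ (y : ℕ) (S : Finset ℕ), (S.filter (fun x => y ∈ Γ x)).card ≤ n) → ∀ (b : ℕ) (W : Finset ℕ),
      W.card = 4 * (g * N ^ m) * (N ^ R') ^ m →
      ∑ a : Fin r, av (fun ω : Om N (R' + 1) m =>
        (L (fun x : Lf N m => Γ (a.val * (N ^ (R' + 1)) ^ m + cnum N (R' + 1) m
          (pl N (R' + 1) m ω x))) (ordB N m π a.val) (IB N m (g * N ^ m) π a.val b) W : ℝ))
        ≤ ((2 * (g * N ^ m) * (N ^ R') ^ m : ℕ) : ℝ) / 3 := by
  obtain ⟨R₀, hR₀⟩ := cb N hN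
  refine ⟨R₀, ?_⟩
  intro R' _ hR n h m g r hg hcond hnum π hπ Γ hΓ hcol b W hW
  have hNpos : 0 < N := Nat.pos_of_ne_zero (NeZero.ne N)
  have h1 := sum_bound (r := r) (fun a => (IB N m (g * N ^ m) π a.val b).card)
    (fun a => av (fun ω : Om N (R' + 1) m =>
        (L (fun x : Lf N m => Γ (a.val * (N ^ (R' + 1)) ^ m + cnum N (R' + 1) m
          (pl N (R' + 1) m ω x))) (ordB N m π a.val) (IB N m (g * N ^ m) π a.val b) W : ℝ)))
    (fun a => mu (fun c : Col N (R' + 1) m => Γ (a.val * (N ^ (R' + 1)) ^ m + cnum N (R' + 1) m c)))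
    W ((n : ℝ) ^ nu * (54 / 5) ^ m) ((n : ℝ) / ((N : ℝ) ^ (R' + 1)) ^ m) (N ^ m) g
    (Nat.pow_pos hNpos) hg (fun a => card_IB_le N m (g * N ^ m) π a.val b)
    (sum_card_IB_le N m (g * N ^ m) r (Nat.mul_pos hg (Nat.pow_pos hNpos)) π hπ b)
    (fun a => av_nonneg (fun ω => by positivity))
    (fun a y => by
      unfold mu
      apply av_nonneg
      intro x
      split_ifs <;> norm_num)
    (by positivity) (by positivity)
    (fun y _ => mass_sum Γ hcol y)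
    (fun a => by
      refine (rpow_av_le (fun ω => by positivity) (by unfold nu; norm_num)).trans ?_
      exact hR₀ (R' + 1) hR m n hcond (fun c => Γ (a.val * (N ^ (R' + 1)) ^ m + cnum N (R' + 1) m c))
        (fun x => hΓ _) (ordB N m π a.val) (ordB_inj N m π hπ a.val) _ W)
  rw [hW] at h1
  have h2 : ((n : ℝ) ^ nu * (54 / 5) ^ m * ((N ^ m : ℕ) : ℝ) * (g : ℝ) ^ nu *
      (((4 * (g * N ^ m) * (N ^ R') ^ m : ℕ) : ℝ) * (((g : ℝ) * ((N ^ m : ℕ) : ℝ)) ^ th *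
        ((n : ℝ) / ((N : ℝ) ^ (R' + 1)) ^ m) ^ vp)))
      ≤ (((2 * (g * N ^ m) * (N ^ R') ^ m : ℕ) : ℝ) / 3) ^ (1 + nu) := by
    push_cast
    exact hnum
  have h3 := h1.trans h2
  have hnu : 0 < 1 + nu := by unfold nu; norm_num
  exact (Real.rpow_le_rpow_iff (Finset.sum_nonneg (fun a _ => av_nonneg (fun ω => by positivity)))
    (by positivity) hnu).mp h3

end OTree
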