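import Pool.Agent.Lib.MP_c11385_co.X.Av
import Pool.Agent.Lib.MP_c11385_co.X.LBasic

set_option autoImplicit false

namespace OTree

open Finset

/-- a valid placement -/
private def GPl {ι : Type} (A : ι → Finset ℕ) (ord : ι → ℕ) (I : Finset ι) (W : Finset ℕ)
    (f : ι → ℕ) : Prop :=
  (∀ i ∈ I, f i ∈ W ∧ f i ∉ A i) ∧ ∀ i ∈ I, ∀ i' ∈ I, ord i < ord i' → f i < f i'

private theorem GPl.mono {ι : Type} {A : ι → Finset ℕ} {ord : ι → ℕ} {I : Finset ι}
    {W W' : Finset ℕ} {f : ι → ℕ} (h : GPl A ord I W f) (hW : W ⊆ W') : GPl A ord I W' f :=
  ⟨fun i hi => ⟨hW (h.1 i hi).1, (h.1 i hi).2⟩, h.2⟩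

private theorem greedy_aux {ι : Type} (A : ι → Finset ℕ) (ord : ι → ℕ) (I : Finset ι)
    (hord : Function.Injective ord) : ∀ (W : Finset ℕ), (¬ ∃ f : ι → ℕ, GPl A ord I W f) →
      W.card + 1 ≤ L A ord I W + I.card := by
  classical
  induction I using Finset.induction_on_max_value (f := ord) with
  | empty =>
    intro W h
    exact absurd ⟨fun _ => 0, by simp [GPl]⟩ h
  | insert p I' hp hmax ih =>
    intro W h
    have hmax' : ∀ x ∈ I', ord x < ord p := fun x hx =>
      lt_of_le_of_ne (hmax x hx) (fun e => hp (hord e ▸ hx))
    rw [Finset.card_insert_of_notMem hp]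
    by_cases hI' : ∃ f, GPl A ord I' W f
    swap
    · have h1 := ih W hI'
      have h2 : L A ord I' W ≤ L A ord (insert p I') W :=
        L_le_of_map id (Finset.Subset.refl _)
          (fun i hi => ⟨Finset.mem_insert_of_mem hi, Finset.Subset.refl _, rfl⟩)
      omega
    rcases Finset.eq_empty_or_nonempty I' with he | hne
    · -- all rows are in `A p`
      subst he
      have h3 : ∀ y ∈ W, y ∈ A p := by
        intro y hy
        by_contra hn
        refine h ⟨fun _ => y, ?_, ?_⟩
        · intro i hi
          simp at hi
          subst hi
          exact ⟨hy, hn⟩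
        · intro i hi i' hi' hlt
          simp at hi hi'
          subst hi; subst hi'
          exact absurd hlt (lt_irrefl _)
      have h4 : Serves A ord (insert p ∅) W W :=
        ⟨Finset.Subset.refl _, fun _ => p, fun y hy => ⟨by simp, h3 y hy⟩, fun _ _ _ _ _ => le_rfl⟩
      have := le_L h4
      simp only [Finset.card_empty]
      omega
    · -- the smallest row `y0` such that `I'` can be placed up to `y0`
      let T := W.filter (fun y => ∃ f, GPl A ord I' (W.filter (fun z => z ≤ y)) f)
      have hT : T.Nonempty := by
        obtain ⟨f, hf⟩ := hI'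
        obtain ⟨i0, hi0⟩ := hne
        have hWne : W.Nonempty := ⟨_, (hf.1 i0 hi0).1⟩
        refine ⟨W.max' hWne, Finset.mem_filter.2 ⟨Finset.max'_mem _ _, f, ?_, hf.2⟩⟩
        intro i hi
        exact ⟨Finset.mem_filter.2 ⟨(hf.1 i hi).1, Finset.le_max' _ _ (hf.1 i hi).1⟩, (hf.1 i hi).2⟩
      obtain ⟨y0, hy0, hmin⟩ := Finset.exists_min_image T id hT
      have hy0W := (Finset.mem_filter.1 hy0).1
      obtain ⟨f, hf⟩ := (Finset.mem_filter.1 hy0).2
      -- no placement strictly below `y0`
      have hno : ¬ ∃ g, GPl A ord I' (W.filter (fun z => z < y0)) g := by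
        rintro ⟨g, hg⟩
        -- the last element
        obtain ⟨i1, hi1, hi1m⟩ := Finset.exists_max_image I' g hne
        have h5 := (hg.1 i1 hi1).1
        rw [Finset.mem_filter] at h5
        have h6 : g i1 ∈ T := by
          refine Finset.mem_filter.2 ⟨h5.1, g, ?_, hg.2⟩
          intro i hi
          have h7 := (hg.1 i hi)
          rw [Finset.mem_filter] at h7 ⊢
          exact ⟨⟨h7.1.1, hi1m i hi⟩, h7.2⟩
        have h8 := hmin _ h6
        simp only [id] at h8
        omega
      have hA : ∀ y ∈ W, y0 < y → y ∈ A p := by
        intro y hy hlt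
        by_contra hn
        refine h ⟨fun i => if i = p then y else f i, ?_, ?_⟩
        · intro i hi
          by_cases hip : i = p
          · subst hip
            simpa using ⟨hy, hn⟩
          · have hi' : i ∈ I' := (Finset.mem_insert.1 hi).resolve_left hip
            simp only [if_neg hip]
            have h7 := hf.1 i hi'
            rw [Finset.mem_filter] at h7
            exact ⟨h7.1.1, h7.2⟩
        · intro i hi i' hi' hlt'
          by_cases hip : i = p
          · subst hip
            rcases Finset.mem_insert.1 hi' with h9 | h9
            · subst h9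
              exact absurd hlt' (lt_irrefl _)
            · exact absurd (hmax' _ h9) (not_lt.2 hlt'.le)
          · have hi1 : i ∈ I' := (Finset.mem_insert.1 hi).resolve_left hip
            by_cases hip' : i' = p
            · subst hip'
              simp only [if_neg hip, if_true]
              have h7 := hf.1 i hi1
              rw [Finset.mem_filter] at h7
              exact lt_of_le_of_lt h7.1.2 hlt
            · have hi2 : i' ∈ I' := (Finset.mem_insert.1 hi').resolve_left hip'
              simp only [if_neg hip, if_neg hip']
              exact hf.2 i hi1 i' hi2 hlt'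
      have h1 := ih _ hno
      -- the chain
      have : Nonempty ι := ⟨p⟩
      obtain ⟨Y, ⟨hYW, j, hj1, hj2⟩, hYc⟩ := exists_L A ord I' (W.filter (fun z => z < y0))
      let Z := W.filter (fun z => y0 < z)
      have hYlt : ∀ y ∈ Y, y < y0 := fun y hy => (Finset.mem_filter.1 (hYW hy)).2
      have hZlt : ∀ z ∈ Z, y0 < z := fun z hz => (Finset.mem_filter.1 hz).2
      have hdisj : Disjoint Y Z := by
        rw [Finset.disjoint_left]
        intro a ha hb
        have := hYlt a ha
        have := hZlt a hb
        omega
      have hserv : Serves A ord (insert p I') W (Y ∪ Z) := by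
        refine ⟨?_, fun y => if y < y0 then j y else p, ?_, ?_⟩
        · intro y hy
          rcases Finset.mem_union.1 hy with hy | hy
          · exact (Finset.mem_filter.1 (hYW hy)).1
          · exact (Finset.mem_filter.1 hy).1
        · intro y hy
          rcases Finset.mem_union.1 hy with hy | hy
          · simp only [if_pos (hYlt y hy)]
            exact ⟨Finset.mem_insert_of_mem (hj1 y hy).1, (hj1 y hy).2⟩
          · have := hZlt y hy
            simp only [if_neg (not_lt.2 this.le)]
            exact ⟨Finset.mem_insert_self _ _, hA y (Finset.mem_filter.1 hy).1 this⟩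
        · intro y hy y' hy' hle
          rcases Finset.mem_union.1 hy with hy | hy <;> rcases Finset.mem_union.1 hy' with hy' | hy'
          · simp only [if_pos (hYlt y hy), if_pos (hYlt y' hy')]
            exact hj2 y hy y' hy' hle
          · have := hZlt y' hy'
            simp only [if_pos (hYlt y hy), if_neg (not_lt.2 this.le)]
            exact hmax _ (hj1 y hy).1
          · have h1 := hZlt y hy
            have h2 := hYlt y' hy'
            omega
          · have h1 := hZlt y hy
            have h2 := hZlt y' hy'
            simp only [if_neg (not_lt.2 h1.le), if_neg (not_lt.2 h2.le)]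
            exact le_rfl
      have h2 := le_L hserv
      rw [Finset.card_union_of_disjoint hdisj, hYc] at h2
      -- count the rows
      have h3 : W.card = (W.filter (fun z => z < y0)).card + 1 + Z.card := by
        have e1 := Finset.card_filter_add_card_filter_not (s := W) (fun z => z < y0)
        have e2 : W.filter (fun z => ¬ z < y0) = insert y0 Z := by
          ext z
          simp only [Finset.mem_filter, Finset.mem_insert, Z]
          constructor
          · rintro ⟨hz, hz'⟩
            rcases Nat.lt_or_ge y0 z with h | h
            · exact Or.inr ⟨hz, h⟩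
            · left; omega
          · rintro (h | ⟨hz, h⟩)
            · subst h; exact ⟨hy0W, lt_irrefl _⟩
            · exact ⟨hz, by omega⟩
        rw [e2, Finset.card_insert_of_notMem (by simp [Z])] at e1
        omega
      omega

/-- Greedy placement: if there is no long chain, then the points of `I` can be placed in `W` in the
order `ord`, such that no point meets its forbidden rows. -/
theorem greedy {ι : Type} (A : ι → Finset ℕ) (ord : ι → ℕ) (I : Finset ι) (W : Finset ℕ)
    (hord : Function.Injective ord) (h : L A ord I W + I.card ≤ W.card) :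
    ∃ f : ι → ℕ, (∀ i ∈ I, f i ∈ W ∧ f i ∉ A i) ∧
      ∀ i ∈ I, ∀ i' ∈ I, ord i < ord i' → f i < f i' := by
  by_contra hn
  have := greedy_aux A ord I hord W hn
  omega

end OTree
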