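import Pool.Agent.Lib.MP_c11385_co.X.Av
import Pool.Agent.Lib.MP_c11385_co.X.Greedy

set_option autoImplicit false

namespace OTree

open Finset

/-- The right points: greedy placement in each block. -/
theorem right_place {h w H : ℕ} (hw : 0 < w) (π : Fin h → Fin h) (hπ : Function.Injective π)
    (A : Fin h → Finset ℕ)
    (hL : ∀ b : ℕ, L A (fun p => (π p).val) (Finset.univ.filter (fun p : Fin h => (π p).val / w = b))
      (Finset.Ico (b * H) ((b + 1) * H)) + w ≤ H) :
    ∃ fR : Fin h → ℕ, StrictMono fR ∧ (∀ j, fR j < (j.val / w + 1) * H) ∧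
      ∀ p : Fin h, fR (π p) ∉ A p := by
  classical
  have hcard : ∀ b : ℕ,
      (Finset.univ.filter (fun p : Fin h => (π p).val / w = b)).card ≤ w := by
    intro b
    have h1 : (Finset.univ.filter (fun p : Fin h => (π p).val / w = b)).card ≤
        (Finset.Ico (b * w) ((b + 1) * w)).card := by
      refine Finset.card_le_card_of_injOn (fun p => (π p).val) (fun p hp => ?_)
        (fun p _ q _ hpq => hπ (Fin.ext hpq))
      rw [Finset.mem_coe, Finset.mem_filter] at hp
      rw [Finset.mem_coe, Finset.mem_Ico]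
      have h2 := hp.2
      constructor
      · rw [← h2]; exact Nat.div_mul_le_self _ _
      · rw [← h2]
        show (π p).val < ((π p).val / w + 1) * w
        have h3 := Nat.div_add_mod (π p).val w
        have h4 := Nat.mod_lt (π p).val hw
        have h5 : ((π p).val / w + 1) * w = w * ((π p).val / w) + w := by ring
        rw [h5]
        omega
    rw [Nat.card_Ico, Nat.add_mul, Nat.one_mul, Nat.add_sub_cancel_left] at h1
    exact h1
  have hg : ∀ b : ℕ, ∃ f : Fin h → ℕ,
      (∀ i ∈ (Finset.univ.filter (fun p : Fin h => (π p).val / w = b)),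
        f i ∈ Finset.Ico (b * H) ((b + 1) * H) ∧ f i ∉ A i) ∧
      ∀ i ∈ (Finset.univ.filter (fun p : Fin h => (π p).val / w = b)),
        ∀ i' ∈ (Finset.univ.filter (fun p : Fin h => (π p).val / w = b)),
        (π i).val < (π i').val → f i < f i' := by
    intro b
    refine greedy A (fun p => (π p).val) _ _ (fun p q hpq => hπ (Fin.ext hpq)) ?_
    rw [Nat.card_Ico, Nat.add_mul b 1 H, Nat.one_mul, Nat.add_sub_cancel_left]
    have h1 := hL b
    rw [Nat.add_mul b 1 H, Nat.one_mul] at h1
    have h2 := hcard b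
    omega
  choose f hf1 hf2 using hg
  set e : Fin h ≃ Fin h := Equiv.ofBijective π (Finite.injective_iff_bijective.1 hπ) with he
  have hes : ∀ j, π (e.symm j) = j := fun j => e.apply_symm_apply j
  have hmem : ∀ j : Fin h, e.symm j ∈
      (Finset.univ.filter (fun p : Fin h => (π p).val / w = j.val / w)) := by
    intro j
    rw [Finset.mem_filter]
    exact ⟨Finset.mem_univ _, by rw [hes]⟩
  refine ⟨fun j => f (j.val / w) (e.symm j), fun j j' hjj => ?_, fun j => ?_, fun p => ?_⟩
  · have hlt : j.val < j'.val := hjj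
    have hle : j.val / w ≤ j'.val / w := Nat.div_le_div_right hlt.le
    rcases hle.eq_or_lt with heq | hlt'
    · have h1 := hmem j
      have h2 := hmem j'
      rw [← heq] at h2
      show f (j.val / w) (e.symm j) < f (j'.val / w) (e.symm j')
      rw [← heq]
      refine hf2 (j.val / w) _ h1 _ h2 ?_
      rw [hes, hes]; exact hlt
    · have h1 := (Finset.mem_Ico.1 (hf1 _ _ (hmem j)).1).2
      have h2 := (Finset.mem_Ico.1 (hf1 _ _ (hmem j')).1).1
      show f (j.val / w) (e.symm j) < f (j'.val / w) (e.symm j')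
      calc f (j.val / w) (e.symm j) < (j.val / w + 1) * H := h1
        _ ≤ j'.val / w * H := Nat.mul_le_mul_right _ hlt'
        _ ≤ _ := h2
  · exact (Finset.mem_Ico.1 (hf1 _ _ (hmem j)).1).2
  · have h1 : e.symm (π p) = p := e.symm_apply_apply p
    have h2 := (hf1 _ _ (hmem (π p))).2
    show f ((π p).val / w) (e.symm (π p)) ∉ A p
    rw [h1] at h2 ⊢
    exact h2

end OTree
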