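import Pool.Agent.Lib.MP_c11385_co.X.Av

set_option autoImplicit false

namespace OTree

open Finset

theorem pow_le_l (N m : ℕ) (hN : (N : ℝ) ^ nu = 12) :
    (54 / 5 : ℝ) ^ m ≤ ((N : ℝ) ^ m) ^ (nu - 20 * th) := by
  have hN0 : (0 : ℝ) ≤ N := Nat.cast_nonneg N
  have e1 : ((N : ℝ) ^ m) ^ (nu - 20 * th) = ((N : ℝ) ^ (nu - 20 * th)) ^ m := by
    rw [← Real.rpow_natCast (N : ℝ) m, ← Real.rpow_mul hN0,
      ← Real.rpow_natCast ((N : ℝ) ^ (nu - 20 * th)) m, ← Real.rpow_mul hN0, mul_comm]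
  rw [e1]
  refine pow_le_pow_left₀ (by norm_num) ?_ m
  have e2 : nu - 20 * th = nu * (24 / 25 : ℝ) := by
    unfold nu th
    norm_num
  rw [e2, Real.rpow_mul hN0, hN]
  have h25 : ((54 / 5 : ℝ)) ^ (25 : ℕ) ≤ (12 : ℝ) ^ (24 : ℕ) := by norm_num
  have e3 : ((12 : ℝ) ^ (24 / 25 : ℝ)) ^ (25 : ℕ) = 12 ^ (24 : ℕ) := by
    rw [← Real.rpow_natCast, ← Real.rpow_mul (by norm_num)]
    norm_num
  refine le_of_pow_le_pow_left₀ (n := 25) (by norm_num) (by positivity) ?_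
  rw [e3]
  exact h25

end OTree
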