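import Pool.Agent.Lib.MP_c11385_co.X.Av

set_option autoImplicit false

namespace OTree

open Finset

theorem ratio_alg (n l s g E : ℝ) (hn : 0 < n) (hl : 0 < l) (hs : 0 < s) (hg : 0 < g)
    (hE0 : 0 ≤ E) (hE : E ≤ l ^ (nu - 20 * th)) :
    n ^ nu * E * l * g ^ nu * ((4 * (g * l) * s) * ((g * l) ^ th * (n / (l * s)) ^ vp))
      ≤ (4 * (3 / 2 : ℝ) ^ (1 + nu) * (n / s) ^ (1 + nu - th) * l ^ (-18 * th) * g ^ th)
        * (2 * (g * l) * s / 3) ^ (1 + nu) := by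
  have h1 : n ^ nu * E * l * g ^ nu * ((4 * (g * l) * s) * ((g * l) ^ th * (n / (l * s)) ^ vp))
      ≤ n ^ nu * l ^ (nu - 20 * th) * l * g ^ nu *
        ((4 * (g * l) * s) * ((g * l) ^ th * (n / (l * s)) ^ vp)) := by
    gcongr
  refine h1.trans (le_of_eq ?_)
  have h2 : 2 * (g * l) * s / 3 = (g * l * s) * (3 / 2 : ℝ)⁻¹ := by ring
  have h3 : (2 * (g * l) * s / 3) ^ (1 + nu) = (g * l * s) ^ (1 + nu) * ((3 / 2 : ℝ) ^ (1 + nu))⁻¹ := by
    rw [h2, Real.mul_rpow (by positivity) (by positivity), Real.inv_rpow (by norm_num)]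
  rw [h3]
  have h4 : (3 / 2 : ℝ) ^ (1 + nu) ≠ 0 := by positivity
  have h5 : n ^ nu * l ^ (nu - 20 * th) * l * g ^ nu *
        (((g * l) * s) * ((g * l) ^ th * (n / (l * s)) ^ vp))
      = ((n / s) ^ (1 + nu - th) * l ^ (-18 * th) * g ^ th) * (g * l * s) ^ (1 + nu) := by
    obtain ⟨a, rfl⟩ : ∃ a, n = Real.exp a := ⟨Real.log n, (Real.exp_log hn).symm⟩
    obtain ⟨b, rfl⟩ : ∃ a, l = Real.exp a := ⟨Real.log l, (Real.exp_log hl).symm⟩
    obtain ⟨c, rfl⟩ : ∃ a, s = Real.exp a := ⟨Real.log s, (Real.exp_log hs).symm⟩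
    obtain ⟨d, rfl⟩ : ∃ a, g = Real.exp a := ⟨Real.log g, (Real.exp_log hg).symm⟩
    simp only [← Real.exp_add, ← Real.exp_sub, ← Real.exp_mul]
    congr 1
    unfold vp
    ring
  calc _ = 4 * (n ^ nu * l ^ (nu - 20 * th) * l * g ^ nu *
        (((g * l) * s) * ((g * l) ^ th * (n / (l * s)) ^ vp))) := by ring
    _ = 4 * (((n / s) ^ (1 + nu - th) * l ^ (-18 * th) * g ^ th) * (g * l * s) ^ (1 + nu)) := by
        rw [h5]
    _ = _ := by
        field_simp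

end OTree
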