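import Pool.Agent.Lib.MP_c11385_co.X.Av

set_option autoImplicit false

namespace OTree

open Finset

theorem ratio_small (N R' : ℕ) (hN : 1 < N) (hR : 0 < R') : ∃ n₀ : ℕ, ∀ n : ℕ, n₀ ≤ n →
    ∀ l s g : ℝ, 0 < l → 0 < g → g ≤ 2 * (n : ℝ) ^ (2 * (th / R')) → s = l ^ R' →
    (n : ℝ) ^ (1 - th / R') ≤ s * (N : ℝ) ^ R' →
    4 * (3 / 2 : ℝ) ^ (1 + nu) * ((n : ℝ) / s) ^ (1 + nu - th) * l ^ (-18 * th) * g ^ th ≤ 1 := by
  have hth0 : 0 < th := by unfold th; norm_num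
  have hth1 : th ≤ 1 / 1000 := by unfold th; norm_num
  have hnu0 : 0 < nu := by unfold nu; norm_num
  have hnu1 : nu ≤ 1 / 1000 := by unfold nu; norm_num
  have hR1 : (1 : ℝ) ≤ R' := by exact_mod_cast hR
  have hR0 : (0 : ℝ) < R' := by linarith
  have hN0 : (0 : ℝ) < N := by
    have : (1 : ℝ) < N := by exact_mod_cast hN
    linarith
  set e : ℝ := th / R' with he
  have he0 : 0 < e := by positivity
  have he1 : e ≤ th := div_le_self hth0.le hR1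
  set a : ℝ := 1 + nu - th with ha
  have ha0 : 0 < a := by rw [ha]; linarith
  set C : ℝ := 4 * (3 / 2 : ℝ) ^ (1 + nu) * ((N : ℝ) ^ R') ^ a / (N : ℝ) ^ (-18 * th) * 2 ^ th with hC
  have hC0 : 0 < C := by positivity
  have hlim : Filter.Tendsto (fun n : ℕ => C * (n : ℝ) ^ (-e)) Filter.atTop (nhds (C * 0)) :=
    ((tendsto_rpow_neg_atTop he0).comp tendsto_natCast_atTop_atTop).const_mul C
  rw [mul_zero] at hlim
  have hev := (hlim.eventually (ge_mem_nhds (show (0 : ℝ) < 1 by norm_num))).and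
    (Filter.eventually_ge_atTop 1)
  obtain ⟨n₀, hn₀⟩ := Filter.eventually_atTop.1 hev
  refine ⟨n₀, fun n hn l s g hl hg hg2 hs hbig => ?_⟩
  obtain ⟨hCn, hn1⟩ := hn₀ n hn
  have hnR : (1 : ℝ) ≤ n := by exact_mod_cast hn1
  have hnpos : (0 : ℝ) < n := by linarith
  have hspos : 0 < s := by rw [hs]; positivity
  -- `n / s`
  have h1 : (n : ℝ) / s ≤ (n : ℝ) ^ e * (N : ℝ) ^ R' := by
    rw [div_le_iff₀ hspos]
    have h2 : (n : ℝ) = (n : ℝ) ^ e * (n : ℝ) ^ (1 - e) := by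
      rw [← Real.rpow_add hnpos, add_sub_cancel, Real.rpow_one]
    calc (n : ℝ) = (n : ℝ) ^ e * (n : ℝ) ^ (1 - e) := h2
      _ ≤ (n : ℝ) ^ e * (s * (N : ℝ) ^ R') := by gcongr
      _ = (n : ℝ) ^ e * (N : ℝ) ^ R' * s := by ring
  have h1' : ((n : ℝ) / s) ^ a ≤ (n : ℝ) ^ (e * a) * ((N : ℝ) ^ R') ^ a := by
    calc ((n : ℝ) / s) ^ a ≤ ((n : ℝ) ^ e * (N : ℝ) ^ R') ^ a :=
          Real.rpow_le_rpow (by positivity) h1 ha0.le
      _ = (n : ℝ) ^ (e * a) * ((N : ℝ) ^ R') ^ a := by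
          rw [Real.mul_rpow (by positivity) (by positivity), ← Real.rpow_mul hnpos.le]
  -- `l`
  set y : ℝ := (n : ℝ) ^ ((1 - e) / R') / N with hy
  have hy0 : 0 < y := by positivity
  have hyl : y ≤ l := by
    have h3 : y ^ R' ≤ l ^ R' := by
      rw [← hs, hy, div_pow, ← Real.rpow_natCast ((n : ℝ) ^ ((1 - e) / R')), ← Real.rpow_mul hnpos.le,
        div_mul_cancel₀ _ hR0.ne', div_le_iff₀ (by positivity)]
      exact hbig
    exact (pow_le_pow_iff_left₀ hy0.le hl.le hR.ne').1 h3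
  have h2' : l ^ (-18 * th) ≤ (n : ℝ) ^ ((1 - e) / R' * (-18 * th)) / (N : ℝ) ^ (-18 * th) := by
    calc l ^ (-18 * th) ≤ y ^ (-18 * th) :=
          Real.rpow_le_rpow_of_nonpos hy0 hyl (by linarith)
      _ = (n : ℝ) ^ ((1 - e) / R' * (-18 * th)) / (N : ℝ) ^ (-18 * th) := by
          rw [hy, Real.div_rpow (by positivity) hN0.le, ← Real.rpow_mul hnpos.le]
  -- `g`
  have h3' : g ^ th ≤ 2 ^ th * (n : ℝ) ^ (2 * e * th) := by
    calc g ^ th ≤ (2 * (n : ℝ) ^ (2 * e)) ^ th := Real.rpow_le_rpow hg.le hg2 hth0.le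
      _ = 2 ^ th * (n : ℝ) ^ (2 * e * th) := by
          rw [Real.mul_rpow (by norm_num) (by positivity), ← Real.rpow_mul hnpos.le]
  have hexp : e * a + (1 - e) / R' * (-18 * th) + 2 * e * th ≤ -e := by
    have h4 : (1 - e) / R' * (-18 * th) = -18 * (1 - e) * e := by
      rw [he]
      field_simp
    rw [h4]
    have h5 : e * a + -18 * (1 - e) * e + 2 * e * th = e * (a - 18 * (1 - e) + 2 * th) := by ring
    rw [h5]
    have h6 : a - 18 * (1 - e) + 2 * th ≤ -1 := by rw [ha]; linarith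
    nlinarith
  calc 4 * (3 / 2 : ℝ) ^ (1 + nu) * ((n : ℝ) / s) ^ a * l ^ (-18 * th) * g ^ th
      ≤ 4 * (3 / 2 : ℝ) ^ (1 + nu) * ((n : ℝ) ^ (e * a) * ((N : ℝ) ^ R') ^ a) *
          ((n : ℝ) ^ ((1 - e) / R' * (-18 * th)) / (N : ℝ) ^ (-18 * th)) *
          (2 ^ th * (n : ℝ) ^ (2 * e * th)) := by gcongr
    _ = C * (n : ℝ) ^ (e * a + (1 - e) / R' * (-18 * th) + 2 * e * th) := by
        rw [Real.rpow_add hnpos, Real.rpow_add hnpos, hC]
        ring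
    _ ≤ C * (n : ℝ) ^ (-e) := by
        exact mul_le_mul_of_nonneg_left (Real.rpow_le_rpow_of_exponent_le hnR hexp) hC0.le
    _ ≤ 1 := hCn

end OTree
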