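import Pool.Agent.Lib.MP_c11385_co.X.Av
import Pool.Agent.Lib.MP_c11385_co.X.PowLe
import Pool.Agent.Lib.MP_c11385_co.X.RatioAlg
import Pool.Agent.Lib.MP_c11385_co.X.RatioSmall
import Pool.Agent.Lib.MP_c11385_co.X.Eventual

set_option autoImplicit false

namespace OTree

open Finset

theorem params (N : ℕ) (hN : (N : ℝ) ^ nu = 12) (R₀ : ℕ) : ∃ R' : ℕ, R₀ ≤ R' + 1 ∧
    ∃ ε : ℝ, 0 < ε ∧ ε < 1 ∧ ∃ n₀ : ℕ, 2 ≤ n₀ ∧ ∀ n : ℕ, n₀ ≤ n → ∃ m g : ℕ, 0 < g ∧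
      4 * (g * N ^ m) ≤ n ∧
      (((N ^ R') ^ m : ℕ) : ℝ) ≤ (n : ℝ) ^ (1 - ε) ∧
      ((N : ℝ) ^ m * (N : ℝ) ^ m * 20000) ^ nu * (N : ℝ) ^ m ≤ (n : ℝ) ^ nu ∧
      (n : ℝ) < 2 ^ ((g : ℝ) * ((N : ℝ) ^ R') ^ m / n) ∧
      (n : ℝ) ^ nu * (54 / 5) ^ m * (N : ℝ) ^ m * (g : ℝ) ^ nu *
        ((4 * (g * (N : ℝ) ^ m) * ((N : ℝ) ^ R') ^ m) *
          (((g : ℝ) * (N : ℝ) ^ m) ^ th * ((n : ℝ) / ((N : ℝ) ^ (R' + 1)) ^ m) ^ vp))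
        ≤ (2 * (g * (N : ℝ) ^ m) * ((N : ℝ) ^ R') ^ m / 3) ^ (1 + nu) := by
  have hN0 : N ≠ 0 := by
    rintro rfl
    rw [Nat.cast_zero, Real.zero_rpow (by unfold nu; norm_num)] at hN
    norm_num at hN
  have hN1 : 1 < N := by
    by_contra hcon
    have : N = 1 := by omega
    rw [this, Nat.cast_one, Real.one_rpow] at hN
    norm_num at hN
  have hNR : (1 : ℝ) < N := by exact_mod_cast hN1
  set R' := max 4004 R₀ with hR'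
  have hR4 : 4004 ≤ R' := le_max_left _ _
  have hR0 : 0 < R' := by omega
  have hR0R : (0 : ℝ) < R' := by exact_mod_cast hR0
  have hR1R : (1 : ℝ) ≤ R' := by exact_mod_cast hR0
  have hth0 : 0 < th := by unfold th; norm_num
  have hth1 : th < 1 := by unfold th; norm_num
  have hε0 : 0 < th / R' := by positivity
  have hε1 : th / R' < 1 := by
    rw [div_lt_one hR0R]
    linarith
  obtain ⟨n₁, h₁⟩ := ratio_small N R' hN1 hR0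
  obtain ⟨n₂, h₂⟩ := small_facts N R' hN1 hR4
  refine ⟨R', by have := le_max_right 4004 R₀; omega, th / R', hε0, hε1, max 2 (max n₁ n₂),
    le_max_left _ _, ?_⟩
  intro n hn
  have hn2 : 2 ≤ n := (le_max_left _ _).trans hn
  have hn₁ : n₁ ≤ n := ((le_max_left _ _).trans (le_max_right _ _)).trans hn
  have hn₂ : n₂ ≤ n := ((le_max_right _ _).trans (le_max_right _ _)).trans hn
  have hnR : (1 : ℝ) ≤ n := by exact_mod_cast (by omega : 1 ≤ n)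
  have hnpos : (0 : ℝ) < n := by linarith
  have hb : 1 < (N : ℝ) ^ R' := one_lt_pow₀ hNR hR0.ne'
  obtain ⟨m, hm1, hm2⟩ := exists_nat_pow_near (x := (n : ℝ) ^ (1 - th / R')) (y := (N : ℝ) ^ R')
    (Real.one_le_rpow hnR (by linarith)) hb
  obtain ⟨h3, h4, h5⟩ := h₂ n hn₂ m hm1 hm2
  have hx1 : (1 : ℝ) ≤ (n : ℝ) ^ (2 * (th / R')) := Real.one_le_rpow hnR (by positivity)
  have hgpos : 0 < ⌈(n : ℝ) ^ (2 * (th / R'))⌉₊ := Nat.ceil_pos.mpr (by linarith)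
  have hg2 : ((⌈(n : ℝ) ^ (2 * (th / R'))⌉₊ : ℕ) : ℝ) ≤ 2 * (n : ℝ) ^ (2 * (th / R')) := by
    have := (Nat.ceil_lt_add_one (by linarith : (0 : ℝ) ≤ (n : ℝ) ^ (2 * (th / R')))).le
    linarith
  refine ⟨m, ⌈(n : ℝ) ^ (2 * (th / R'))⌉₊, hgpos, h3, ?_, h4, h5, ?_⟩
  · push_cast
    exact hm1
  · have hlpos : (0 : ℝ) < (N : ℝ) ^ m := by positivity
    have hspos : (0 : ℝ) < ((N : ℝ) ^ R') ^ m := by positivity
    have hgR : (0 : ℝ) < ((⌈(n : ℝ) ^ (2 * (th / R'))⌉₊ : ℕ) : ℝ) := by exact_mod_cast hgpos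
    have e1 : ((N : ℝ) ^ (R' + 1)) ^ m = (N : ℝ) ^ m * ((N : ℝ) ^ R') ^ m := by
      rw [pow_succ', mul_pow]
    rw [e1]
    have h6 := ratio_alg (n : ℝ) ((N : ℝ) ^ m) (((N : ℝ) ^ R') ^ m)
      (⌈(n : ℝ) ^ (2 * (th / R'))⌉₊ : ℕ) ((54 / 5) ^ m) hnpos hlpos hspos hgR (by positivity)
      (pow_le_l N m hN)
    have h7 := h₁ n hn₁ ((N : ℝ) ^ m) (((N : ℝ) ^ R') ^ m) (⌈(n : ℝ) ^ (2 * (th / R'))⌉₊ : ℕ)
      hlpos hgR hg2 (by rw [← pow_mul, ← pow_mul, mul_comm]) (by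
        rw [← pow_succ]
        exact hm2.le)
    refine h6.trans ?_
    have h8 : (0 : ℝ) ≤ (2 * (((⌈(n : ℝ) ^ (2 * (th / R'))⌉₊ : ℕ) : ℝ) * (N : ℝ) ^ m)
      * ((N : ℝ) ^ R') ^ m / 3) ^ (1 + nu) := by positivity
    exact mul_le_of_le_one_left h8 h7

end OTree
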