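import Pool.Agent.Lib.MP_c11385_co.X.Av
import Pool.Agent.Lib.MP_c11385_co.CoreGen

set_option autoImplicit false

namespace OTree

open Finset

theorem select {r₁ r₂ : ℕ} {Ω : Type} [Fintype Ω] [Nonempty Ω] (X : Fin r₁ → Fin r₂ → Ω → ℕ)
    (K T : ℕ) (hK : 0 < K) (hX : ∀ b a ω, X b a ω ≤ K)
    (hE : ∀ b, ∑ a, av (fun ω => (X b a ω : ℝ)) ≤ (T : ℝ) / 3)
    (hr : (r₁ : ℝ) < 2 ^ ((T : ℝ) / K / 2)) :
    ∃ ω : Fin r₂ → Ω, ∀ b, ∑ a, X b a (ω a) < T := by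
  set e := Fintype.equivFin Ω with he
  have hK' : (0 : ℝ) < K := by exact_mod_cast hK
  obtain ⟨o, ho⟩ := Pool.Agent.Lib.MP_c11385_co.exists_offsets_gen (r₁ := r₁) (r₂ := r₂)
    (fun _ => T) (fun _ => Fintype.card Ω) (fun _ => Fintype.card_pos)
    (fun b a t => X b a (e.symm t)) (fun _ => (K : ℝ)) (fun _ => hK')
    (fun b a t => by exact_mod_cast hX b a (e.symm t)) ((T : ℝ) / K)
    (fun b => by
      refine le_trans (le_of_eq ?_) (hE b)
      refine Finset.sum_congr rfl fun a _ => ?_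
      unfold av
      congr 1
      exact Equiv.sum_comp e.symm (fun ω => (X b a ω : ℝ)))
    (fun _ => le_rfl) hr
  exact ⟨fun a => e.symm (o a), ho⟩

end OTree
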