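import Pool.Agent.Lib.MP_c11385_co.X.Av
import Pool.Agent.Lib.MP_c11385_co.X.ExpBound
import Pool.Agent.Lib.MP_c11385_co.X.Select
import Pool.Agent.Lib.MP_c11385_co.X.Params
import Pool.Agent.Lib.MP_c11385_co.X.ExistsN
import Pool.Agent.Lib.MP_c11385_co.X.BlockL
import Pool.Agent.Lib.MP_c11385_co.X.FR
import Pool.Agent.Lib.MP_c11385_co.X.FL

set_option autoImplicit false

namespace OTree

open Finset

theorem main_bip : ∃ ε : ℝ, 0 < ε ∧ ε < 1 ∧ ∃ n₀ : ℕ, ∀ n : ℕ, n₀ ≤ n → ∃ A B : ℕ,
    (A : ℝ) ≤ (n : ℝ) ^ (2 - ε) ∧ (B : ℝ) ≤ 4 * (n : ℝ) ^ (2 - ε) ∧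
    ∀ h : ℕ, n = 2 * h → ∀ (π : Fin h → Fin h), Function.Injective π →
    ∀ Γ : ℕ → Finset ℕ, (∀ x, (Γ x).card ≤ n) →
      (∀ (y : ℕ) (S : Finset ℕ), (S.filter (fun x => y ∈ Γ x)).card ≤ n) →
    ∃ fl fr : Fin h → ℕ, StrictMono fl ∧ StrictMono fr ∧ (∀ p, fl p < A) ∧ (∀ p, fr p < B) ∧
      ∀ p, fr (π p) ∉ Γ (fl p) := by
  obtain ⟨N, hN⟩ := exists_N
  obtain ⟨R₀, hR₀⟩ := exp_bound N hN
  obtain ⟨R', hR', ε, hε0, hε1, n₀, hn₀, hpar⟩ := params N hN R₀
  have hN0 : N ≠ 0 := by
    rintro rfl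
    rw [Nat.cast_zero, Real.zero_rpow (by unfold nu; norm_num)] at hN
    norm_num at hN
  have : NeZero N := ⟨hN0⟩
  refine ⟨ε, hε0, hε1, n₀, ?_⟩
  intro n hn
  obtain ⟨m, g, hg, h4, hs, hcond, hexp, hnum⟩ := hpar n hn
  set l := N ^ m with hl
  set s := (N ^ R') ^ m with hsdef
  have hlpos : 0 < l := Nat.pow_pos (Nat.pos_of_ne_zero hN0)
  have hspos : 0 < s := Nat.pow_pos (Nat.pow_pos (Nat.pos_of_ne_zero hN0))
  have hgl : 0 < g * l := Nat.mul_pos hg hlpos
  have hls : (N ^ (R' + 1)) ^ m = l * s := by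
    rw [hl, hsdef, ← mul_pow, ← pow_succ']
  have hn2 : 2 ≤ n := hn₀.trans hn
  have hnR : (0 : ℝ) < n := by exact_mod_cast (by omega : 0 < n)
  have hpow : (n : ℝ) * (n : ℝ) ^ (1 - ε) = (n : ℝ) ^ (2 - ε) := by
    rw [show (2 - ε) = 1 + (1 - ε) by ring, Real.rpow_add hnR, Real.rpow_one]
  have hnsle : ((n * s : ℕ) : ℝ) ≤ (n : ℝ) ^ (2 - ε) := by
    rw [← hpow]
    push_cast
    exact mul_le_mul_of_nonneg_left hs hnR.le
  refine ⟨n * s, 4 * (n * s), hnsle, ?_, ?_⟩
  · have : ((4 * (n * s) : ℕ) : ℝ) = 4 * ((n * s : ℕ) : ℝ) := by push_cast; ring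
    rw [this]
    linarith
  intro h hnh π hπ Γ hΓ hcol
  set w := g * l with hw
  set H := 4 * w * s with hH
  set rL := h / l + 1 with hrL
  set rR := h / w + 1 with hrR
  have hH4 : w ≤ 2 * w * s := by nlinarith
  -- selection
  obtain ⟨ω, hω⟩ := select (r₁ := rR) (r₂ := rL) (Ω := Om N (R' + 1) m)
    (fun b a ω => L (fun x : Lf N m => Γ (a.val * (N ^ (R' + 1)) ^ m + cnum N (R' + 1) m
          (pl N (R' + 1) m ω x))) (ordB N m π a.val) (IB N m w π a.val b.val)
          (Finset.Ico (b.val * H) ((b.val + 1) * H)))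
    (l * n) (2 * w * s) (Nat.mul_pos hlpos (by omega))
    (fun b a ω => by
      refine (L_le_sum_card _ _ _ _).trans ?_
      calc ∑ i ∈ IB N m w π a.val b.val, _ ≤ ∑ i ∈ IB N m w π a.val b.val, n := by
            apply Finset.sum_le_sum
            intro i _
            exact (Finset.card_le_card Finset.inter_subset_left).trans (hΓ _)
        _ = (IB N m w π a.val b.val).card * n := by rw [Finset.sum_const, smul_eq_mul]
        _ ≤ l * n := Nat.mul_le_mul_right _ (card_IB_le N m w π a.val b.val))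
    (fun b => by
      refine hR₀ R' hR' n h m g rL hg hcond hnum π hπ Γ hΓ hcol b.val _ ?_
      rw [Nat.card_Ico]
      have : (b.val + 1) * H = b.val * H + H := by ring
      rw [this, Nat.add_sub_cancel_left])
    (by
      have h1 : (rR : ℝ) ≤ n := by
        have : rR ≤ n := by
          have := Nat.div_le_self h w
          omega
        exact_mod_cast this
      refine lt_of_le_of_lt h1 (lt_of_lt_of_eq hexp ?_)
      congr 1
      push_cast
      have h2 : (0 : ℝ) < (N : ℝ) ^ m := by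
        have : (0 : ℝ) < N := by exact_mod_cast Nat.pos_of_ne_zero hN0
        positivity
      rw [hw, hl, hsdef]
      push_cast
      field_simp)
  -- extend ω to all natural numbers
  set ω' : ℕ → Om N (R' + 1) m := fun a => if ha : a < rL then ω ⟨a, ha⟩ else ω ⟨0, Nat.succ_pos _⟩ with hω'
  have hω'a : ∀ a : Fin rL, ω' a.val = ω a := by
    intro a
    simp only [hω']
    rw [dif_pos a.isLt]
  have hdiv : ∀ p, p < h → p / N ^ m < rL := by
    intro p hp
    have : p / l ≤ h / l := Nat.div_le_div_right hp.le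
    rw [← hl]
    omega
  obtain ⟨fr, hfr1, hfr2, hfr3⟩ := right_place (h := h) (w := w) (H := H) hgl π hπ
    (fun p => Γ (fL N (R' + 1) m ω' p.val)) (by
      intro b
      by_cases hb : b < rR
      · have h1 := block_L (w := w) (r := rL) π Γ ω' b (Finset.Ico (b * H) ((b + 1) * H)) hdiv
        have h2 := hω ⟨b, hb⟩
        simp only at h2
        have h3 : (∑ a : Fin rL, L (fun x : Lf N m => Γ (a.val * (N ^ (R' + 1)) ^ m
            + cnum N (R' + 1) m (pl N (R' + 1) m (ω' a.val) x)))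
            (ordB N m π a.val) (IB N m w π a.val b) (Finset.Ico (b * H) ((b + 1) * H)))
            < 2 * w * s := by
          refine lt_of_eq_of_lt ?_ h2
          apply Finset.sum_congr rfl
          intro a _
          rw [hω'a a]
        have h5 : H = 2 * w * s + 2 * w * s := by rw [hH]; ring
        omega
      · have h1 : (Finset.univ.filter (fun p : Fin h => (π p).val / w = b)) = ∅ := by
          apply Finset.filter_eq_empty_iff.mpr
          intro p _ hp
          have : (π p).val / w ≤ h / w := Nat.div_le_div_right (π p).isLt.le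
          omega
        rw [h1, L_empty]
        have h5 : H = 2 * w * s + 2 * w * s := by rw [hH]; ring
        omega)
  refine ⟨fun p => fL N (R' + 1) m ω' p.val, fr, ?_, hfr1, ?_, ?_, hfr3⟩
  · intro p p' hpp
    exact fL_mono N (R' + 1) m ω' hpp
  · intro p
    refine lt_of_lt_of_le (fL_lt N (R' + 1) m ω' p.val) ?_
    rw [hls, ← hl]
    have h1 : p.val / l * l ≤ p.val := Nat.div_mul_le_self _ _
    have h2 := p.isLt
    calc (p.val / l + 1) * (l * s) = (p.val / l * l + l) * s := by ring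
      _ ≤ n * s := by
        apply Nat.mul_le_mul_right
        nlinarith
  · intro j
    refine lt_of_lt_of_le (hfr2 j) ?_
    have h1 : j.val / w * w ≤ j.val := Nat.div_mul_le_self _ _
    have h2 := j.isLt
    calc (j.val / w + 1) * H = (j.val / w * w + w) * (4 * s) := by rw [hH]; ring
      _ ≤ n * (4 * s) := by
        apply Nat.mul_le_mul_right
        omega
      _ = 4 * (n * s) := by ring

end OTree
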