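import Pool.Agent.Lib.MP_c11385_co.X.Av

set_option autoImplicit false

namespace OTree

open Finset

theorem matching_perm {n : ℕ} (M : SimpleGraph (Fin n)) (h1 : ∀ v : Fin n, ∃! w : Fin n, M.Adj v w)
    (k : ℕ) (h2 : ∀ i j : Fin n, M.Adj i j → (i.val < k ↔ k ≤ j.val)) :
    ∃ h : ℕ, n = 2 * h ∧ ∃ π : Fin h → Fin h, Function.Injective π ∧
      ∀ i j : Fin n, M.Adj i j → i.val < j.val →
        ∃ hi : i.val < h, (π ⟨i.val, hi⟩).val + h = j.val := by
  classical
  rcases Nat.eq_zero_or_pos n with hn0 | hn
  · subst hn0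
    exact ⟨0, rfl, fun i => i, fun _ _ h => h, fun i => i.elim0⟩
  choose p hp hpu using h1
  have hpp : ∀ v, p (p v) = v := by
    intro v
    exact (hpu (p v) v (hp v).symm).symm
  have hk : k ≤ n := by
    have v : Fin n := ⟨0, hn⟩
    have ha := h2 v (p v) (hp v)
    have hb := h2 (p v) v (hp v).symm
    have h3 := v.isLt
    have h4 := (p v).isLt
    omega
  -- cardinalities
  have hside : ∀ v : Fin n, v.val < k ↔ k ≤ (p v).val := fun v => h2 v (p v) (hp v)
  have hcard : (univ.filter (fun v : Fin n => v.val < k)).card =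
      (univ.filter (fun v : Fin n => k ≤ v.val)).card := by
    refine Finset.card_bij (fun v _ => p v) ?_ ?_ ?_
    · intro v hv
      rw [Finset.mem_filter] at hv ⊢
      exact ⟨Finset.mem_univ _, (hside v).mp hv.2⟩
    · intro a _ b _ hab
      rw [← hpp a, hab, hpp]
    · intro w hw
      rw [Finset.mem_filter] at hw
      refine ⟨p w, ?_, hpp w⟩
      rw [Finset.mem_filter]
      refine ⟨Finset.mem_univ _, ?_⟩
      rw [hside (p w), hpp]
      exact hw.2
  have hc1 : (univ.filter (fun v : Fin n => v.val < k)).card = k := by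
    have := Fin.card_filter_val_lt (n := n) (m := k)
    rw [this]
    omega
  have hc2 : (univ.filter (fun v : Fin n => k ≤ v.val)).card = n - k := by
    have h3 := Finset.card_filter_add_card_filter_not (s := (univ : Finset (Fin n)))
      (fun v : Fin n => v.val < k)
    simp only [not_lt] at h3
    rw [hc1, Finset.card_univ, Fintype.card_fin] at h3
    omega
  rw [hc1, hc2] at hcard
  have hn2 : n = 2 * k := by omega
  refine ⟨k, hn2, fun i => ⟨(p ⟨i.val, by omega⟩).val - k, ?_⟩, ?_, ?_⟩
  · have h3 := (p ⟨i.val, by omega⟩).isLt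
    have h4 := (hside ⟨i.val, by omega⟩).mp i.isLt
    omega
  · intro a b hab
    have h3 := congrArg Fin.val hab
    simp only at h3
    have ha := (hside ⟨a.val, by omega⟩).mp a.isLt
    have hb := (hside ⟨b.val, by omega⟩).mp b.isLt
    have h4 : p ⟨a.val, by omega⟩ = p ⟨b.val, by omega⟩ := Fin.ext (by omega)
    have h5 := congrArg p h4
    rw [hpp, hpp] at h5
    have h6 := congrArg Fin.val h5
    exact Fin.ext h6
  · intro i j hij hlt
    have hj : j = p i := hpu i j hij
    have ha := h2 i j hij
    have hb := h2 j i hij.symm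
    have hi : i.val < k := by omega
    refine ⟨hi, ?_⟩
    simp only
    have h3 : (⟨i.val, i.isLt⟩ : Fin n) = i := rfl
    rw [h3, ← hj]
    have := ha.mp hi
    omega

end OTree
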