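import Pool.Agent.Lib.MP_c11385_co.X.Av
import Pool.Agent.Lib.MP_c11385_co.Blue

set_option autoImplicit false

namespace OTree

open Finset

theorem small_case {n K : ℕ} (M : SimpleGraph (Fin n)) (hK : n ^ 3 ≤ K) (R : SimpleGraph (Fin K)) :
    (∃ f : Fin n → Fin K, StrictMono f ∧ ∀ i j : Fin n, M.Adj i j → R.Adj (f i) (f j)) ∨
    (∃ a b c : Fin K, a < b ∧ b < c ∧ ¬ R.Adj a b ∧ ¬ R.Adj b c ∧ ¬ R.Adj a c) := by
  classical
  by_contra hcon
  push Not at hcon
  obtain ⟨hM, hno⟩ := hcon
  have hM' : ¬ ∃ f : Fin n → Fin K, StrictMono f ∧ ∀ i j : Fin n, M.Adj i j →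
      R.Adj (f i) (f j) := by
    rintro ⟨f, hf, hf2⟩
    obtain ⟨i, j, hij, hn⟩ := hM f hf
    exact hn (hf2 i j hij)
  have hno' : ¬ ∃ a b c : Fin K, a < b ∧ b < c ∧ ¬ R.Adj a b ∧ ¬ R.Adj b c ∧ ¬ R.Adj a c := by
    rintro ⟨a, b, c, h1, h2, h3, h4, h5⟩
    exact h5 (hno a b c h1 h2 h3 h4)
  have hdeg : ∀ x : ℕ, Set.ncard {y | Pool.Agent.Lib.MP_c11385_co.Blue R x y} ≤ n := fun x =>
    Pool.Agent.Lib.MP_c11385_co.blue_degree_le M hno' hM' x
  -- blue neighbourhoods as finsets
  have hfin : ∀ x : ℕ, ({y | Pool.Agent.Lib.MP_c11385_co.Blue R x y} : Set ℕ).Finite := by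
    intro x
    refine (Set.finite_Iio K).subset ?_
    rintro y ⟨_, hy, -⟩
    exact hy
  rcases Nat.eq_zero_or_pos n with hn0 | hn
  · subst hn0
    exact hM' ⟨fun i => i.elim0, fun i => i.elim0, fun i => i.elim0⟩
  -- build the function on the naturals below `t`
  have key : ∀ t : ℕ, t ≤ n → ∃ g : ℕ → ℕ, (∀ i < t, i * n ^ 2 ≤ g i ∧ g i < (i + 1) * n ^ 2) ∧
      ∀ i < t, ∀ j < i, ¬ Pool.Agent.Lib.MP_c11385_co.Blue R (g j) (g i) := by
    intro t
    induction t with
    | zero => exact fun _ => ⟨fun _ => 0, fun i hi => absurd hi (by omega),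
        fun i hi => absurd hi (by omega)⟩
    | succ t ih =>
      intro ht
      obtain ⟨g, hg1, hg2⟩ := ih (by omega)
      set B : Finset ℕ := (Finset.range t).biUnion (fun j => (hfin (g j)).toFinset) with hB
      have hBc : B.card ≤ t * n := by
        refine (Finset.card_biUnion_le).trans ?_
        refine (Finset.sum_le_card_nsmul _ _ n ?_).trans (by simp)
        intro j _
        have := hdeg (g j)
        rwa [Set.ncard_eq_toFinset_card _ (hfin (g j))] at this
      have hI : B.card < (Finset.Ico (t * n ^ 2) ((t + 1) * n ^ 2)).card := by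
        rw [Nat.card_Ico]
        have h1 : (t + 1) * n ^ 2 - t * n ^ 2 = n ^ 2 := by
          rw [Nat.add_mul, one_mul, Nat.add_sub_cancel_left]
        rw [h1]
        calc B.card ≤ t * n := hBc
          _ < n * n := Nat.mul_lt_mul_of_pos_right (by omega) hn
          _ = n ^ 2 := (pow_two n).symm
      obtain ⟨y, hy1, hy2⟩ := Finset.exists_mem_notMem_of_card_lt_card hI
      rw [Finset.mem_Ico] at hy1
      refine ⟨Function.update g t y, ?_, ?_⟩
      · intro i hi
        rcases Nat.lt_succ_iff_lt_or_eq.mp hi with h | h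
        · rw [Function.update_of_ne (by omega)]
          exact hg1 i h
        · subst h
          rw [Function.update_self]
          exact hy1
      · intro i hi j hj
        rcases Nat.lt_succ_iff_lt_or_eq.mp hi with h | h
        · rw [Function.update_of_ne (by omega), Function.update_of_ne (by omega)]
          exact hg2 i h j hj
        · subst h
          rw [Function.update_self, Function.update_of_ne (by omega)]
          intro hb
          apply hy2
          rw [hB, Finset.mem_biUnion]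
          exact ⟨j, Finset.mem_range.mpr hj, by simpa using hb⟩
  obtain ⟨g, hg1, hg2⟩ := key n le_rfl
  have hgK : ∀ i : Fin n, g i < K := by
    intro i
    have h1 := (hg1 i i.isLt).2
    have h2 : ((i : ℕ) + 1) * n ^ 2 ≤ n * n ^ 2 := Nat.mul_le_mul_right _ i.isLt
    have h3 : n * n ^ 2 = n ^ 3 := by ring
    omega
  have hmono : ∀ i j : Fin n, i < j → g i < g j := by
    intro i j hij
    have h1 := (hg1 i i.isLt).2
    have h2 := (hg1 j j.isLt).1
    have h3 : ((i : ℕ) + 1) * n ^ 2 ≤ (j : ℕ) * n ^ 2 := Nat.mul_le_mul_right _ hij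
    omega
  have hred : ∀ i j : Fin n, i < j → R.Adj ⟨g i, hgK i⟩ ⟨g j, hgK j⟩ := by
    intro i j hij
    by_contra hadj
    exact hg2 j j.isLt i hij ⟨hgK i, hgK j, (hmono i j hij).ne, hadj⟩
  apply hM'
  refine ⟨fun i => ⟨g i, hgK i⟩, fun i j hij => hmono i j hij, fun i j hij => ?_⟩
  rcases lt_trichotomy i j with h | h | h
  · exact hred i j h
  · subst h
    exact absurd hij (M.loopless.irrefl i)
  · exact (hred j i h).symm

end OTree
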