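import Pool.Agent.Lib.MP_c11385_co.X.Av
import Pool.Agent.Lib.MP_c11385_co.X.MainBip
import Pool.Agent.Lib.MP_c11385_co.X.SmallCase
import Pool.Agent.Lib.MP_c11385_co.X.Matching
import Pool.Agent.Lib.MP_c11385_co.Blue

set_option autoImplicit false

namespace OTree

open Finset

theorem final :
    ∃ ε : ℝ, 0 < ε ∧ ∃ C : ℝ, ∀ n : ℕ, ∀ M : SimpleGraph (Fin n),
      (∀ v : Fin n, ∃! w : Fin n, M.Adj v w) →
      (∃ k : ℕ, ∀ i j : Fin n, M.Adj i j → (i.val < k ↔ k ≤ j.val)) →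
      ∀ N : ℕ, C * (n : ℝ) ^ (2 - ε) ≤ (N : ℝ) →
        ∀ R : SimpleGraph (Fin N),
          (∃ f : Fin n → Fin N, StrictMono f ∧ ∀ i j : Fin n, M.Adj i j → R.Adj (f i) (f j)) ∨
          (∃ a b c : Fin N, a < b ∧ b < c ∧ ¬ R.Adj a b ∧ ¬ R.Adj b c ∧ ¬ R.Adj a c) := by
  classical
  obtain ⟨ε, hε0, hε1, n₀, hmain⟩ := main_bip
  refine ⟨ε, hε0, max 5 ((n₀ : ℝ) ^ 3), ?_⟩
  intro n M hM1 hM2 K hK R
  rcases Nat.eq_zero_or_pos n with hn0 | hnpos
  · subst hn0
    left
    exact ⟨fun i => i.elim0, fun i => i.elim0, fun i => i.elim0⟩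
  have hn1 : (1 : ℝ) ≤ n := by exact_mod_cast hnpos
  have hpow1 : (1 : ℝ) ≤ (n : ℝ) ^ (2 - ε) := Real.one_le_rpow hn1 (by linarith)
  rcases Nat.lt_or_ge n n₀ with hsmall | hbig
  · apply small_case M _ R
    have h1 : ((n ^ 3 : ℕ) : ℝ) ≤ K := by
      push_cast
      calc (n : ℝ) ^ 3 ≤ (n₀ : ℝ) ^ 3 := by
            apply pow_le_pow_left₀ (by positivity)
            exact_mod_cast hsmall.le
        _ ≤ max 5 ((n₀ : ℝ) ^ 3) := le_max_right _ _
        _ ≤ max 5 ((n₀ : ℝ) ^ 3) * (n : ℝ) ^ (2 - ε) :=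
            le_mul_of_one_le_right (by positivity) hpow1
        _ ≤ K := hK
    exact_mod_cast h1
  by_contra hcon
  push Not at hcon
  obtain ⟨hno, htri⟩ := hcon
  have htri' : ¬ ∃ a b c : Fin K, a < b ∧ b < c ∧ ¬ R.Adj a b ∧ ¬ R.Adj b c ∧ ¬ R.Adj a c := by
    rintro ⟨a, b, c, h1, h2, h3, h4, h5⟩
    exact h5 (htri a b c h1 h2 h3 h4)
  have hno' : ¬ ∃ f : Fin n → Fin K, StrictMono f ∧
      ∀ i j : Fin n, M.Adj i j → R.Adj (f i) (f j) := by
    rintro ⟨f, h1, h2⟩
    obtain ⟨i, j, h3, h4⟩ := hno f h1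
    exact h4 (h2 i j h3)
  have hdeg := fun x => Pool.Agent.Lib.MP_c11385_co.blue_degree_le M htri' hno' x
  obtain ⟨k, hk⟩ := hM2
  obtain ⟨h, hnh, π, hπ, hadj⟩ := matching_perm M hM1 k hk
  obtain ⟨A, B, hA, hB, hAB⟩ := hmain n hbig
  have hABK : A + B ≤ K := by
    have : ((A + B : ℕ) : ℝ) ≤ K := by
      push_cast
      calc (A : ℝ) + B ≤ 5 * (n : ℝ) ^ (2 - ε) := by linarith
        _ ≤ max 5 ((n₀ : ℝ) ^ 3) * (n : ℝ) ^ (2 - ε) :=
            mul_le_mul_of_nonneg_right (le_max_left _ _) (by positivity)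
        _ ≤ K := hK
    exact_mod_cast this
  set Γ : ℕ → Finset ℕ := fun x => (Finset.range B).filter
    (fun y => Pool.Agent.Lib.MP_c11385_co.Blue R x (A + y)) with hΓ
  have hbfin : ∀ x, Set.Finite {y | Pool.Agent.Lib.MP_c11385_co.Blue R x y} := fun x =>
    (Set.finite_lt_nat K).subset (fun y hy => hy.2.1)
  have hΓcard : ∀ x, (Γ x).card ≤ n := by
    intro x
    refine le_trans ?_ (hdeg x)
    rw [← Set.ncard_coe_finset]
    refine Set.ncard_le_ncard_of_injOn (fun y => A + y) ?_ ?_ (hbfin x)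
    · intro y hy
      simp only [hΓ, Finset.coe_filter, Set.mem_ofPred_eq] at hy
      exact hy.2
    · intro y _ y' _ hyy
      simpa using hyy
  have hΓcol : ∀ (y : ℕ) (S : Finset ℕ), (S.filter (fun x => y ∈ Γ x)).card ≤ n := by
    intro y S
    refine le_trans ?_ (hdeg (A + y))
    rw [← Set.ncard_coe_finset]
    refine Set.ncard_le_ncard ?_ (hbfin _)
    intro x hx
    simp only [hΓ, Finset.coe_filter, Finset.mem_filter, Set.mem_ofPred_eq] at hx
    exact hx.2.2.symm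
  obtain ⟨fl, fr, hfl, hfr, hflA, hfrB, hgood⟩ := hAB h hnh π hπ Γ hΓcard hΓcol
  -- the embedding
  have hlt2 : ∀ v : Fin n, ¬ v.val < h → v.val - h < h := by
    intro v hv
    have := v.isLt
    omega
  set pos : Fin n → ℕ := fun v =>
    if hv : v.val < h then fl ⟨v.val, hv⟩ else A + fr ⟨v.val - h, hlt2 v hv⟩ with hpos
  have hposL : ∀ (v : Fin n) (hv : v.val < h), pos v = fl ⟨v.val, hv⟩ := by
    intro v hv
    simp only [hpos]
    rw [dif_pos hv]
  have hposR : ∀ (v : Fin n) (hv : ¬ v.val < h), pos v = A + fr ⟨v.val - h, hlt2 v hv⟩ := by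
    intro v hv
    simp only [hpos]
    rw [dif_neg hv]
  have hlt : ∀ v : Fin n, pos v < K := by
    intro v
    by_cases hv : v.val < h
    · rw [hposL v hv]
      have := hflA ⟨v.val, hv⟩
      omega
    · rw [hposR v hv]
      have := hfrB ⟨v.val - h, hlt2 v hv⟩
      omega
  have hmono : ∀ v w : Fin n, v < w → pos v < pos w := by
    intro v w hvw
    have hvw' : v.val < w.val := hvw
    by_cases hw : w.val < h
    · have hv : v.val < h := by omega
      rw [hposL v hv, hposL w hw]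
      exact hfl hvw'
    · by_cases hv : v.val < h
      · rw [hposL v hv, hposR w hw]
        have := hflA ⟨v.val, hv⟩
        omega
      · rw [hposR v hv, hposR w hw]
        apply Nat.add_lt_add_left
        apply hfr
        show v.val - h < w.val - h
        omega
  apply hno'
  refine ⟨fun v => ⟨pos v, hlt v⟩, fun v w hvw => hmono v w hvw, ?_⟩
  have key : ∀ i j : Fin n, M.Adj i j → i.val < j.val →
      R.Adj ⟨pos i, hlt i⟩ ⟨pos j, hlt j⟩ := by
    intro i j hij hlt'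
    obtain ⟨hi, hπij⟩ := hadj i j hij hlt'
    have hj : ¬ j.val < h := by omega
    by_contra h2
    have hne : pos i ≠ pos j := (hmono i j hlt').ne
    have h3 : Pool.Agent.Lib.MP_c11385_co.Blue R (pos i) (pos j) := ⟨hlt i, hlt j, hne, h2⟩
    have h4 := hgood ⟨i.val, hi⟩
    apply h4
    have e : π ⟨i.val, hi⟩ = ⟨j.val - h, hlt2 j hj⟩ := by
      apply Fin.ext
      show (π ⟨i.val, hi⟩).val = j.val - h
      omega
    rw [e]
    simp only [hΓ, Finset.mem_filter, Finset.mem_range]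
    refine ⟨hfrB _, ?_⟩
    rw [← hposL i hi, ← hposR j hj]
    exact h3
  intro i j hij
  rcases lt_trichotomy i.val j.val with h3 | h3 | h3
  · exact key i j hij h3
  · exfalso
    have : i = j := Fin.ext h3
    subst this
    exact M.loopless.irrefl i hij
  · exact (key j i hij.symm h3).symm

end OTree
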